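import Mathlib

/-!
# The Gao-Thangadurai conjecture for almost all `n`: definitions

`Hit A k x`: some `k` distinct elements of `A` have sum `x`; `Fills H R`: the `r`-element subsets
of `R` (some `r`) represent a coset of `H`; `Sw H V δ`: a switch inside `V`; `Boxes`: disjoint
universal sets of switches; `ball D k`: the `k`-fold sumset.
-/

open Finset

namespace Pool.Agent.Lib.MPa7239a.GC

/-- `k` distinct elements of `A` have sum `x` -/
def Hit {G : Type*} [AddCommGroup G] (A : Finset G) (k : ℕ) (x : G) : Prop :=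
  ∃ T ⊆ A, #T = k ∧ ∑ a ∈ T, a = x

/-- `V` contains disjoint `P`, `M` of equal size with `∑ P - ∑ M` congruent to `δ` modulo `H` -/
def Sw {G : Type*} [AddCommGroup G] (H : AddSubgroup G) (V : Finset G) (δ : G) : Prop :=
  ∃ P M : Finset G, P ⊆ V ∧ M ⊆ V ∧ Disjoint P M ∧ #P = #M ∧
    ∑ x ∈ P, x - ∑ x ∈ M, x - δ ∈ H

/-- the `r`-element subsets of `R` have all the sums `c + h`, `h ∈ H` -/
def Fills {G : Type*} [AddCommGroup G] (H : AddSubgroup G) (R : Finset G) : Prop :=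
  ∃ (r : ℕ) (c : G), ∀ h ∈ H, Hit R r (c + h)

/-- no extension of `H` with at most `c` elements of `X` is possible -/
def Closed {G : Type*} [AddCommGroup G] (H : AddSubgroup G) (X : Finset G) (c : ℕ) : Prop :=
  ∀ (ν : G) (t : ℕ) (V : ℕ → Finset G), (t + 1) • ν ∈ H → (∀ i < t, V i ⊆ X) →
    (∀ i < t, ∀ j < t, i ≠ j → Disjoint (V i) (V j)) → (∀ i < t, Sw H (V i) ν) →
    ∑ i ∈ range t, #(V i) ≤ c → ν ∈ H

/-- `w` disjoint sets `V i ⊆ X` of at most `b` elements, each containing a switch for every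
difference of two elements of the rest `S` -/
structure Boxes {G : Type*} [AddCommGroup G] (H : AddSubgroup G) (X : Finset G) (w b : ℕ)
    (V : ℕ → Finset G) (S : Finset G) : Prop where
  sub : ∀ i < w, V i ⊆ X
  disj : ∀ i < w, ∀ j < w, i ≠ j → Disjoint (V i) (V j)
  card : ∀ i < w, #(V i) ≤ b
  ssub : S ⊆ X
  sdisj : ∀ i < w, Disjoint (V i) S
  loss : #X ≤ #S + w * b
  sw : ∀ i < w, ∀ x ∈ S, ∀ y ∈ S, Sw H (V i) (y - x)

open Classical in
/-- the differences of `S` modulo `H` -/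
noncomputable def Dif {G : Type*} [AddCommGroup G] (H : AddSubgroup G) (S : Finset G) :
    Finset (G ⧸ H) :=
  (S ×ˢ S).image (fun p => QuotientAddGroup.mk (p.2 - p.1))

open Classical in
/-- the `k`-fold sumset of `D` -/
noncomputable def ball {Q : Type*} [AddCommGroup Q] (D : Finset Q) : ℕ → Finset Q
  | 0 => {0}
  | k + 1 => Finset.image₂ (fun x y => x + y) (ball D k) D

/-- torsion free up to scale `w` -/
def TF {Q : Type*} [AddCommGroup Q] (D : Finset Q) (w : ℕ) : Prop :=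
  ∀ k s : ℕ, ∀ ν ∈ ball D k, s • ν = 0 → 1 ≤ s → k * s ≤ w → ν = 0

/-! ### Sumsets -/

section ball
variable {Q : Type*} [AddCommGroup Q] {D : Finset Q}

theorem mem_ball_zero {x : Q} : x ∈ ball D 0 ↔ x = 0 := by
  classical
  rw [ball, mem_singleton]

theorem mem_ball_succ {k : ℕ} {x : Q} : x ∈ ball D (k + 1) ↔ ∃ y ∈ ball D k, ∃ d ∈ D, y + d = x := by
  classical
  rw [ball, mem_image₂]

theorem mem_ball_one {x : Q} : x ∈ ball D 1 ↔ x ∈ D := by
  rw [show (1 : ℕ) = 0 + 1 from rfl, mem_ball_succ]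
  constructor
  · rintro ⟨y, hy, d, hd, rfl⟩
    rw [mem_ball_zero] at hy
    rw [hy, zero_add]
    exact hd
  · intro hx
    exact ⟨0, mem_ball_zero.2 rfl, x, hx, zero_add x⟩

theorem zero_mem_ball (h0 : (0 : Q) ∈ D) (k : ℕ) : (0 : Q) ∈ ball D k := by
  induction k with
  | zero => exact mem_ball_zero.2 rfl
  | succ k ih => exact mem_ball_succ.2 ⟨0, ih, 0, h0, add_zero 0⟩

theorem ball_add {j k : ℕ} {x y : Q} (hx : x ∈ ball D j) (hy : y ∈ ball D k) :
    x + y ∈ ball D (j + k) := by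
  induction k generalizing y with
  | zero =>
    rw [mem_ball_zero] at hy
    rw [hy, add_zero x]
    exact hx
  | succ k ih =>
    obtain ⟨z, hz, d, hd, rfl⟩ := mem_ball_succ.1 hy
    rw [← add_assoc, ← add_assoc]
    exact mem_ball_succ.2 ⟨x + z, ih hz, d, hd, rfl⟩

theorem ball_mono (h0 : (0 : Q) ∈ D) {j k : ℕ} (hjk : j ≤ k) : ball D j ⊆ ball D k := by
  intro x hx
  obtain ⟨m, rfl⟩ := Nat.exists_eq_add_of_le hjk
  have := ball_add hx (zero_mem_ball h0 m)
  rwa [add_zero] at this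

theorem ball_neg (hneg : ∀ x ∈ D, -x ∈ D) {k : ℕ} {x : Q} (hx : x ∈ ball D k) :
    -x ∈ ball D k := by
  induction k generalizing x with
  | zero =>
    rw [mem_ball_zero] at hx ⊢
    rw [hx, neg_zero]
  | succ k ih =>
    obtain ⟨z, hz, d, hd, rfl⟩ := mem_ball_succ.1 hx
    exact mem_ball_succ.2 ⟨-z, ih hz, -d, hneg d hd, by abel⟩

theorem ball_sub (hneg : ∀ x ∈ D, -x ∈ D) {j k : ℕ} {x y : Q} (hx : x ∈ ball D j)
    (hy : y ∈ ball D k) : x - y ∈ ball D (j + k) := by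
  rw [sub_eq_add_neg]
  exact ball_add hx (ball_neg hneg hy)

theorem ball_nsmul {k : ℕ} (m : ℕ) {x : Q} (hx : x ∈ ball D k) : m • x ∈ ball D (m * k) := by
  induction m with
  | zero =>
    rw [zero_nsmul, zero_mul]
    exact mem_ball_zero.2 rfl
  | succ m ih =>
    rw [succ_nsmul, add_mul, one_mul]
    exact ball_add ih hx

theorem ball_zsmul (hneg : ∀ x ∈ D, -x ∈ D) {k : ℕ} (m : ℤ) {x : Q} (hx : x ∈ ball D k) :
    m • x ∈ ball D (m.natAbs * k) := by
  rcases Int.natAbs_eq m with h | h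
  · have h2 : m • x = m.natAbs • x := by
      conv_lhs => rw [h]
      exact natCast_zsmul x _
    rw [h2]
    exact ball_nsmul _ hx
  · have h2 : m • x = -(m.natAbs • x) := by
      conv_lhs => rw [h]
      rw [neg_smul, natCast_zsmul]
    rw [h2]
    exact ball_neg hneg (ball_nsmul _ hx)

theorem ball_nonempty (h0 : (0 : Q) ∈ D) (k : ℕ) : (ball D k).Nonempty :=
  ⟨0, zero_mem_ball h0 k⟩

theorem card_ball_one : #(ball D 1) = #D := by
  congr 1
  ext x
  exact mem_ball_one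

end ball

section Dif
variable {G : Type*} [AddCommGroup G] {H : AddSubgroup G} {S : Finset G}

theorem mem_Dif {x : G ⧸ H} : x ∈ Dif H S ↔ ∃ a ∈ S, ∃ b ∈ S, ((b - a : G) : G ⧸ H) = x := by
  classical
  rw [Dif, mem_image]
  constructor
  · rintro ⟨⟨a, b⟩, hp, rfl⟩
    rw [mem_product] at hp
    exact ⟨a, hp.1, b, hp.2, rfl⟩
  · rintro ⟨a, ha, b, hb, rfl⟩
    exact ⟨(a, b), mem_product.2 ⟨ha, hb⟩, rfl⟩

theorem zero_mem_Dif (hS : S.Nonempty) : (0 : G ⧸ H) ∈ Dif H S := by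
  obtain ⟨a, ha⟩ := hS
  exact mem_Dif.2 ⟨a, ha, a, ha, by rw [sub_self]; rfl⟩

theorem neg_mem_Dif : ∀ x ∈ Dif H S, -x ∈ Dif H S := by
  intro x hx
  obtain ⟨a, ha, b, hb, rfl⟩ := mem_Dif.1 hx
  refine mem_Dif.2 ⟨b, hb, a, ha, ?_⟩
  rw [← QuotientAddGroup.mk_neg, neg_sub]

end Dif

end Pool.Agent.Lib.MPa7239a.GC
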