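import Pool.Agent.Lib.MP_a7239a_co.GC.Defs

/-!
# The Gao-Thangadurai conjecture for almost all `n`: growth of sumsets
-/

open Finset

namespace Pool.Agent.Lib.MPa7239a.GC

theorem growth {Q : Type*} [AddCommGroup Q] {D : Finset Q} (h0 : (0 : Q) ∈ D)
    (hneg : ∀ x ∈ D, -x ∈ D) {N : ℕ} (hns : ∀ i < N, ball D (i + 1) ≠ ball D i) {a k : ℕ}
    (ha : 1 ≤ a) (hak : a * k ≤ N) : k * #(ball D a) ≤ 3 * #(ball D (a * k)) := by
  classical
  rcases Nat.eq_zero_or_pos k with rfl | hk
  · simp
  have hz : ∀ i : ℕ, ∃ z : Q, 3 * i + 1 ≤ k → z ∈ ball D (3 * a * i) ∧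
      (1 ≤ i → z ∉ ball D (3 * a * i - 1)) := by
    intro i
    by_cases hi : 3 * i + 1 ≤ k ∧ 1 ≤ i
    · have h1 : a * (3 * i + 1) ≤ a * k := Nat.mul_le_mul_left a hi.1
      have h2 : 3 * a * i = a * (3 * i) := by ring
      have h3 : a * (3 * i + 1) = a * (3 * i) + a := by ring
      have h4 : 1 ≤ a * (3 * i) := Nat.mul_pos ha (by omega)
      have h5 := hns (3 * a * i - 1) (by omega)
      rw [show 3 * a * i - 1 + 1 = 3 * a * i by omega] at h5
      have h6 : ball D (3 * a * i - 1) ⊆ ball D (3 * a * i) := ball_mono h0 (by omega)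
      by_contra hc
      push Not at hc
      apply h5
      refine Subset.antisymm (fun x hx => ?_) h6
      by_contra hx2
      obtain ⟨-, h7⟩ := hc x
      exact hx2 (h7 hx).2
    · refine ⟨0, fun h => ⟨zero_mem_ball h0 _, fun h' => ?_⟩⟩
      exact absurd ⟨h, h'⟩ hi
  choose z hz using hz
  set m := (k - 1) / 3 + 1 with hm
  have hcard : #(range m ×ˢ ball D a) ≤ #(ball D (a * k)) := by
    refine card_le_card_of_injOn (fun p => z p.1 + p.2) ?_ ?_
    · rintro ⟨i, x⟩ hp
      simp only [coe_product, Set.mem_prod, mem_coe, mem_range] at hp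
      have hi : 3 * i + 1 ≤ k := by omega
      have h1 := ball_add (hz i hi).1 hp.2
      refine ball_mono h0 ?_ h1
      have h2 : a * (3 * i + 1) ≤ a * k := Nat.mul_le_mul_left a hi
      have h3 : a * (3 * i + 1) = 3 * a * i + a := by ring
      omega
    · have key : ∀ i j : ℕ, i < m → j < m → i < j → ∀ x ∈ ball D a, ∀ y ∈ ball D a,
          z i + x ≠ z j + y := by
        intro i j hi hj hij x hx y hy he
        have h1 := (hz j (by omega)).2 (by omega)
        apply h1
        have h2 : z j = z i + (x - y) := by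
          rw [← add_sub_assoc, he, add_sub_cancel_right]
        rw [h2]
        have h3 := ball_add (hz i (by omega)).1 (ball_sub hneg hx hy)
        refine ball_mono h0 ?_ h3
        have h4 : 3 * a * (i + 1) ≤ 3 * a * j := Nat.mul_le_mul_left _ (by omega)
        have h5 : 3 * a * (i + 1) = 3 * a * i + 3 * a := by ring
        omega
      rintro ⟨i, x⟩ hp ⟨j, y⟩ hq he
      simp only [coe_product, Set.mem_prod, mem_coe, mem_range] at hp hq he
      rcases lt_trichotomy i j with h | h | h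
      · exact absurd he (key i j hp.1 hq.1 h x hp.2 y hq.2)
      · subst h
        rw [add_right_inj] at he
        rw [he]
      · exact absurd he.symm (key j i hq.1 hp.1 h y hq.2 x hp.2)
  rw [card_product, card_range] at hcard
  have h1 : k ≤ 3 * m := by omega
  calc k * #(ball D a) ≤ 3 * m * #(ball D a) := Nat.mul_le_mul_right _ h1
    _ = 3 * (m * #(ball D a)) := by ring
    _ ≤ 3 * #(ball D (a * k)) := Nat.mul_le_mul_left _ hcard

theorem nonstab {Q : Type*} [AddCommGroup Q] [Finite Q] {D : Finset Q} (h0 : (0 : Q) ∈ D)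
    {w : ℕ} (hTF : TF D w) {δ : Q} (hδ : δ ∈ D) {f : ℕ} (hf : 2 ≤ f) (hfd : f ∣ addOrderOf δ)
    {i : ℕ} (hi : i * f ≤ w) : ball D (i + 1) ≠ ball D i := by
  intro he
  have hmul : ∀ m : ℕ, m • δ ∈ ball D i := by
    intro m
    induction m with
    | zero => rw [zero_nsmul]; exact zero_mem_ball h0 i
    | succ m ih =>
      rw [← he, succ_nsmul]
      exact mem_ball_succ.2 ⟨_, ih, δ, hδ, rfl⟩
  obtain ⟨g, hg⟩ := hfd
  have hpos : 0 < addOrderOf δ := addOrderOf_pos δ
  have hg0 : 0 < g := by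
    rcases Nat.eq_zero_or_pos g with rfl | h
    · rw [hg, mul_zero] at hpos; exact absurd hpos (lt_irrefl 0)
    · exact h
  have h1 : f • (g • δ) = 0 := by
    rw [← mul_nsmul', ← hg]
    exact addOrderOf_nsmul_eq_zero δ
  have h2 := hTF i f (g • δ) (hmul g) h1 (by omega) hi
  have h3 := Nat.le_of_dvd hg0 (addOrderOf_dvd_iff_nsmul_eq_zero.2 h2)
  rw [hg] at h3
  nlinarith

end Pool.Agent.Lib.MPa7239a.GC
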