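import Pool.Agent.Lib.MP_a7239a_co.GC.Defs
import Pool.Agent.Lib.MP_a7239a_co.GC.GROW

/-!
# The Gao-Thangadurai conjecture for almost all `n`: linear growth of the balls
-/

open Finset

namespace Pool.Agent.Lib.MPa7239a.GC

section tors
variable {n : ℕ} [NeZero n]

/-- the elements of order dividing `d` -/
private noncomputable def tors (n d : ℕ) [NeZero n] : Finset (ZMod n × ZMod n) :=
  univ.filter (fun x => d • x = 0)

private theorem mem_tors {d : ℕ} {x : ZMod n × ZMod n} : x ∈ tors n d ↔ d • x = 0 := by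
  rw [tors, mem_filter]
  exact ⟨fun h => h.2, fun h => ⟨mem_univ x, h⟩⟩

private theorem zmod_tors {d g : ℕ} (hdg : d * g = n) (x : ZMod n) (hx : d • x = 0) :
    ∃ i < d, ((g * i : ℕ) : ZMod n) = x := by
  have hn : 0 < n := Nat.pos_of_ne_zero (NeZero.ne n)
  have hd : 0 < d := by
    rcases Nat.eq_zero_or_pos d with h | h
    · rw [h, zero_mul] at hdg
      omega
    · exact h
  have h1 : ((d * x.val : ℕ) : ZMod n) = 0 := by
    rw [Nat.cast_mul, ZMod.natCast_zmod_val, ← nsmul_eq_mul]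
    exact hx
  rw [ZMod.natCast_eq_zero_iff] at h1
  have h2 : g ∣ x.val := by
    have h3 : d * g ∣ d * x.val := hdg.symm ▸ h1
    exact Nat.dvd_of_mul_dvd_mul_left hd h3
  obtain ⟨i, hi⟩ := h2
  refine ⟨i, ?_, ?_⟩
  · have h3 : x.val < n := ZMod.val_lt x
    rw [hi] at h3
    by_contra hc
    push Not at hc
    have h4 : g * d ≤ g * i := Nat.mul_le_mul_left g hc
    have h5 : g * d = n := by rw [mul_comm]; exact hdg
    omega
  · rw [← hi, ZMod.natCast_zmod_val]

private theorem card_tors {d g : ℕ} (hdg : d * g = n) : #(tors n d) ≤ d ^ 2 := by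
  classical
  have h : tors n d ⊆ (range d ×ˢ range d).image
      (fun p => (((g * p.1 : ℕ) : ZMod n), ((g * p.2 : ℕ) : ZMod n))) := by
    intro x hx
    rw [mem_tors] at hx
    have h1 : d • x.1 = 0 := congrArg Prod.fst hx
    have h2 : d • x.2 = 0 := congrArg Prod.snd hx
    obtain ⟨i, hi, hi'⟩ := zmod_tors hdg x.1 h1
    obtain ⟨j, hj, hj'⟩ := zmod_tors hdg x.2 h2
    rw [mem_image]
    refine ⟨(i, j), mem_product.2 ⟨mem_range.2 hi, mem_range.2 hj⟩, ?_⟩
    exact Prod.ext hi' hj'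
  refine (card_le_card h).trans (card_image_le.trans ?_)
  rw [card_product, card_range, sq]

omit [NeZero n] in
private theorem nsmul_self (x : ZMod n × ZMod n) : n • x = 0 := by
  have h : ∀ y : ZMod n, n • y = 0 := fun y => by
    rw [nsmul_eq_mul, ZMod.natCast_self, zero_mul]
  exact Prod.ext (h x.1) (h x.2)

omit [NeZero n] in
private theorem nsmul_quot (H : AddSubgroup (ZMod n × ZMod n)) (x : (ZMod n × ZMod n) ⧸ H) :
    n • x = 0 := by
  obtain ⟨y, rfl⟩ := QuotientAddGroup.mk_surjective x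
  rw [← QuotientAddGroup.mk_nsmul, nsmul_self]
  rfl

open Classical in
/-- the multiples of `g` in the quotient -/
private noncomputable def mult (H : AddSubgroup (ZMod n × ZMod n)) (d : ℕ) :
    Finset ((ZMod n × ZMod n) ⧸ H) :=
  (tors n d).image (fun x : ZMod n × ZMod n => (QuotientAddGroup.mk x : (ZMod n × ZMod n) ⧸ H))

private theorem nsmul_mem_mult (H : AddSubgroup (ZMod n × ZMod n)) {d g : ℕ} (hdg : d * g = n)
    (x : (ZMod n × ZMod n) ⧸ H) : g • x ∈ mult H d := by
  classical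
  obtain ⟨y, rfl⟩ := QuotientAddGroup.mk_surjective x
  rw [mult, mem_image]
  refine ⟨g • y, ?_, ?_⟩
  · rw [mem_tors, smul_smul, hdg]
    exact nsmul_self y
  · rw [QuotientAddGroup.mk_nsmul]

private theorem card_mult (H : AddSubgroup (ZMod n × ZMod n)) {d g : ℕ} (hdg : d * g = n) :
    #(mult H d) ≤ d ^ 2 := by
  classical
  rw [mult]
  exact card_image_le.trans (card_tors hdg)

private theorem card_mult' (H : AddSubgroup (ZMod n × ZMod n)) {d g : ℕ} (hdg : d * g = n)
    (hd : 0 < d) {h : ZMod n × ZMod n} (hh : h ∈ H) (ho : addOrderOf h = d) :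
    #(mult H d) ≤ d := by
  classical
  have h1 : d * #(mult H d) ≤ #(tors n d) := by
    rw [mult]
    refine Finset.mul_card_image_le_card (tors n d) d ?_
    intro a ha
    rw [mem_image] at ha
    obtain ⟨x, hx, rfl⟩ := ha
    rw [mem_tors] at hx
    have h2 : #(range d) ≤ #{y ∈ tors n d | (QuotientAddGroup.mk y : (ZMod n × ZMod n) ⧸ H) =
        (QuotientAddGroup.mk x : (ZMod n × ZMod n) ⧸ H)} := by
      refine card_le_card_of_injOn (fun i => x + i • h) ?_ ?_
      · intro i _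
        simp only [coe_filter, Set.mem_ofPred_eq]
        refine ⟨?_, ?_⟩
        · rw [mem_tors, nsmul_add, hx, zero_add, smul_smul, mul_comm, mul_smul, ← ho,
            addOrderOf_nsmul_eq_zero, smul_zero]
        · rw [QuotientAddGroup.mk_add, QuotientAddGroup.mk_nsmul,
            (QuotientAddGroup.eq_zero_iff h).2 hh, smul_zero, add_zero]
      · intro i hi j hj hij
        simp only [coe_range, Set.mem_Iio] at hi hj
        have h3 : i • h = j • h := add_left_cancel hij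
        rw [← ho] at hi hj
        exact nsmul_injOn_Iio_addOrderOf hi hj h3
    rwa [card_range] at h2
  have h2 := h1.trans (card_tors hdg)
  rw [sq] at h2
  exact Nat.le_of_mul_le_mul_left h2 hd

end tors

/-- multiplication by `g` is injective on the ball -/
private theorem card_ball_le {n : ℕ} [NeZero n] (H : AddSubgroup (ZMod n × ZMod n))
    {D : Finset ((ZMod n × ZMod n) ⧸ H)} (hneg : ∀ x ∈ D, -x ∈ D) {w d g R : ℕ}
    (hTF : TF D w) (hdg : d * g = n) (hR : (R + R) * g ≤ w) : #(ball D R) ≤ #(mult H d) := by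
  classical
  have hn : 0 < n := Nat.pos_of_ne_zero (NeZero.ne n)
  have hg : 1 ≤ g := by
    rcases Nat.eq_zero_or_pos g with h | h
    · rw [h, mul_zero] at hdg
      omega
    · exact h
  refine card_le_card_of_injOn (fun x => g • x) ?_ ?_
  · intro x _
    exact nsmul_mem_mult H hdg x
  · intro x hx y hy hxy
    have h1 : x - y ∈ ball D (R + R) := ball_sub hneg hx hy
    have h2 : g • (x - y) = 0 := by
      rw [nsmul_sub]
      exact sub_eq_zero.2 hxy
    exact sub_eq_zero.1 (hTF (R + R) g (x - y) h1 h2 hg hR)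

theorem linear_growth {n : ℕ} [NeZero n] (H : AddSubgroup (ZMod n × ZMod n))
    {D : Finset ((ZMod n × ZMod n) ⧸ H)} (h0 : 0 ∈ D) (hneg : ∀ x ∈ D, -x ∈ D)
    {w Λ₀ M₀ Y R₀ : ℕ} (hw : n ≤ Λ₀ * w) (hTF : TF D w) (hM₀ : M₀ ∣ n) (hM₁ : 12 * Λ₀ ≤ M₀)
    (hM₂ : M₀ ^ 2 ≤ n) (hDH : n ≤ #D * Nat.card H) (hY : 81 * Λ₀ ^ 2 * Y ^ 4 ≤ n)
    (hY₁ : 1 ≤ Y) (hR₀ : 12 * Λ₀ * R₀ ≤ Y) :
    ∀ k, 1 ≤ k → k ≤ R₀ → #(ball D k) ≤ 7 * Λ₀ * k := by
  classical
  intro k hk1 hkR
  have hn : 0 < n := Nat.pos_of_ne_zero (NeZero.ne n)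
  have hΛ : 1 ≤ Λ₀ := by
    rcases Nat.eq_zero_or_pos Λ₀ with h | h
    · rw [h, zero_mul] at hw
      omega
    · exact h
  by_cases hD : ∀ x ∈ D, x = 0
  · -- the trivial case
    have h1 : ∀ j, ball D j ⊆ {0} := by
      intro j
      induction j with
      | zero =>
        intro x hx
        rw [mem_ball_zero] at hx
        exact mem_singleton.2 hx
      | succ j ih =>
        intro x hx
        obtain ⟨y, hy, z, hz, rfl⟩ := mem_ball_succ.1 hx
        rw [mem_singleton, mem_singleton.1 (ih hy), hD z hz, add_zero]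
    have h2 : #(ball D k) ≤ 1 := by
      have := card_le_card (h1 k)
      rwa [card_singleton] at this
    have h3 : 1 ≤ Λ₀ * k := Nat.mul_pos hΛ hk1
    have h4 : 7 * Λ₀ * k = 7 * (Λ₀ * k) := by ring
    omega
  push Not at hD
  obtain ⟨δ, hδ, hδ0⟩ := hD
  -- the order of `δ`
  have hord : addOrderOf δ ∣ n := addOrderOf_dvd_of_nsmul_eq_zero (nsmul_quot H δ)
  obtain ⟨e, he⟩ := hord
  have hordpos : 0 < addOrderOf δ := by
    rcases Nat.eq_zero_or_pos (addOrderOf δ) with h | h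
    · rw [h, zero_mul] at he
      omega
    · exact h
  have hword : w < addOrderOf δ := by
    by_contra hc
    push Not at hc
    exact hδ0 (hTF 1 (addOrderOf δ) δ (mem_ball_one.2 hδ) (addOrderOf_nsmul_eq_zero δ) hordpos
      (by rw [one_mul]; exact hc))
  have heΛ : e < Λ₀ := by
    by_contra hc
    push Not at hc
    have h1 : Λ₀ * w < Λ₀ * addOrderOf δ := Nat.mul_lt_mul_of_pos_left hword hΛ
    have h2 : addOrderOf δ * Λ₀ ≤ addOrderOf δ * e := Nat.mul_le_mul_left _ hc
    have h3 : Λ₀ * addOrderOf δ = addOrderOf δ * Λ₀ := mul_comm _ _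
    omega
  have hepos : 0 < e := by
    rcases Nat.eq_zero_or_pos e with h | h
    · rw [h, mul_zero] at he
      omega
    · exact h
  have hM₀pos : 0 < M₀ := by omega
  -- no stabilisation
  obtain ⟨f, G, hfd, hGe, hf⟩ := exists_dvd_and_dvd_of_dvd_mul (he ▸ hM₀ : M₀ ∣ addOrderOf δ * e)
  have hf2 : 2 ≤ f := by
    by_contra hc
    have h1 : f ≤ 1 := by omega
    have h2 : G ≤ e := Nat.le_of_dvd hepos hGe
    have h3 : f * G ≤ 1 * G := Nat.mul_le_mul_right _ h1
    omega
  have hfM : f ≤ M₀ := Nat.le_of_dvd hM₀pos ⟨G, hf⟩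
  have hns : ∀ N, N * M₀ ≤ w → ∀ i < N, ball D (i + 1) ≠ ball D i := by
    intro N hN i hi
    refine nonstab h0 hTF hδ hf2 hfd ?_
    exact (Nat.mul_le_mul hi.le hfM).trans hN
  -- the size of `D`
  obtain ⟨g, hg⟩ := hM₀
  have hgpos : 0 < g := by
    rcases Nat.eq_zero_or_pos g with h | h
    · rw [h, mul_zero] at hg
      omega
    · exact h
  have hMg : M₀ ≤ g := by
    have h1 : M₀ * M₀ ≤ M₀ * g := by
      rw [← sq]
      omega
    exact Nat.le_of_mul_le_mul_left h1 hM₀pos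
  have hDbound : #D * 1 < 7 * Λ₀ * M₀ := by
    set R' := w / (2 * g) with hR'
    have h1 : R' * (2 * g) ≤ w := Nat.div_mul_le_self _ _
    have h2 : w < (R' + 1) * (2 * g) := by
      have := Nat.lt_mul_div_succ w (show 0 < 2 * g by omega)
      rw [mul_comm]
      exact this
    have h3 : M₀ < 2 * Λ₀ * (R' + 1) := by
      have a1 : Λ₀ * w < Λ₀ * ((R' + 1) * (2 * g)) := Nat.mul_lt_mul_of_pos_left h2 hΛ
      have a2 : M₀ * g < 2 * Λ₀ * (R' + 1) * g := by
        have : Λ₀ * ((R' + 1) * (2 * g)) = 2 * Λ₀ * (R' + 1) * g := by ring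
        omega
      exact Nat.lt_of_mul_lt_mul_right a2
    have h4 : 6 ≤ R' := by
      have a1 : 2 * Λ₀ * 6 < 2 * Λ₀ * (R' + 1) := by
        have : 2 * Λ₀ * 6 = 12 * Λ₀ := by ring
        omega
      have a2 := Nat.lt_of_mul_lt_mul_left a1
      omega
    have h5 : 3 * M₀ < 7 * Λ₀ * R' := by
      have a1 : 2 * Λ₀ * (R' + 1) * 3 ≤ 7 * Λ₀ * R' := by
        have a2 : Λ₀ * 6 ≤ Λ₀ * R' := Nat.mul_le_mul_left _ h4
        have a3 : 2 * Λ₀ * (R' + 1) * 3 = 6 * (Λ₀ * R') + 6 * Λ₀ := by ring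
        have a4 : 7 * Λ₀ * R' = 7 * (Λ₀ * R') := by ring
        omega
      omega
    have h6 : R' * M₀ ≤ w := by
      have a1 : R' * M₀ ≤ R' * (2 * g) := Nat.mul_le_mul_left _ (by omega)
      omega
    have h7 : R' * #(ball D 1) ≤ 3 * #(ball D (1 * R')) :=
      growth h0 hneg (hns R' h6) le_rfl (by rw [one_mul])
    rw [one_mul, card_ball_one] at h7
    have h8 : #(ball D R') ≤ M₀ ^ 2 := by
      refine (card_ball_le H hneg hTF hg.symm ?_).trans (card_mult H hg.symm)
      have : (R' + R') * g = R' * (2 * g) := by ring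
      omega
    by_contra hc
    push Not at hc
    rw [mul_one] at hc
    have b1 : R' * (7 * Λ₀ * M₀) ≤ R' * #D := Nat.mul_le_mul_left _ hc
    have b2 : 3 * M₀ * M₀ < 7 * Λ₀ * R' * M₀ := Nat.mul_lt_mul_of_pos_right h5 hM₀pos
    have b3 : 3 * M₀ * M₀ = 3 * M₀ ^ 2 := by ring
    have b4 : 7 * Λ₀ * R' * M₀ = R' * (7 * Λ₀ * M₀) := by ring
    omega
  rw [mul_one] at hDbound
  have hHpos : 0 < Nat.card H := Nat.card_pos
  have hHbig : n < 7 * Λ₀ * M₀ * Nat.card H :=
    lt_of_le_of_lt hDH (Nat.mul_lt_mul_of_pos_right hDbound hHpos)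
  -- the exponent of `H`
  obtain ⟨h', hh'⟩ := AddMonoid.exists_addOrderOf_eq_exponent
    (AddMonoid.ExponentExists.of_finite (G := H))
  set a := AddMonoid.exponent H with ha
  have han : a ∣ n := by
    rw [ha]
    refine AddMonoid.exponent_dvd_of_forall_nsmul_eq_zero ?_
    intro x
    apply Subtype.ext
    rw [AddSubgroup.coe_nsmul, nsmul_self]
    rfl
  obtain ⟨c, hc⟩ := han
  have hapos : 0 < a := by
    rcases Nat.eq_zero_or_pos a with h | h
    · rw [h, zero_mul] at hc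
      omega
    · exact h
  have hcpos : 0 < c := by
    rcases Nat.eq_zero_or_pos c with h | h
    · rw [h, mul_zero] at hc
      omega
    · exact h
  have hHa : Nat.card H ≤ a ^ 2 := by
    have h1 : Nat.card H ≤ #(tors n a) := by
      have h2 : Nat.card H = #(univ.filter (fun x : ZMod n × ZMod n => x ∈ H)) := by
        rw [Nat.card_eq_fintype_card]
        exact Fintype.card_subtype _
      rw [h2]
      refine card_le_card (fun x hx => ?_)
      rw [mem_filter] at hx
      rw [mem_tors]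
      have h3 := AddMonoid.exponent_nsmul_eq_zero (⟨x, hx.2⟩ : H)
      have h4 := congrArg Subtype.val h3
      rw [AddSubgroup.coe_nsmul] at h4
      exact h4
    exact h1.trans (card_tors hc.symm)
  have hbig2 : n < 7 * Λ₀ * M₀ * a ^ 2 :=
    lt_of_lt_of_le hHbig (Nat.mul_le_mul_left _ hHa)
  -- choice of the divisor `d` of `a`
  obtain ⟨d, hda, hYd, hdM⟩ : ∃ d, d ∣ a ∧ Y ≤ d ∧ d * M₀ ≤ 2 * n := by
    by_cases hcase : a * M₀ ≤ 2 * n
    · refine ⟨a, dvd_rfl, ?_, hcase⟩
      by_contra hlt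
      push Not at hlt
      have h1 : a ^ 2 ≤ Y ^ 2 := Nat.pow_le_pow_left hlt.le 2
      have h2 : n < 7 * Λ₀ * M₀ * Y ^ 2 := lt_of_lt_of_le hbig2 (Nat.mul_le_mul_left _ h1)
      have h3 : n * n < (7 * Λ₀ * M₀ * Y ^ 2) * (7 * Λ₀ * M₀ * Y ^ 2) := Nat.mul_self_lt_mul_self h2
      have h4 : (7 * Λ₀ * M₀ * Y ^ 2) * (7 * Λ₀ * M₀ * Y ^ 2) =
          49 * Λ₀ ^ 2 * Y ^ 4 * M₀ ^ 2 := by ring
      have h5 : 49 * Λ₀ ^ 2 * Y ^ 4 * M₀ ^ 2 ≤ n * n := by
        refine Nat.mul_le_mul ?_ hM₂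
        refine le_trans ?_ hY
        have : 49 * Λ₀ ^ 2 * Y ^ 4 ≤ 81 * Λ₀ ^ 2 * Y ^ 4 :=
          Nat.mul_le_mul_right _ (Nat.mul_le_mul_right _ (by norm_num))
        exact this
      omega
    · push Not at hcase
      have hMac : M₀ ∣ a * c := ⟨g, by omega⟩
      obtain ⟨M', G', hM'a, hG'c, hM'⟩ := exists_dvd_and_dvd_of_dvd_mul hMac
      by_cases hM'Y : Y ≤ M'
      · refine ⟨M', hM'a, hM'Y, ?_⟩
        have h1 : M' ≤ M₀ := Nat.le_of_dvd hM₀pos ⟨G', hM'⟩
        have h2 : M' * M₀ ≤ M₀ * M₀ := Nat.mul_le_mul_right _ h1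
        have h3 : M₀ * M₀ = M₀ ^ 2 := (sq _).symm
        omega
      · push Not at hM'Y
        obtain ⟨d, hd⟩ := hM'a
        have hM'pos : 0 < M' := by
          rcases Nat.eq_zero_or_pos M' with h | h
          · rw [h, zero_mul] at hd
            omega
          · exact h
        refine ⟨d, ⟨M', by rw [mul_comm]; exact hd⟩, ?_, ?_⟩
        · -- `Y ^ 2 < a`
          have h1 : Y ^ 2 < a := by
            have a1 : (2 * n) * (2 * n) < (a * M₀) * (a * M₀) := Nat.mul_self_lt_mul_self hcase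
            have a2 : (a * M₀) * (a * M₀) = a ^ 2 * M₀ ^ 2 := by ring
            have a3 : a ^ 2 * M₀ ^ 2 ≤ a ^ 2 * n := Nat.mul_le_mul_left _ hM₂
            have a4 : (4 * n) * n < a ^ 2 * n := by
              have : (2 * n) * (2 * n) = (4 * n) * n := by ring
              omega
            have a5 : 4 * n < a ^ 2 := Nat.lt_of_mul_lt_mul_right a4
            have a6 : Y ^ 4 ≤ n := by
              refine le_trans ?_ hY
              refine Nat.le_mul_of_pos_left _ ?_
              positivity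
            have a7 : (Y ^ 2) ^ 2 < a ^ 2 := by
              have : (Y ^ 2) ^ 2 = Y ^ 4 := by ring
              omega
            exact lt_of_pow_lt_pow_left₀ 2 (Nat.zero_le _) a7
          by_contra hlt
          push Not at hlt
          have h2 : M' * d ≤ Y * Y := Nat.mul_le_mul hM'Y.le hlt.le
          have h3 : Y * Y = Y ^ 2 := (sq _).symm
          omega
        · -- `d M₀ ≤ n`
          have h1 : d * M₀ = a * G' := by
            rw [hM', hd]
            ring
          have h2 : a * G' ≤ a * c := Nat.mul_le_mul_left _ (Nat.le_of_dvd hcpos hG'c)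
          omega
  -- an element of order `d` in `H`
  obtain ⟨b, hb⟩ := hda
  have hdpos : 0 < d := by omega
  have hbpos : 0 < b := by
    rcases Nat.eq_zero_or_pos b with h | h
    · rw [h, mul_zero] at hb
      omega
    · exact h
  have hord2 : addOrderOf (b • (h' : ZMod n × ZMod n)) = d := by
    have h1 : addOrderOf (h' : ZMod n × ZMod n) = a := by
      rw [AddSubgroup.addOrderOf_coe]
      exact hh'
    rw [addOrderOf_nsmul_of_dvd hbpos.ne' (by rw [h1]; exact ⟨d, by rw [mul_comm]; exact hb⟩), h1,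
      hb, Nat.mul_div_cancel _ hbpos]
  have hmem2 : b • (h' : ZMod n × ZMod n) ∈ H := H.nsmul_mem h'.2 b
  set g' := b * c with hg'
  have hdg : d * g' = n := by
    rw [hg', ← mul_assoc, ← hb, hc]
  have hg'pos : 0 < g' := Nat.mul_pos hbpos hcpos
  have hmult : #(mult H d) ≤ d := card_mult' H hdg hdpos hmem2 hord2
  -- the conclusion
  set R := w / (2 * g') with hR
  have h1 : R * (2 * g') ≤ w := Nat.div_mul_le_self _ _
  have h2 : w < (R + 1) * (2 * g') := by
    have := Nat.lt_mul_div_succ w (show 0 < 2 * g' by omega)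
    rw [mul_comm]
    exact this
  have h3 : d < 2 * Λ₀ * (R + 1) := by
    have a1 : Λ₀ * w < Λ₀ * ((R + 1) * (2 * g')) := Nat.mul_lt_mul_of_pos_left h2 hΛ
    have a2 : d * g' < 2 * Λ₀ * (R + 1) * g' := by
      have : Λ₀ * ((R + 1) * (2 * g')) = 2 * Λ₀ * (R + 1) * g' := by ring
      omega
    exact Nat.lt_of_mul_lt_mul_right a2
  have h4 : 6 * k ≤ R := by
    have a1 : 2 * Λ₀ * (6 * k) < 2 * Λ₀ * (R + 1) := by
      have a2 : 2 * Λ₀ * (6 * k) = 12 * Λ₀ * k := by ring
      have a3 : 12 * Λ₀ * k ≤ 12 * Λ₀ * R₀ := Nat.mul_le_mul_left _ hkR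
      omega
    have a2 := Nat.lt_of_mul_lt_mul_left a1
    omega
  have hM2g : M₀ ≤ 2 * g' := by
    have a1 : d * M₀ ≤ d * (2 * g') := by
      have : d * (2 * g') = 2 * n := by rw [← hdg]; ring
      omega
    exact Nat.le_of_mul_le_mul_left a1 hdpos
  have h6 : R * M₀ ≤ w := (Nat.mul_le_mul_left _ hM2g).trans h1
  set k' := R / k with hk'
  have h7 : 6 ≤ k' := by
    rw [hk', Nat.le_div_iff_mul_le (by omega)]
    exact h4
  have h8 : k * k' ≤ R := Nat.mul_div_le _ _
  have h9 : R + 1 ≤ k * (k' + 1) := Nat.lt_mul_div_succ R (by omega)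
  have h10 : k' * #(ball D k) ≤ 3 * #(ball D (k * k')) := growth h0 hneg (hns R h6) hk1 h8
  have h11 : #(ball D (k * k')) ≤ #(ball D R) := card_le_card (ball_mono h0 h8)
  have h12 : #(ball D R) ≤ d := by
    refine (card_ball_le H hneg hTF hdg ?_).trans hmult
    have : (R + R) * g' = R * (2 * g') := by ring
    omega
  by_contra hlt
  push Not at hlt
  have b1 : k' * (7 * Λ₀ * k + 1) ≤ k' * #(ball D k) := Nat.mul_le_mul_left _ hlt
  have b2 : 2 * Λ₀ * (R + 1) ≤ 2 * Λ₀ * (k * (k' + 1)) := Nat.mul_le_mul_left _ h9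
  have b3 : 3 * (2 * Λ₀ * (k * (k' + 1))) ≤ k' * (7 * Λ₀ * k) := by
    have a1 : Λ₀ * k * 6 ≤ Λ₀ * k * k' := Nat.mul_le_mul_left _ h7
    have a2 : 3 * (2 * Λ₀ * (k * (k' + 1))) = 6 * (Λ₀ * k * k') + Λ₀ * k * 6 := by ring
    have a3 : k' * (7 * Λ₀ * k) = 7 * (Λ₀ * k * k') := by ring
    omega
  have b4 : k' * (7 * Λ₀ * k + 1) = k' * (7 * Λ₀ * k) + k' := by ring
  omega

end Pool.Agent.Lib.MPa7239a.GC
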