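import Pool.Agent.Lib.MP_a7239a_co.GC.CLO

/-!
# The general closure (module CL2, helper62)
-/

set_option autoImplicit false

open Finset

namespace Pool.Agent.Lib.MPa7239a.GC

/-- no subgroup above `H` can be filled with at most `c` further elements -/
def Closed' {G : Type*} [AddCommGroup G] [DecidableEq G] (H : AddSubgroup G) (R X : Finset G)
    (c : ℕ) : Prop :=
  ∀ K : AddSubgroup G, H < K → ∀ X' ⊆ X, #X' ≤ c → ¬ Fills K (R ∪ X')

/-- a larger subgroup has at least one more binary digit -/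
theorem log_card_lt {G : Type*} [AddCommGroup G] [Finite G] {H K : AddSubgroup G} (h : H < K) :
    Nat.log 2 (Nat.card H) + 1 ≤ Nat.log 2 (Nat.card K) := by
  have hlt : Nat.card H < Nat.card K := by
    have h3 : (H : Set G).ncard < (K : Set G).ncard := Set.ncard_lt_ncard h (Set.toFinite _)
    exact h3
  have hdvd : Nat.card H ∣ Nat.card K := AddSubgroup.card_dvd_of_le h.le
  have h2le : 2 * Nat.card H ≤ Nat.card K := by
    obtain ⟨s, hs⟩ := hdvd
    rw [hs] at hlt ⊢
    have hp : 0 < Nat.card H := Nat.card_pos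
    have : 2 ≤ s := by
      by_contra h
      have : s ≤ 1 := by omega
      have := Nat.mul_le_mul_left (Nat.card H) this
      omega
    rw [mul_comm]
    exact Nat.mul_le_mul_left _ this
  have hp : Nat.card H ≠ 0 := Nat.card_pos.ne'
  calc Nat.log 2 (Nat.card H) + 1 = Nat.log 2 (Nat.card H * 2) :=
        (Nat.log_mul_base Nat.one_lt_two hp).symm
    _ ≤ _ := Nat.log_mono_right (by rw [mul_comm]; exact h2le)

/-- the general closure implies the closure under extensions -/
theorem Closed'.closed {G : Type*} [AddCommGroup G] [DecidableEq G] {H : AddSubgroup G}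
    {R X : Finset G} {c : ℕ} (h : Closed' H R X c) (hF : Fills H R) (hXR : Disjoint X R) :
    Closed H X c := by
  intro ν t V hν hVA hV hsw hsum
  by_contra hνH
  have hsub : ∀ i < t, Disjoint (V i) R := fun i hi => hXR.mono_left (hVA i hi)
  refine h (H ⊔ AddSubgroup.zmultiples ν) ?_ ((range t).biUnion V)
    (biUnion_subset.2 fun i hi => hVA i (mem_range.1 hi)) (card_biUnion_le.trans hsum)
    (fills_extend hF V hν hsub hV hsw)
  refine lt_of_le_of_ne le_sup_left fun h => hνH ?_
  rw [h]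
  exact (le_sup_right : AddSubgroup.zmultiples ν ≤ _) (AddSubgroup.mem_zmultiples ν)

/-- GENERAL CLOSURE -/
theorem exists_closed' {G : Type*} [AddCommGroup G] [Finite G] [DecidableEq G] (A : Finset G)
    (c : ℕ) : ∃ (H : AddSubgroup G) (R : Finset G), R ⊆ A ∧ Fills H R ∧
      #R ≤ c * Nat.log 2 (Nat.card H) ∧ Closed H (A \ R) c ∧ Closed' H R (A \ R) c := by
  classical
  -- a pair of maximal order
  let Pr : ℕ → Prop := fun N => ∃ (H : AddSubgroup G) (R : Finset G), R ⊆ A ∧ Fills H R ∧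
    #R ≤ c * Nat.log 2 (Nat.card H) ∧ Nat.card H = N
  have hle : ∀ H : AddSubgroup G, Nat.card H ≤ Nat.card G := fun H =>
    Nat.le_of_dvd Nat.card_pos (AddSubgroup.card_addSubgroup_dvd_card H)
  have h1 : Pr 1 := by
    refine ⟨⊥, ∅, empty_subset _, ⟨0, 0, fun h hh => ?_⟩, by simp, by simp⟩
    rw [AddSubgroup.mem_bot.1 hh]
    exact ⟨∅, Subset.rfl, by simp, by simp⟩
  obtain ⟨N, hN, hmax⟩ : ∃ N, Pr N ∧ ∀ N', Pr N' → N' ≤ N := by
    have hb : ∀ N, Pr N → N ≤ Nat.card G := by
      rintro N ⟨H, R, _, _, _, rfl⟩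
      exact hle H
    refine ⟨Nat.findGreatest Pr (Nat.card G), ?_, fun N' hN' => ?_⟩
    · exact Nat.findGreatest_spec (m := 1) (hb 1 h1) h1
    · exact Nat.le_findGreatest (hb N' hN') hN'
  obtain ⟨H, R, hRA, hF, hc, rfl⟩ := hN
  have hcl : Closed' H R (A \ R) c := by
    intro K hHK X' hX' hX'c hFK
    have hnew : Pr (Nat.card K) := by
      refine ⟨K, R ∪ X', union_subset hRA (hX'.trans sdiff_subset), hFK, ?_, rfl⟩
      calc #(R ∪ X') ≤ #R + #X' := card_union_le _ _
        _ ≤ c * Nat.log 2 (Nat.card H) + c := Nat.add_le_add hc hX'c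
        _ = c * (Nat.log 2 (Nat.card H) + 1) := by ring
        _ ≤ _ := Nat.mul_le_mul_left _ (log_card_lt hHK)
    have h2 := hmax _ hnew
    have h3 : (H : Set G).ncard < (K : Set G).ncard := Set.ncard_lt_ncard hHK (Set.toFinite _)
    exact absurd h3 (not_lt.2 h2)
  exact ⟨H, R, hRA, hF, hc, hcl.closed hF sdiff_disjoint, hcl⟩

end Pool.Agent.Lib.MPa7239a.GC
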