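import Pool.Agent.Lib.MP_a7239a_co.GC.Defs

/-!
# Extension and closure of filled subgroups (module CLO, helper62)
-/

set_option autoImplicit false

open Finset

namespace Pool.Agent.Lib.MPa7239a.GC

/-- EXTENSION: `t` disjoint switches with difference `ν`, `(t + 1) ν ∈ H` -/
theorem fills_extend {G : Type*} [AddCommGroup G] [DecidableEq G] {H : AddSubgroup G}
    {R : Finset G} (hR : Fills H R) {ν : G} {t : ℕ} (V : ℕ → Finset G) (hν : (t + 1) • ν ∈ H)
    (hVR : ∀ i < t, Disjoint (V i) R)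
    (hV : ∀ i < t, ∀ j < t, i ≠ j → Disjoint (V i) (V j)) (hsw : ∀ i < t, Sw H (V i) ν) :
    Fills (H ⊔ AddSubgroup.zmultiples ν) (R ∪ (range t).biUnion V) := by
  obtain ⟨r, c, hr⟩ := hR
  choose! P M hP hM hd hc hs using hsw
  refine ⟨r + ∑ i ∈ range t, #(P i), c + ∑ i ∈ range t, ∑ x ∈ M i, x, fun g hg => ?_⟩
  -- normal form of `g`
  obtain ⟨h, hh, a, ha, rfl⟩ : ∃ h ∈ H, ∃ a : ℕ, a ≤ t ∧ h + a • ν = g := by
    obtain ⟨h, hh, y, hy, rfl⟩ := AddSubgroup.mem_sup.1 hg
    obtain ⟨k, rfl⟩ := AddSubgroup.mem_zmultiples_iff.1 hy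
    have hpos : (0 : ℤ) < (t : ℤ) + 1 := by positivity
    refine ⟨h + (k / ((t : ℤ) + 1)) • ((t + 1) • ν), ?_, (k % ((t : ℤ) + 1)).toNat, ?_, ?_⟩
    · exact H.add_mem hh (H.zsmul_mem hν _)
    · have := Int.emod_lt_of_pos k hpos
      have := Int.emod_nonneg k hpos.ne'
      omega
    · have h1 : (((k % ((t : ℤ) + 1)).toNat : ℕ) : ℤ) = k % ((t : ℤ) + 1) :=
        Int.toNat_of_nonneg (Int.emod_nonneg k hpos.ne')
      have h2 : ((k % ((t : ℤ) + 1)).toNat) • ν = (k % ((t : ℤ) + 1)) • ν := by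
        rw [← natCast_zsmul, h1]
      have h3 : (t + 1) • ν = ((t : ℤ) + 1) • ν := by
        rw [← natCast_zsmul]
        push_cast
        rfl
      rw [h2, h3, smul_smul, add_assoc, ← add_smul, Int.ediv_mul_add_emod]
  -- the selected sets
  set W : ℕ → Finset G := fun i => if i < a then P i else M i with hW
  have hWV : ∀ i < t, W i ⊆ V i := fun i hi => by
    by_cases hia : i < a
    · simpa only [hW, if_pos hia] using hP i hi
    · simpa only [hW, if_neg hia] using hM i hi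
  have hWd : ∀ i ∈ range t, ∀ j ∈ range t, i ≠ j → Disjoint (W i) (W j) := fun i hi j hj hij =>
    (hV i (mem_range.1 hi) j (mem_range.1 hj) hij).mono (hWV i (mem_range.1 hi))
      (hWV j (mem_range.1 hj))
  have hWc : ∀ i ∈ range t, #(W i) = #(P i) := fun i hi => by
    by_cases hia : i < a
    · simp only [hW, if_pos hia]
    · simp only [hW, if_neg hia]
      exact (hc i (mem_range.1 hi)).symm
  -- the sum of the selected sets
  set d : ℕ → G := fun i => ∑ x ∈ P i, x - ∑ x ∈ M i, x - ν with hdd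
  have hsum : ∑ i ∈ range t, ∑ x ∈ W i, x =
      ∑ i ∈ range t, ∑ x ∈ M i, x + a • ν + ∑ i ∈ range a, d i := by
    have h1 : ∀ i ∈ range t, ∑ x ∈ W i, x =
        ∑ x ∈ M i, x + if i < a then ν + d i else 0 := fun i _ => by
      by_cases hia : i < a
      · simp only [hW, hdd, if_pos hia]
        abel
      · simp only [hW, if_neg hia]
        rw [add_zero]
    rw [sum_congr rfl h1, sum_add_distrib, add_assoc]
    congr 1
    rw [← sum_filter]
    have h2 : (range t).filter (fun i => i < a) = range a := by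
      ext i
      rw [mem_filter, mem_range, mem_range]
      omega
    rw [h2, sum_add_distrib, sum_const, card_range]
  have hdH : ∑ i ∈ range a, d i ∈ H := H.sum_mem fun i hi =>
    hs i ((mem_range.1 hi).trans_le ha)
  obtain ⟨T, hT, hTc, hTs⟩ := hr (h - ∑ i ∈ range a, d i) (H.sub_mem hh hdH)
  have hdis : Disjoint T ((range t).biUnion W) := by
    rw [disjoint_biUnion_right]
    intro i hi
    exact ((hVR i (mem_range.1 hi)).mono (hWV i (mem_range.1 hi)) hT).symm
  refine ⟨T ∪ (range t).biUnion W, union_subset_union hT (biUnion_mono fun i hi => hWV i (mem_range.1 hi)),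
    ?_, ?_⟩
  · rw [card_union_of_disjoint hdis, hTc, card_biUnion hWd, sum_congr rfl hWc]
  · rw [sum_union hdis, hTs, sum_biUnion hWd, hsum]
    abel

/-- CLOSURE -/
theorem exists_closed {G : Type*} [AddCommGroup G] [Finite G] [DecidableEq G] (A : Finset G)
    (c : ℕ) : ∃ (H : AddSubgroup G) (R : Finset G), R ⊆ A ∧ Fills H R ∧
      #R ≤ c * Nat.log 2 (Nat.card H) ∧ Closed H (A \ R) c := by
  classical
  -- a pair of maximal order
  let Pr : ℕ → Prop := fun N => ∃ (H : AddSubgroup G) (R : Finset G), R ⊆ A ∧ Fills H R ∧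
    #R ≤ c * Nat.log 2 (Nat.card H) ∧ Nat.card H = N
  have hle : ∀ H : AddSubgroup G, Nat.card H ≤ Nat.card G := fun H =>
    Nat.le_of_dvd Nat.card_pos (AddSubgroup.card_addSubgroup_dvd_card H)
  have h1 : Pr 1 := by
    refine ⟨⊥, ∅, empty_subset _, ⟨0, 0, fun h hh => ?_⟩, by simp, by simp⟩
    rw [AddSubgroup.mem_bot.1 hh]
    exact ⟨∅, Subset.rfl, by simp, by simp⟩
  obtain ⟨N, hN, hmax⟩ : ∃ N, Pr N ∧ ∀ N', Pr N' → N' ≤ N := by
    have hb : ∀ N, Pr N → N ≤ Nat.card G := by
      rintro N ⟨H, R, _, _, _, rfl⟩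
      exact hle H
    refine ⟨Nat.findGreatest Pr (Nat.card G), ?_, fun N' hN' => ?_⟩
    · exact Nat.findGreatest_spec (m := 1) (hb 1 h1) h1
    · exact Nat.le_findGreatest (hb N' hN') hN'
  obtain ⟨H, R, hRA, hF, hc, rfl⟩ := hN
  refine ⟨H, R, hRA, hF, hc, ?_⟩
  intro ν t V hν hVA hV hsw hsum
  by_contra hνH
  have hsub : ∀ i < t, Disjoint (V i) R := fun i hi => by
    rw [disjoint_left]
    intro x hx
    exact (mem_sdiff.1 (hVA i hi hx)).2
  have hF' := fills_extend hF V hν hsub hV hsw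
  have hlt : Nat.card H < Nat.card (H ⊔ AddSubgroup.zmultiples ν : AddSubgroup G) := by
    have h2 : H < H ⊔ AddSubgroup.zmultiples ν := by
      refine lt_of_le_of_ne le_sup_left fun h => hνH ?_
      rw [h]
      exact (le_sup_right : AddSubgroup.zmultiples ν ≤ _) (AddSubgroup.mem_zmultiples ν)
    have h3 : (H : Set G).ncard < ((H ⊔ AddSubgroup.zmultiples ν : AddSubgroup G) : Set G).ncard :=
      Set.ncard_lt_ncard h2 (Set.toFinite _)
    exact h3
  have hdvd : Nat.card H ∣ Nat.card (H ⊔ AddSubgroup.zmultiples ν : AddSubgroup G) :=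
    AddSubgroup.card_dvd_of_le le_sup_left
  have h2le : 2 * Nat.card H ≤ Nat.card (H ⊔ AddSubgroup.zmultiples ν : AddSubgroup G) := by
    obtain ⟨s, hs⟩ := hdvd
    rw [hs] at hlt ⊢
    have hp : 0 < Nat.card H := Nat.card_pos
    have : 2 ≤ s := by
      by_contra h
      have : s ≤ 1 := by omega
      have := Nat.mul_le_mul_left (Nat.card H) this
      omega
    rw [mul_comm]
    exact Nat.mul_le_mul_left _ this
  have hlog : Nat.log 2 (Nat.card H) + 1 ≤
      Nat.log 2 (Nat.card (H ⊔ AddSubgroup.zmultiples ν : AddSubgroup G)) := by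
    have hp : Nat.card H ≠ 0 := Nat.card_pos.ne'
    calc Nat.log 2 (Nat.card H) + 1 = Nat.log 2 (Nat.card H * 2) :=
          (Nat.log_mul_base Nat.one_lt_two hp).symm
      _ ≤ _ := Nat.log_mono_right (by rw [mul_comm]; exact h2le)
  have hnew : Pr (Nat.card (H ⊔ AddSubgroup.zmultiples ν : AddSubgroup G)) := by
    refine ⟨H ⊔ AddSubgroup.zmultiples ν, R ∪ (range t).biUnion V, ?_, hF', ?_, rfl⟩
    · refine union_subset hRA (biUnion_subset.2 fun i hi => ?_)
      exact (hVA i (mem_range.1 hi)).trans sdiff_subset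
    · calc #(R ∪ (range t).biUnion V) ≤ #R + #((range t).biUnion V) := card_union_le _ _
        _ ≤ #R + ∑ i ∈ range t, #(V i) := Nat.add_le_add_left card_biUnion_le _
        _ ≤ c * Nat.log 2 (Nat.card H) + c := Nat.add_le_add hc hsum
        _ = c * (Nat.log 2 (Nat.card H) + 1) := by ring
        _ ≤ _ := Nat.mul_le_mul_left _ hlog
  have := hmax _ hnew
  omega

/-- a filled subgroup lies in each subgroup containing the differences of `R` -/
theorem fills_le {G : Type*} [AddCommGroup G] {H K : AddSubgroup G} {R : Finset G}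
    (hR : Fills H R) (hK : ∀ x ∈ R, ∀ y ∈ R, y - x ∈ K) : H ≤ K := by
  intro h hh
  obtain ⟨r, c, hr⟩ := hR
  obtain ⟨T, hT, hTc, hTs⟩ := hr h hh
  obtain ⟨T', hT', hTc', hTs'⟩ := hr 0 H.zero_mem
  have hh' : h = ∑ x ∈ T, x - ∑ x ∈ T', x := by
    rw [hTs, hTs']
    abel
  rcases Nat.eq_zero_or_pos r with h0 | h0
  · rw [h0, card_eq_zero] at hTc hTc'
    rw [hh', hTc, hTc', sub_self]
    exact K.zero_mem
  · obtain ⟨x₀, hx₀⟩ : T.Nonempty := by
      rw [← card_pos, hTc]
      exact h0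
    have key : ∀ S ⊆ R, #S = r → ∑ x ∈ S, x - r • x₀ ∈ K := fun S hS hSc => by
      have : ∑ x ∈ S, x - r • x₀ = ∑ x ∈ S, (x - x₀) := by
        rw [sum_sub_distrib, sum_const, hSc]
      rw [this]
      exact K.sum_mem fun x hx => hK x₀ (hT hx₀) x (hS hx)
    have := K.sub_mem (key T hT hTc) (key T' hT' hTc')
    rw [hh']
    simpa using this

end Pool.Agent.Lib.MPa7239a.GC
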