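import Pool.Agent.Lib.MP_a7239a_co.GC.Defs

/-!
# Copies of a switch inside the boxes; torsion freeness (module CPY)
-/

set_option autoImplicit false

open Finset

namespace Pool.Agent.Lib.MPa7239a.GC

/-- union of two switches in disjoint sets -/
theorem sw_union {G : Type*} [AddCommGroup G] [DecidableEq G] {H : AddSubgroup G}
    {V₁ V₂ : Finset G} (hd : Disjoint V₁ V₂) {δ₁ δ₂ : G} (h₁ : Sw H V₁ δ₁) (h₂ : Sw H V₂ δ₂) :
    Sw H (V₁ ∪ V₂) (δ₁ + δ₂) := by
  obtain ⟨P₁, M₁, hP₁, hM₁, hd₁, hc₁, hs₁⟩ := h₁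
  obtain ⟨P₂, M₂, hP₂, hM₂, hd₂, hc₂, hs₂⟩ := h₂
  refine ⟨P₁ ∪ P₂, M₁ ∪ M₂, union_subset_union hP₁ hP₂, union_subset_union hM₁ hM₂, ?_, ?_, ?_⟩
  · rw [disjoint_union_left, disjoint_union_right, disjoint_union_right]
    exact ⟨⟨hd₁, hd.mono hP₁ hM₂⟩, ⟨hd.symm.mono hP₂ hM₁, hd₂⟩⟩
  · rw [card_union_of_disjoint (hd.mono hP₁ hP₂), card_union_of_disjoint (hd.mono hM₁ hM₂), hc₁,
      hc₂]
  · rw [sum_union (hd.mono hP₁ hP₂), sum_union (hd.mono hM₁ hM₂)]
    have e : ∑ x ∈ P₁, x + ∑ x ∈ P₂, x - (∑ x ∈ M₁, x + ∑ x ∈ M₂, x) - (δ₁ + δ₂) =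
        (∑ x ∈ P₁, x - ∑ x ∈ M₁, x - δ₁) + (∑ x ∈ P₂, x - ∑ x ∈ M₂, x - δ₂) := by abel
    rw [e]
    exact H.add_mem hs₁ hs₂

/-- a switch only depends on the difference modulo `H` -/
theorem sw_congr {G : Type*} [AddCommGroup G] {H : AddSubgroup G} {V : Finset G} {δ δ' : G}
    (h : Sw H V δ) (hδ : δ - δ' ∈ H) : Sw H V δ' := by
  obtain ⟨P, M, hP, hM, hd, hc, hs⟩ := h
  refine ⟨P, M, hP, hM, hd, hc, ?_⟩
  have e : ∑ x ∈ P, x - ∑ x ∈ M, x - δ' = (∑ x ∈ P, x - ∑ x ∈ M, x - δ) + (δ - δ') := by abel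
  rw [e]
  exact H.add_mem hs hδ

theorem sw_ball {G : Type*} [AddCommGroup G] [DecidableEq G] {H : AddSubgroup G} {X : Finset G}
    {w b : ℕ} {V : ℕ → Finset G} {S : Finset G} (h : Boxes H X w b V S) {k : ℕ} {I : Finset ℕ}
    (hI : ∀ i ∈ I, i < w) (hIk : #I = k) {ν : G}
    (hν : (ν : G ⧸ H) ∈ ball (Dif H S) k) : Sw H (I.biUnion V) ν := by
  induction k generalizing I ν with
  | zero =>
    rw [mem_ball_zero, QuotientAddGroup.eq_zero_iff] at hν
    refine ⟨∅, ∅, empty_subset _, empty_subset _, disjoint_empty_left _, rfl, ?_⟩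
    rw [sum_empty, sub_zero, zero_sub]
    exact H.neg_mem hν
  | succ k ih =>
    obtain ⟨y, hy, d, hd, hyd⟩ := mem_ball_succ.1 hν
    obtain ⟨a, ha, c, hc, hac⟩ := mem_Dif.1 hd
    obtain ⟨i, hi⟩ : I.Nonempty := card_pos.1 (by omega)
    have h1 : Sw H (V i) (c - a) := h.sw i (hI i hi) a ha c hc
    have h2 : Sw H ((I.erase i).biUnion V) (ν - (c - a)) := by
      refine ih (fun j hj => hI j (mem_of_mem_erase hj)) ?_ ?_
      · rw [card_erase_of_mem hi, hIk, Nat.add_sub_cancel]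
      · have e : ((ν - (c - a) : G) : G ⧸ H) = y := by
          rw [QuotientAddGroup.mk_sub, hac, ← hyd, add_sub_cancel_right]
        rw [e]
        exact hy
    have hdis : Disjoint (V i) ((I.erase i).biUnion V) := by
      rw [disjoint_biUnion_right]
      intro j hj
      rw [mem_erase] at hj
      exact h.disj i (hI i hi) j (hI j hj.2) hj.1.symm
    have h3 := sw_union hdis h1 h2
    have e1 : V i ∪ (I.erase i).biUnion V = I.biUnion V := by
      rw [← biUnion_insert, insert_erase hi]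
    rw [e1] at h3
    rwa [add_sub_cancel] at h3

/-- `t` disjoint switches with difference `ν` inside the boxes -/
theorem copies {G : Type*} [AddCommGroup G] [DecidableEq G] {H : AddSubgroup G} {X : Finset G}
    {w b : ℕ} {V : ℕ → Finset G} {S : Finset G} (h : Boxes H X w b V S) {k t : ℕ}
    (hkt : t * k ≤ w) {ν : G} (hν : (ν : G ⧸ H) ∈ ball (Dif H S) k) :
    ∃ V' : ℕ → Finset G, (∀ i < t, V' i ⊆ (range w).biUnion V) ∧
      (∀ i < t, ∀ j < t, i ≠ j → Disjoint (V' i) (V' j)) ∧ ∀ i < t, Sw H (V' i) ν := by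
  have hlt : ∀ i < t, ∀ j ∈ Ico (i * k) (i * k + k), j < w := by
    intro i hi j hj
    rw [mem_Ico] at hj
    have h1 : (i + 1) * k ≤ t * k := Nat.mul_le_mul_right k hi
    rw [add_mul, one_mul] at h1
    omega
  refine ⟨fun i => (Ico (i * k) (i * k + k)).biUnion V, fun i hi => ?_, fun i hi j hj hij => ?_,
    fun i hi => ?_⟩
  · refine biUnion_subset_biUnion_of_subset_left V fun j hj => ?_
    rw [mem_range]
    exact hlt i hi j hj
  · show Disjoint ((Ico (i * k) (i * k + k)).biUnion V) ((Ico (j * k) (j * k + k)).biUnion V)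
    rw [disjoint_biUnion_left]
    intro u hu
    rw [disjoint_biUnion_right]
    intro v hv
    refine h.disj u (hlt i hi u hu) v (hlt j hj v hv) ?_
    rintro rfl
    rw [mem_Ico] at hu hv
    rcases Nat.lt_or_gt_of_ne hij with h1 | h1
    · have h2 : (i + 1) * k ≤ j * k := Nat.mul_le_mul_right k h1
      rw [add_mul, one_mul] at h2
      omega
    · have h2 : (j + 1) * k ≤ i * k := Nat.mul_le_mul_right k h1
      rw [add_mul, one_mul] at h2
      omega
  · refine sw_ball h (hlt i hi) ?_ hν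
    rw [Nat.card_Ico, Nat.add_sub_cancel_left]

theorem tf {G : Type*} [AddCommGroup G] [DecidableEq G] {H : AddSubgroup G} {X : Finset G}
    {w b c : ℕ} {V : ℕ → Finset G} {S : Finset G} (h : Boxes H X w b V S) (hc : Closed H X c)
    (hwb : w * b ≤ c) : TF (Dif H S) w := by
  intro k s ν hν hs h1 hks
  obtain ⟨ν, rfl⟩ := QuotientAddGroup.mk_surjective ν
  obtain ⟨t, rfl⟩ : ∃ t, s = t + 1 := ⟨s - 1, by omega⟩
  have htk : t * k ≤ w := by
    have h2 : k * (t + 1) = t * k + k := by ring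
    omega
  obtain ⟨V', hV'1, hV'2, hV'3⟩ := copies h htk hν
  rw [QuotientAddGroup.eq_zero_iff]
  refine hc ν t V' ?_ (fun i hi => ?_) hV'2 hV'3 ?_
  · rw [← QuotientAddGroup.eq_zero_iff, QuotientAddGroup.mk_nsmul]
    exact hs
  · refine (hV'1 i hi).trans (biUnion_subset.2 fun j hj => h.sub j (mem_range.1 hj))
  · rw [← card_biUnion (fun i hi j hj hij => hV'2 i (mem_range.1 hi) j (mem_range.1 hj) hij)]
    calc #((range t).biUnion V') ≤ #((range w).biUnion V) :=
          card_le_card (biUnion_subset.2 fun i hi => hV'1 i (mem_range.1 hi))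
      _ ≤ #(range w) * b := card_biUnion_le_card_mul _ _ _ fun i hi => h.card i (mem_range.1 hi)
      _ = w * b := by rw [card_range]
      _ ≤ c := hwb

end Pool.Agent.Lib.MPa7239a.GC
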