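import Pool.Agent.Lib.MP_a7239a_co.GC.R2

/-!
# Threefold growth in `F_q ^ 2`, in coordinates
-/

open Finset
open scoped Pointwise

namespace Pool.Agent.Lib.MPa7239a.GC

theorem doubling {q : ℕ} [Fact q.Prime] {X : Finset (ZMod q × ZMod q)} (h1 : 100 * q ≤ #X)
    (h2 : 100 * #X ≤ q ^ 2)
    (hline : ∀ l : ZMod q × ZMod q, l ≠ 0 → ∀ z, ∃ c : ZMod q, z + c • l ∉ X + X) :
    3 * #X ≤ #(X + X) := by
  have : NeZero q := ⟨(Fact.out : q.Prime).ne_zero⟩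
  refine three_growth ?_ ?_ X h1 h2 ?_
  · rw [Nat.card_prod, Nat.card_zmod, sq]
  · intro x
    have h : ∀ y : ZMod q, q • y = 0 := fun y => by
      rw [nsmul_eq_mul, ZMod.natCast_self, zero_mul]
    exact Prod.ext (h x.1) (h x.2)
  · intro L hL x
    obtain ⟨l, hl, hl0⟩ := (AddSubgroup.ne_bot_iff_exists_ne_zero).1 hL |>.imp
      (fun (a : L) (ha : a ≠ 0) => (⟨a.2, fun h => ha (Subtype.ext h)⟩ :
        (a : ZMod q × ZMod q) ∈ L ∧ (a : ZMod q × ZMod q) ≠ 0))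
    obtain ⟨c, hc⟩ := hline l hl0 x
    refine ⟨c • (l : ZMod q × ZMod q), ?_, hc⟩
    have h3 : c • (l : ZMod q × ZMod q) = c.val • (l : ZMod q × ZMod q) := by
      conv_lhs => rw [← ZMod.natCast_zmod_val c]
      exact Nat.cast_smul_eq_nsmul (ZMod q) _ _
    rw [h3]
    exact L.nsmul_mem hl _

end Pool.Agent.Lib.MPa7239a.GC
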