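import Pool.Agent.Lib.MP_a7239a_co.GC.Defs

/-!
# Dissociated sets and universal boxes of switches
-/

open Finset

namespace Pool.Agent.Lib.MPa7239a.GC

section DIS
variable {G : Type*} [AddCommGroup G]

/-- subsets of equal size of `W` have different sums modulo `H` -/
def Dis (H : AddSubgroup G) (W : Finset G) : Prop :=
  ∀ U ⊆ W, ∀ U' ⊆ W, #U = #U' → ∑ x ∈ U, x - ∑ x ∈ U', x ∈ H → U = U'

theorem Dis.mono {H : AddSubgroup G} {W W' : Finset G} (h : Dis H W) (hW : W' ⊆ W) : Dis H W' :=
  fun U hU U' hU' => h U (hU.trans hW) U' (hU'.trans hW)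

theorem Dis.card_lt [Fintype G] {H : AddSubgroup G} {W : Finset G}
    (h : Dis H W) {b : ℕ} (hb : (b + 1) * Fintype.card G < 2 ^ b) : #W < b := by
  classical
  by_contra hlt
  push Not at hlt
  obtain ⟨W', hW', hc⟩ := exists_subset_card_eq hlt
  have h' := h.mono hW'
  have hinj : Set.InjOn (fun U : Finset G => (#U, ((∑ x ∈ U, x : G) : G ⧸ H)))
      (W'.powerset : Set (Finset G)) := by
    intro U hU U' hU' he
    rw [mem_coe, mem_powerset] at hU hU'
    have h1 : #U = #U' := (Prod.ext_iff.1 he).1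
    have h2 : ((∑ x ∈ U, x : G) : G ⧸ H) = ((∑ x ∈ U', x : G) : G ⧸ H) := (Prod.ext_iff.1 he).2
    refine h' U hU U' hU' h1 ?_
    rw [QuotientAddGroup.eq] at h2
    have h3 := H.neg_mem h2
    rwa [show -(-∑ x ∈ U, x + ∑ x ∈ U', x) = ∑ x ∈ U, x - ∑ x ∈ U', x by abel] at h3
  have h1 : #W'.powerset ≤ #(range (b + 1) ×ˢ (univ : Finset (G ⧸ H))) := by
    refine card_le_card_of_injOn _ ?_ hinj
    intro U hU
    rw [mem_coe, mem_powerset] at hU
    have := card_le_card hU
    simp only [coe_product, Set.mem_prod, mem_coe, mem_range, mem_univ, and_true]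
    omega
  have h2 : Fintype.card (G ⧸ H) ≤ Fintype.card G :=
    Fintype.card_le_of_surjective _ (QuotientAddGroup.mk_surjective (s := H))
  rw [card_powerset, hc, card_product, card_range, card_univ] at h1
  have h3 := Nat.mul_le_mul_left (b + 1) h2
  omega

/-- a maximal dissociated subset -/
theorem exists_max (H : AddSubgroup G) (X : Finset G) :
    ∃ W ⊆ X, Dis H W ∧ ∀ W' ⊆ X, Dis H W' → #W' ≤ #W := by
  classical
  have hne : (X.powerset.filter (fun W => Dis H W)).Nonempty := by
    refine ⟨∅, ?_⟩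
    rw [mem_filter]
    refine ⟨mem_powerset.2 (empty_subset X), ?_⟩
    intro U hU U' hU' _ _
    rw [subset_empty.1 hU, subset_empty.1 hU']
  obtain ⟨W, hW, hmax⟩ := exists_max_image _ (fun W => #W) hne
  rw [mem_filter, mem_powerset] at hW
  refine ⟨W, hW.1, hW.2, fun W' h1 h2 => hmax W' ?_⟩
  rw [mem_filter, mem_powerset]
  exact ⟨h1, h2⟩

/-- `x` is a signed sum of elements of `W`, modulo `H` -/
theorem rep_of {H : AddSubgroup G} {W : Finset G} {x : G} [DecidableEq G] {U U' : Finset G}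
    (hU : U ⊆ W) (hU' : U' ⊆ insert x W) (hx' : x ∈ U') (hc : #U = #U')
    (hs : ∑ y ∈ U, y - ∑ y ∈ U', y ∈ H) (_ : x ∉ W) :
    ∃ P M : Finset G, P ⊆ W ∧ M ⊆ W ∧ Disjoint P M ∧ #P = #M + 1 ∧
      ∑ y ∈ P, y - ∑ y ∈ M, y - x ∈ H := by
  have hE : U'.erase x ⊆ W := by
    intro y hy
    rw [mem_erase] at hy
    exact (mem_insert.1 (hU' hy.2)).resolve_left hy.1
  have h1 : ∑ y ∈ U', y = x + ∑ y ∈ U'.erase x, y := (add_sum_erase U' (fun y => y) hx').symm
  have h2 : #(U'.erase x) + 1 = #U' := card_erase_add_one hx'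
  set E := U'.erase x
  have h3 : ∑ y ∈ U, y = ∑ y ∈ U \ E, y + ∑ y ∈ U ∩ E, y := by
    rw [add_comm]
    exact (sum_inter_add_sum_sdiff U E (fun y => y)).symm
  have h4 : ∑ y ∈ E, y = ∑ y ∈ E \ U, y + ∑ y ∈ U ∩ E, y := by
    rw [add_comm, inter_comm]
    exact (sum_inter_add_sum_sdiff E U (fun y => y)).symm
  have h5 : #(U \ E) + #(U ∩ E) = #U := card_sdiff_add_card_inter U E
  have h6 : #(E \ U) + #(U ∩ E) = #E := by
    rw [inter_comm]
    exact card_sdiff_add_card_inter E U
  refine ⟨U \ E, E \ U, sdiff_subset.trans hU, sdiff_subset.trans hE, ?_, by omega, ?_⟩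
  · exact disjoint_sdiff_sdiff
  · rw [h1, h3, h4] at hs
    have : ∑ y ∈ U \ E, y - ∑ y ∈ E \ U, y - x =
        ∑ y ∈ U \ E, y + ∑ y ∈ U ∩ E, y - (x + (∑ y ∈ E \ U, y + ∑ y ∈ U ∩ E, y)) := by abel
    rw [this]
    exact hs

theorem rep {H : AddSubgroup G} {X W : Finset G} (hWX : W ⊆ X) (hW : Dis H W)
    (hmax : ∀ W' ⊆ X, Dis H W' → #W' ≤ #W) {x : G} (hx : x ∈ X) (hxW : x ∉ W) :
    ∃ P M : Finset G, P ⊆ W ∧ M ⊆ W ∧ Disjoint P M ∧ #P = #M + 1 ∧
      ∑ y ∈ P, y - ∑ y ∈ M, y - x ∈ H := by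
  classical
  have h1 : ¬ Dis H (insert x W) := by
    intro h
    have := hmax _ (insert_subset hx hWX) h
    rw [card_insert_of_notMem hxW] at this
    omega
  unfold Dis at h1
  push Not at h1
  obtain ⟨U, hU, U', hU', hc, hs, hne⟩ := h1
  have hsub : ∀ T : Finset G, T ⊆ insert x W → x ∉ T → T ⊆ W := by
    intro T hT hxT y hy
    rcases mem_insert.1 (hT hy) with h | h
    · exact absurd (h ▸ hy) hxT
    · exact h
  have hs' : ∑ y ∈ U', y - ∑ y ∈ U, y ∈ H := by
    have := H.neg_mem hs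
    rwa [neg_sub] at this
  by_cases h2 : x ∈ U <;> by_cases h3 : x ∈ U'
  · exfalso
    apply hne
    have h4 : ∑ y ∈ U, y = x + ∑ y ∈ U.erase x, y := (add_sum_erase U (fun y => y) h2).symm
    have h5 : ∑ y ∈ U', y = x + ∑ y ∈ U'.erase x, y := (add_sum_erase U' (fun y => y) h3).symm
    have h6 : U.erase x = U'.erase x := by
      refine hW _ ?_ _ ?_ ?_ ?_
      · exact hsub _ ((erase_subset _ _).trans hU) (notMem_erase x U)
      · exact hsub _ ((erase_subset _ _).trans hU') (notMem_erase x U')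
      · rw [card_erase_of_mem h2, card_erase_of_mem h3, hc]
      · rw [h4, h5] at hs
        have : ∑ y ∈ U.erase x, y - ∑ y ∈ U'.erase x, y =
            x + ∑ y ∈ U.erase x, y - (x + ∑ y ∈ U'.erase x, y) := by abel
        rw [this]
        exact hs
    rw [← insert_erase h2, ← insert_erase h3, h6]
  · exact rep_of (hsub U' hU' h3) hU h2 hc.symm hs' hxW
  · exact rep_of (hsub U hU h2) hU' h3 hc hs hxW
  · exact absurd (hW U (hsub U hU h2) U' (hsub U' hU' h3) hc hs) hne

/-- one box -/
theorem exists_box [Fintype G] (H : AddSubgroup G) (X : Finset G) (b : ℕ)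
    (hb : (b + 1) * Fintype.card G < 2 ^ b) [DecidableEq G] :
    ∃ V ⊆ X, #V ≤ 2 * b ∧ ∀ x ∈ X \ V, ∀ y ∈ X \ V, Sw H V (y - x) := by
  obtain ⟨W, hW, hd, hm⟩ := exists_max H X
  obtain ⟨W', hW', hd', hm'⟩ := exists_max H (X \ W)
  have hdis : Disjoint W W' := by
    refine Disjoint.symm (Finset.disjoint_of_subset_left hW' ?_)
    exact sdiff_disjoint
  refine ⟨W ∪ W', union_subset hW (hW'.trans sdiff_subset), ?_, ?_⟩
  · have h1 := card_union_le W W'
    have h2 := hd.card_lt hb
    have h3 := hd'.card_lt hb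
    omega
  · intro x hx y hy
    simp only [mem_sdiff, mem_union, not_or] at hx hy
    obtain ⟨P, M, hP, hM, hPM, hc, hs⟩ := rep hW hd hm hy.1 hy.2.1
    obtain ⟨P', M', hP', hM', hPM', hc', hs'⟩ :=
      rep hW' hd' hm' (mem_sdiff.2 ⟨hx.1, hx.2.1⟩) hx.2.2
    have hPM1 : Disjoint P M' := Disjoint.mono hP hM' hdis
    have hMP1 : Disjoint M P' := Disjoint.mono hM hP' hdis
    have hPP1 : Disjoint P P' := Disjoint.mono hP hP' hdis
    have hMM1 : Disjoint M M' := Disjoint.mono hM hM' hdis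
    refine ⟨P ∪ M', M ∪ P', ?_, ?_, ?_, ?_, ?_⟩
    · exact union_subset_union hP hM'
    · exact union_subset_union hM hP'
    · rw [disjoint_union_left, disjoint_union_right, disjoint_union_right]
      exact ⟨⟨hPM, hPP1⟩, hMM1.symm, hPM'.symm⟩
    · rw [card_union_of_disjoint hPM1, card_union_of_disjoint hMP1]
      omega
    · rw [sum_union hPM1, sum_union hMP1]
      have := H.sub_mem hs hs'
      have h2 : ∑ z ∈ P, z + ∑ z ∈ M', z - (∑ z ∈ M, z + ∑ z ∈ P', z) - (y - x) =
          ∑ z ∈ P, z - ∑ z ∈ M, z - y - (∑ z ∈ P', z - ∑ z ∈ M', z - x) := by abel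
      rw [h2]
      exact this

end DIS

theorem exists_boxes {G : Type*} [AddCommGroup G] [Fintype G] [DecidableEq G]
    (H : AddSubgroup G) (X : Finset G) (w b : ℕ) (hb : (b + 1) * Fintype.card G < 2 ^ b) :
    ∃ V S, Boxes H X w (2 * b) V S := by
  induction w with
  | zero =>
    refine ⟨fun _ => ∅, X, ?_⟩
    constructor
    · intro i hi; omega
    · intro i hi; omega
    · intro i hi; omega
    · exact Subset.refl X
    · intro i hi; omega
    · omega
    · intro i hi; omega
  | succ w ih =>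
    obtain ⟨V, S, h⟩ := ih
    obtain ⟨V', hV', hc, hsw⟩ := exists_box H S b hb
    refine ⟨fun i => if i = w then V' else V i, S \ V', ?_⟩
    constructor
    · intro i hi
      try dsimp only
      split_ifs with h1
      · exact hV'.trans h.ssub
      · exact h.sub i (by omega)
    · intro i hi j hj hij
      try dsimp only
      split_ifs with h1 h2 h2
      · omega
      · exact (Finset.disjoint_of_subset_right hV' (h.sdisj j (by omega))).symm
      · exact Finset.disjoint_of_subset_right hV' (h.sdisj i (by omega))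
      · exact h.disj i (by omega) j (by omega) hij
    · intro i hi
      try dsimp only
      split_ifs with h1
      · exact hc
      · exact h.card i (by omega)
    · exact sdiff_subset.trans h.ssub
    · intro i hi
      try dsimp only
      split_ifs with h1
      · exact disjoint_sdiff
      · exact Finset.disjoint_of_subset_right sdiff_subset (h.sdisj i (by omega))
    · have h1 := h.loss
      have h2 : #(S \ V') + #V' = #S := card_sdiff_add_card_eq_card hV'
      have h3 : (w + 1) * (2 * b) = w * (2 * b) + 2 * b := by ring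
      omega
    · intro i hi x hx y hy
      try dsimp only
      split_ifs with h1
      · exact hsw x hx y hy
      · exact h.sw i (by omega) x (sdiff_subset hx) y (sdiff_subset hy)

end Pool.Agent.Lib.MPa7239a.GC
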