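import Pool.Agent.Lib.MP_a7239a_co.GC.Defs

/-!
# Two nearly full adjacent rows

Endgame of the proof of the upper bound: two rows `x₀ + H`, `x₀ + e + H` contain almost all the
elements, and only the trivial bounds for the number of subset sums are needed.
-/

open Finset

namespace Pool.Agent.Lib.MPa7239a.GC

section EE
variable {G : Type*} [AddCommGroup G]

open Classical in
/-- the sums of the `c`-element subsets of `B` -/
noncomputable def ssum (B : Finset G) (c : ℕ) : Finset G :=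
  (B.powersetCard c).image (fun T => ∑ x ∈ T, x)

theorem mem_ssum {B : Finset G} {c : ℕ} {y : G} :
    y ∈ ssum B c ↔ ∃ T ⊆ B, #T = c ∧ ∑ x ∈ T, x = y := by
  classical
  rw [ssum, mem_image]
  constructor
  · rintro ⟨T, hT, rfl⟩
    rw [mem_powersetCard] at hT
    exact ⟨T, hT.1, hT.2, rfl⟩
  · rintro ⟨T, h1, h2, rfl⟩
    exact ⟨T, mem_powersetCard.2 ⟨h1, h2⟩, rfl⟩

theorem le_card_ssum {B : Finset G} {c : ℕ} (h : c + 1 ≤ #B) : c + 1 ≤ #(ssum B c) := by
  classical
  obtain ⟨T, hT, hTc⟩ := exists_subset_card_eq h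
  have hsub : T.image (fun b => ∑ x ∈ T, x - b) ⊆ ssum B c := by
    intro y hy
    rw [mem_image] at hy
    obtain ⟨b, hb, rfl⟩ := hy
    refine mem_ssum.2 ⟨T.erase b, (erase_subset _ _).trans hT, ?_, ?_⟩
    · rw [card_erase_of_mem hb, hTc]
      omega
    · rw [← add_sum_erase T (fun x => x) hb]
      abel
  have hinj : #(T.image (fun b => ∑ x ∈ T, x - b)) = #T :=
    card_image_of_injective _ (fun x y hxy => sub_right_injective hxy)
  have := card_le_card hsub
  omega

theorem le_card_ssum' {B : Finset G} {c : ℕ} (h1 : 1 ≤ c) (h : c ≤ #B) :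
    #B + 1 ≤ #(ssum B c) + c := by
  classical
  obtain ⟨T, hT, hTc⟩ := exists_subset_card_eq (show c - 1 ≤ #B by omega)
  have hsub : (B \ T).image (fun b => ∑ x ∈ T, x + b) ⊆ ssum B c := by
    intro y hy
    rw [mem_image] at hy
    obtain ⟨b, hb, rfl⟩ := hy
    rw [mem_sdiff] at hb
    refine mem_ssum.2 ⟨insert b T, insert_subset hb.1 hT, ?_, ?_⟩
    · rw [card_insert_of_notMem hb.2, hTc]
      omega
    · rw [sum_insert hb.2]
      abel
  have hinj : #((B \ T).image (fun b => ∑ x ∈ T, x + b)) = #(B \ T) :=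
    card_image_of_injective _ (fun x y hxy => add_right_injective _ hxy)
  have h2 := card_le_card hsub
  have h3 := card_sdiff_add_card_eq_card hT
  omega

/-- subset sums of elements of `x₀ + H` lie in `c x₀ + H` -/
theorem sum_sub_mem {H : AddSubgroup G} {x₀ : G} {T : Finset G} (h : ∀ x ∈ T, x - x₀ ∈ H) :
    ∑ x ∈ T, x - #T • x₀ ∈ H := by
  have h1 : ∑ x ∈ T, x - #T • x₀ = ∑ x ∈ T, (x - x₀) := by
    rw [sum_sub_distrib, sum_const]
  rw [h1]
  exact sum_mem h

/-- `X + Y` is a full coset if `|X| + |Y| > |H|` -/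
theorem exists_add_eq [Finite G] {H : AddSubgroup G} {X Y : Finset G} {a b t : G}
    (hX : ∀ x ∈ X, x - a ∈ H) (hY : ∀ y ∈ Y, y - b ∈ H) (ht : t - a - b ∈ H)
    (hc : Nat.card H < #X + #Y) : ∃ x ∈ X, ∃ y ∈ Y, x + y = t := by
  classical
  by_contra hcon
  push Not at hcon
  have hHf : (H : Set G).Finite := Set.toFinite _
  set HF : Finset G := hHf.toFinset with hHF
  have hmem : ∀ x, x ∈ HF ↔ x ∈ H := by
    intro x
    rw [hHF, Set.Finite.mem_toFinset, SetLike.mem_coe]
  have hcard : #HF = Nat.card H := by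
    rw [hHF, ← Set.ncard_eq_toFinset_card _ hHf]
    rfl
  have hdisj : Disjoint (X.image (fun x => x - a)) (Y.image (fun y => t - y - a)) := by
    rw [disjoint_left]
    intro z hz1 hz2
    rw [mem_image] at hz1 hz2
    obtain ⟨x, hx, rfl⟩ := hz1
    obtain ⟨y, hy, hxy⟩ := hz2
    apply hcon x hx y hy
    have h1 : t - y = x := sub_left_injective hxy
    rw [← h1]
    abel
  have hsub : X.image (fun x => x - a) ∪ Y.image (fun y => t - y - a) ⊆ HF := by
    intro z hz
    rw [mem_union, mem_image, mem_image] at hz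
    rw [hmem]
    rcases hz with ⟨x, hx, rfl⟩ | ⟨y, hy, rfl⟩
    · exact hX x hx
    · have h1 : t - y - a = (t - a - b) - (y - b) := by abel
      rw [h1]
      exact sub_mem ht (hY y hy)
  have h1 := card_le_card hsub
  rw [card_union_of_disjoint hdisj, hcard,
    card_image_of_injective _ (fun x y hxy => sub_left_injective hxy),
    card_image_of_injective _ (fun x y hxy => by
      have := sub_left_injective hxy
      exact sub_right_injective this)] at h1
  omega

/-- the combination of two rows and a few further elements -/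
theorem hit_of_rows [Finite G] {n : ℕ} (hG : ∀ x : G, n • x = 0) {H : AddSubgroup G} {e x₀ : G}
    (hH : Nat.card H = n) {A B₀ B₁ Y : Finset G} (hB₀ : B₀ ⊆ A) (hB₁ : B₁ ⊆ A) (hY : Y ⊆ A)
    (d01 : Disjoint B₀ B₁) (d0 : Disjoint B₀ Y) (d1 : Disjoint B₁ Y)
    (m₀ : ∀ x ∈ B₀, x - x₀ ∈ H) (m₁ : ∀ x ∈ B₁, x - (x₀ + e) ∈ H) {s c₀ c₁ : ℕ}
    (mY : ∑ x ∈ Y, x - #Y • x₀ - s • e ∈ H) (h1 : c₁ + s = n) (h2 : c₀ + c₁ + #Y = n)
    (hc : n < #(ssum B₀ c₀) + #(ssum B₁ c₁)) : Hit A n 0 := by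
  classical
  have key := exists_add_eq (H := H) (X := ssum B₀ c₀) (Y := ssum B₁ c₁) (a := c₀ • x₀)
    (b := c₁ • (x₀ + e)) (t := -∑ x ∈ Y, x) (by
      intro y hy
      obtain ⟨T, hT, hTc, rfl⟩ := mem_ssum.1 hy
      rw [← hTc]
      exact sum_sub_mem (fun x hx => m₀ x (hT hx))) (by
      intro y hy
      obtain ⟨T, hT, hTc, rfl⟩ := mem_ssum.1 hy
      rw [← hTc]
      exact sum_sub_mem (fun x hx => m₁ x (hT hx))) (by
      have h3 : -∑ x ∈ Y, x - c₀ • x₀ - c₁ • (x₀ + e) =
          -(∑ x ∈ Y, x - #Y • x₀ - s • e) - n • x₀ - n • e := by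
        conv_rhs => rw [← h2, add_smul, add_smul]
        rw [h2, ← h1]
        rw [add_smul, smul_add]
        abel
      rw [h3, hG, hG, sub_zero, sub_zero]
      exact neg_mem mY) (by rw [hH]; exact hc)
  obtain ⟨x, hx, y, hy, hxy⟩ := key
  obtain ⟨T₀, hT₀, hTc₀, rfl⟩ := mem_ssum.1 hx
  obtain ⟨T₁, hT₁, hTc₁, rfl⟩ := mem_ssum.1 hy
  have e01 : Disjoint T₀ T₁ := disjoint_of_subset_left hT₀ (disjoint_of_subset_right hT₁ d01)
  have e2 : Disjoint (T₀ ∪ T₁) Y := by
    rw [disjoint_union_left]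
    exact ⟨disjoint_of_subset_left hT₀ d0, disjoint_of_subset_left hT₁ d1⟩
  refine ⟨T₀ ∪ T₁ ∪ Y, ?_, ?_, ?_⟩
  · exact union_subset (union_subset (hT₀.trans hB₀) (hT₁.trans hB₁)) hY
  · rw [card_union_of_disjoint e2, card_union_of_disjoint e01, hTc₀, hTc₁, h2]
  · rw [sum_union e2, sum_union e01, hxy]
    abel

omit [AddCommGroup G] in
/-- a subset of the exceptional elements with a suitable sum of values -/
theorem exists_prefix (v : G → ℕ) (g : ℕ) (S : Finset G) (hv : ∀ x ∈ S, v x ≤ g)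
    (hs : g + 1 ≤ ∑ x ∈ S, v x) : ∃ Y ⊆ S, g + 1 ≤ ∑ x ∈ Y, v x ∧ ∑ x ∈ Y, v x ≤ 2 * g := by
  classical
  induction S using Finset.induction_on with
  | empty => simp at hs
  | insert a S ha ih =>
    by_cases h : g + 1 ≤ ∑ x ∈ S, v x
    · obtain ⟨Y, hY, h1, h2⟩ := ih (fun x hx => hv x (mem_insert_of_mem hx)) h
      exact ⟨Y, hY.trans (subset_insert _ _), h1, h2⟩
    · refine ⟨insert a S, Subset.rfl, hs, ?_⟩
      rw [sum_insert ha]
      have := hv a (mem_insert_self _ _)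
      omega

/-- the exceptional elements above the two rows -/
theorem upper_exceptional [Finite G] {n : ℕ} (hn : 100 ≤ n) (hG : ∀ x : G, n • x = 0)
    {H : AddSubgroup G} {e x₀ : G} (hH : Nat.card H = n) {A B₀ B₁ S : Finset G} (hB₀ : B₀ ⊆ A)
    (hB₁ : B₁ ⊆ A) (hS : S ⊆ A) (d01 : Disjoint B₀ B₁) (d0 : Disjoint B₀ S)
    (d1 : Disjoint B₁ S) (m₀ : ∀ x ∈ B₀, x - x₀ ∈ H) (m₁ : ∀ x ∈ B₁, x - (x₀ + e) ∈ H)
    (v : G → ℕ) (mS : ∀ x ∈ S, x - x₀ - v x • e ∈ H) (hv2 : ∀ x ∈ S, 2 ≤ v x)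
    {g₀ g₁ : ℕ} (hg₀ : #B₀ + g₀ = n) (hg₁ : #B₁ + g₁ = n) (hE₀ : 100 * g₀ ≤ n)
    (hE₁ : 100 * g₁ ≤ n) (hv : ∀ x ∈ S, v x ≤ g₁) (hs : g₁ + 1 ≤ ∑ x ∈ S, v x) :
    Hit A n 0 := by
  obtain ⟨Y, hY, h1, h2⟩ := exists_prefix v g₁ S hv hs
  set s := ∑ x ∈ Y, v x with hsdef
  have h3 : #Y * 2 ≤ s := by
    rw [hsdef]
    exact card_nsmul_le_sum _ _ _ (fun x hx => hv2 x (hY hx))
  refine hit_of_rows hG hH hB₀ hB₁ (hY.trans hS) d01 (disjoint_of_subset_right hY d0)
    (disjoint_of_subset_right hY d1) m₀ m₁ (s := s) (c₀ := s - #Y) (c₁ := n - s) ?_ (by omega)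
    (by omega) ?_
  · have h4 : ∑ x ∈ Y, x - #Y • x₀ - s • e = ∑ x ∈ Y, (x - x₀ - v x • e) := by
      rw [sum_sub_distrib, sum_sub_distrib, sum_const, hsdef, sum_smul]
    rw [h4]
    exact sum_mem (fun x hx => mS x (hY hx))
  · have h5 := le_card_ssum (B := B₁) (c := n - s) (by omega)
    have h6 := le_card_ssum' (B := B₀) (c := s - #Y) (by omega) (by omega)
    omega

/-- the sum of a full coset of `H` is `0` for odd `n` -/
theorem hit_full_row [Finite G] {n : ℕ} (hG : ∀ x : G, n • x = 0) (hodd : Odd n)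
    {H : AddSubgroup G} {y : G} (hH : Nat.card H = n) {A B : Finset G} (hB : B ⊆ A)
    (m : ∀ x ∈ B, x - y ∈ H) (hc : #B = n) : Hit A n 0 := by
  classical
  refine ⟨B, hB, hc, ?_⟩
  have hHf : (H : Set G).Finite := Set.toFinite _
  set HF : Finset G := hHf.toFinset with hHF
  have hmem : ∀ x, x ∈ HF ↔ x ∈ H := by
    intro x
    rw [hHF, Set.Finite.mem_toFinset, SetLike.mem_coe]
  have hcard : #HF = Nat.card H := by
    rw [hHF, ← Set.ncard_eq_toFinset_card _ hHf]
    rfl
  have himg : B.image (fun x => x - y) = HF := by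
    apply eq_of_subset_of_card_le
    · intro z hz
      rw [mem_image] at hz
      obtain ⟨x, hx, rfl⟩ := hz
      exact (hmem _).2 (m x hx)
    · rw [card_image_of_injective _ (fun a b hab => sub_left_injective hab), hcard, hH, hc]
  have h1 : ∑ x ∈ B, x - #B • y = ∑ h ∈ HF, h := by
    rw [← himg, sum_image (fun a _ b _ hab => sub_left_injective hab), sum_sub_distrib,
      sum_const]
  have h2 : ∑ h ∈ HF, h = -∑ h ∈ HF, h := by
    rw [← sum_neg_distrib]
    refine sum_nbij' (fun x => -x) (fun x => -x) ?_ ?_ ?_ ?_ ?_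
    · intro x hx
      exact (hmem _).2 (neg_mem ((hmem _).1 hx))
    · intro x hx
      exact (hmem _).2 (neg_mem ((hmem _).1 hx))
    · intro x _
      exact neg_neg x
    · intro x _
      exact neg_neg x
    · intro x _
      exact (neg_neg x).symm
  have h3 : (2 : ℕ) • ∑ h ∈ HF, h = 0 := by
    rw [two_smul]
    exact add_eq_zero_iff_eq_neg.2 h2
  obtain ⟨k, hk⟩ := hodd
  have h4 : ∑ h ∈ HF, h = 0 := by
    have h5 := hG (∑ h ∈ HF, h)
    rw [hk, add_smul, one_smul, mul_comm, mul_smul, h3, smul_zero, zero_add] at h5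
    exact h5
  rw [h4, hc, hG, sub_zero] at h1
  exact h1

open Classical in
/-- two nearly full adjacent rows -/
theorem two_rows {G : Type*} [AddCommGroup G] [Fintype G] {n : ℕ} (hn : 100 ≤ n)
    (hG : ∀ x : G, n • x = 0) (H : AddSubgroup G) (e : G) (hH : Nat.card H = n)
    (hord : ∀ a : ℤ, a • e ∈ H ↔ (n : ℤ) ∣ a) (hgen : ∀ x : G, ∃ a : ℤ, x - a • e ∈ H)
    {A : Finset G} (hA : (Odd n ∧ #A + 1 = 2 * n) ∨ #A = 2 * n + 1) (x₀ : G) {E : ℕ}
    (h₀ : n ≤ #(A.filter (fun x => x - x₀ ∈ H)) + E)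
    (h₁ : n ≤ #(A.filter (fun x => x - x₀ - e ∈ H)) + E) (hE : 100 * E ≤ n) :
    Hit A n 0 := by
  have heH : e ∉ H := by
    intro h
    have h1 := (hord 1).1 (by rw [one_smul]; exact h)
    have h2 : (n : ℤ) ≤ 1 := Int.le_of_dvd one_pos h1
    omega
  -- the values
  have hval : ∀ x : G, ∃ v : ℕ, v < n ∧ x - x₀ - v • e ∈ H := by
    intro x
    obtain ⟨a, ha⟩ := hgen (x - x₀)
    have hn0 : (0 : ℤ) < n := by omega
    refine ⟨(a % n).toNat, ?_, ?_⟩
    · have h1 := Int.emod_lt_of_pos a hn0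
      have h2 := Int.emod_nonneg a hn0.ne'
      omega
    · have h1 : ((a % n).toNat : ℤ) = a % n := Int.toNat_of_nonneg (Int.emod_nonneg a hn0.ne')
      rw [← natCast_zsmul e ((a % n).toNat), h1]
      have h2 : a • e = (a % n) • e := by
        conv_lhs => rw [← Int.emod_add_mul_ediv a n, add_smul, mul_comm, mul_smul,
          natCast_zsmul, hG, smul_zero, add_zero]
      rw [← h2]
      exact ha
  choose v hvn hv using hval
  set B₀ := A.filter (fun x => x - x₀ ∈ H) with hB₀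
  set B₁ := A.filter (fun x => x - x₀ - e ∈ H) with hB₁
  have m₀ : ∀ x ∈ B₀, x - x₀ ∈ H := fun x hx => (mem_filter.1 hx).2
  have m₁ : ∀ x ∈ B₁, x - (x₀ + e) ∈ H := by
    intro x hx
    rw [← sub_sub]
    exact (mem_filter.1 hx).2
  have d01 : Disjoint B₀ B₁ := by
    rw [disjoint_left]
    intro x h1 h2
    apply heH
    have h3 := sub_mem (m₀ x h1) (m₁ x h2)
    rwa [show x - x₀ - (x - (x₀ + e)) = e by abel] at h3
  have bound : ∀ (B : Finset G) (y : G), (∀ x ∈ B, x - y ∈ H) → #B ≤ n := by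
    intro B y hB
    have hHf : (H : Set G).Finite := Set.toFinite _
    have hcard : #hHf.toFinset = Nat.card H := by
      rw [← Set.ncard_eq_toFinset_card _ hHf]
      rfl
    rw [← hH, ← hcard, ← card_image_of_injective B (fun a b hab => sub_left_injective hab :
      Function.Injective (fun x => x - y))]
    apply card_le_card
    intro z hz
    rw [mem_image] at hz
    obtain ⟨x, hx, rfl⟩ := hz
    rw [Set.Finite.mem_toFinset, SetLike.mem_coe]
    exact hB x hx
  have s₀ : B₀ ⊆ A := filter_subset _ _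
  have s₁ : B₁ ⊆ A := filter_subset _ _
  have hb₀ := bound B₀ x₀ m₀
  have hb₁ := bound B₁ (x₀ + e) m₁
  obtain ⟨g₀, hg₀⟩ := Nat.exists_eq_add_of_le hb₀
  obtain ⟨g₁, hg₁⟩ := Nat.exists_eq_add_of_le hb₁
  -- full rows
  by_cases hf : Odd n ∧ (g₀ = 0 ∨ g₁ = 0)
  · rcases hf with ⟨hodd, hf | hf⟩
    · exact hit_full_row hG hodd hH s₀ m₀ (by omega)
    · exact hit_full_row hG hodd hH s₁ m₁ (by omega)
  set Ex := A \ (B₀ ∪ B₁) with hEx
  have hExc : #Ex + (#B₀ + #B₁) = #A := by
    rw [← card_union_of_disjoint d01]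
    exact card_sdiff_add_card_eq_card (union_subset s₀ s₁)
  have dEx0 : Disjoint B₀ Ex := by
    rw [disjoint_left]
    intro x h1 h2
    rw [hEx, mem_sdiff, mem_union] at h2
    exact h2.2 (Or.inl h1)
  have dEx1 : Disjoint B₁ Ex := by
    rw [disjoint_left]
    intro x h1 h2
    rw [hEx, mem_sdiff, mem_union] at h2
    exact h2.2 (Or.inr h1)
  have hv2 : ∀ x ∈ Ex, 2 ≤ v x := by
    intro x hx
    rw [hEx, mem_sdiff, mem_union, not_or, hB₀, hB₁, mem_filter, mem_filter, not_and,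
      not_and] at hx
    by_contra hlt
    have h2 : v x = 0 ∨ v x = 1 := by omega
    rcases h2 with h2 | h2
    · have h3 := hv x
      rw [h2, zero_smul, sub_zero] at h3
      exact hx.2.1 hx.1 h3
    · have h3 := hv x
      rw [h2, one_smul] at h3
      exact hx.2.2 hx.1 h3
  -- one exceptional element in the middle range
  by_cases hmid : ∃ x ∈ Ex, g₁ + 1 ≤ v x ∧ v x + g₀ ≤ n
  · obtain ⟨x, hx, h1, h2⟩ := hmid
    have hvx := hvn x
    have hvx2 := hv2 x hx
    refine hit_of_rows hG hH s₀ s₁ (Y := {x})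
      (singleton_subset_iff.2 (sdiff_subset hx)) d01
      (disjoint_of_subset_right (singleton_subset_iff.2 hx) dEx0)
      (disjoint_of_subset_right (singleton_subset_iff.2 hx) dEx1) m₀ m₁ (s := v x)
      (c₀ := v x - 1) (c₁ := n - v x) ?_ (by omega) (by rw [card_singleton]; omega) ?_
    · rw [sum_singleton, card_singleton, one_smul]
      exact hv x
    · have h5 := le_card_ssum (B := B₁) (c := n - v x) (by omega)
      have h6 := le_card_ssum (B := B₀) (c := v x - 1) (by omega)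
      omega
  push Not at hmid
  -- the upper ones
  set Up := Ex.filter (fun x => v x ≤ g₁) with hUp
  set Lo := Ex.filter (fun x => ¬ v x ≤ g₁) with hLo
  have hUL : #Up + #Lo = #Ex := card_filter_add_card_filter_not _
  by_cases hup : g₁ + 1 ≤ ∑ x ∈ Up, v x
  · exact upper_exceptional hn hG hH s₀ s₁
      ((filter_subset _ _).trans sdiff_subset) d01
      (disjoint_of_subset_right (filter_subset _ _) dEx0)
      (disjoint_of_subset_right (filter_subset _ _) dEx1) m₀ m₁ v (fun x _ => hv x)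
      (fun x hx => hv2 x (mem_filter.1 hx).1) hg₀.symm hg₁.symm (by omega) (by omega)
      (fun x hx => (mem_filter.1 hx).2) hup
  -- the lower ones
  by_cases hlo : g₀ + 1 ≤ ∑ x ∈ Lo, (n + 1 - v x)
  · refine upper_exceptional (x₀ := x₀ + e) (e := -e) hn hG hH s₁ s₀
      ((filter_subset _ _).trans sdiff_subset) d01.symm
      (disjoint_of_subset_right (filter_subset _ _) dEx1)
      (disjoint_of_subset_right (filter_subset _ _) dEx0) m₁ (fun x hx => ?_)
      (fun x => n + 1 - v x) (fun x hx => ?_)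
      (fun x hx => ?_) hg₁.symm hg₀.symm (by omega) (by omega)
      (fun x hx => ?_) hlo
    · rw [add_neg_cancel_right]
      exact m₀ x hx
    · have h1 := hv x
      have h2 : (n + 1 - v x) • (-e) = v x • e - e := by
        have h3 : (n + 1 - v x) • e + v x • e = e := by
          rw [← add_smul, Nat.sub_add_cancel (by have := hvn x; omega), add_smul, hG, zero_add,
            one_smul]
        rw [smul_neg]
        calc -((n + 1 - v x) • e) = v x • e - ((n + 1 - v x) • e + v x • e) := by abel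
          _ = v x • e - e := by rw [h3]
      rw [show x - (x₀ + e) - (n + 1 - v x) • (-e) = x - x₀ - e - (n + 1 - v x) • (-e) by abel,
        h2]
      rw [show x - x₀ - e - (v x • e - e) = x - x₀ - v x • e by abel]
      exact h1
    · have := hvn x
      show 2 ≤ n + 1 - v x
      omega
    · have h1 := mem_filter.1 hx
      have h2 := hmid x h1.1 (by omega)
      show n + 1 - v x ≤ g₀
      omega
  -- counting
  exfalso
  have h3 : #Up * 2 ≤ ∑ x ∈ Up, v x :=
    card_nsmul_le_sum _ _ _ (fun x hx => hv2 x (mem_filter.1 hx).1)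
  have h4 : #Lo * 2 ≤ ∑ x ∈ Lo, (n + 1 - v x) :=
    card_nsmul_le_sum _ _ _ (fun x _ => by
      have := hvn x
      show 2 ≤ n + 1 - v x
      omega)
  rcases hA with ⟨hodd, hA⟩ | hA
  · have h5 : g₀ ≠ 0 ∧ g₁ ≠ 0 := by
      constructor
      · intro h
        exact hf ⟨hodd, Or.inl h⟩
      · intro h
        exact hf ⟨hodd, Or.inr h⟩
    omega
  · omega

end EE

end Pool.Agent.Lib.MPa7239a.GC
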