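import Mathlib

/-!
# The Gao-Thangadurai conjecture for almost all `n`: the parameters
-/

namespace Pool.Agent.Lib.MPa7239a.GC

lemma ev_pow (L : ℕ) (hL : 18 ≤ L) : (42 + 6 * L) * (185 + 24 * L) + 1 ≤ 2 ^ (L - 1) := by
  induction L, hL using Nat.le_induction with
  | base => norm_num
  | succ L hL ih =>
    have h1 : 2 ^ (L + 1 - 1) = 2 * 2 ^ (L - 1) := by
      rw [← pow_succ']; congr 1; omega
    rw [h1]
    nlinarith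

/-- the parameters, for `log n ≥ 7000000` (logarithm to base 2) -/
theorem parameters_explicit (n : ℕ) (hn : 7000000 ≤ Nat.log 2 n) : ∃ ℓ w Λ₀ κ : ℕ, n < 2 ^ ℓ ∧
    2 ^ ℓ ≤ 2 * n ∧
    (3 * ℓ + 1) * n ^ 2 < 2 ^ (3 * ℓ) ∧ 36000 * ℓ ^ 3 * w ≤ n ∧ n ≤ Λ₀ * w ∧ 1000 ≤ Λ₀ ∧
    7 * (7 * Λ₀) ^ 2 ≤ 2 ^ κ ∧ (196 * Λ₀ ^ 2) ^ (4 * κ + 13) ≤ n ∧
    12 * Λ₀ ≤ (Nat.log 2 n) ^ 4 := by
  obtain ⟨T, hT⟩ : ∃ T : ℕ, T = 7000000 := ⟨_, rfl⟩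
  have hn0 : n ≠ 0 := by
    rintro rfl
    rw [Nat.log_zero_right] at hn
    omega
  obtain ⟨t, ht⟩ : ∃ t, t = Nat.log 2 n := ⟨_, rfl⟩
  obtain ⟨L, hL⟩ : ∃ L, L = Nat.log 2 (t + 1) + 1 := ⟨_, rfl⟩
  have htT : T ≤ t := by
    rw [ht, hT]; exact hn
  have h1 : n < 2 ^ (t + 1) := by
    rw [ht]; exact Nat.lt_pow_succ_log_self (by norm_num) n
  have h2 : 2 ^ t ≤ n := by
    rw [ht]; exact Nat.pow_log_le_self 2 hn0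
  have hL1 : t + 1 < 2 ^ L := by
    rw [hL]; exact Nat.lt_pow_succ_log_self (by norm_num) _
  have hL2 : 2 ^ (L - 1) ≤ t + 1 := by
    rw [hL, Nat.add_sub_cancel]; exact Nat.pow_log_le_self 2 (by omega)
  have hL3 : 18 ≤ L := by
    have : 17 ≤ Nat.log 2 (t + 1) := Nat.le_log_of_pow_le (by norm_num) (by norm_num; omega)
    omega
  have hL4 := ev_pow L hL3
  have hl3 : (t + 1) ^ 3 ≤ 2 ^ (3 * L) := by
    rw [mul_comm 3 L, pow_mul]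
    exact Nat.pow_le_pow_left hL1.le 3
  have hΛ : 72000 * (t + 1) ^ 3 ≤ 2 ^ (17 + 3 * L) := by
    rw [pow_add]
    exact Nat.mul_le_mul (by norm_num) hl3
  have hbig : (196 * (72000 * (t + 1) ^ 3) ^ 2) ^ (4 * (43 + 6 * L) + 13) ≤ n := by
    have a1 : 196 * (72000 * (t + 1) ^ 3) ^ 2 ≤ 2 ^ (42 + 6 * L) := by
      have a2 : (72000 * (t + 1) ^ 3) ^ 2 ≤ (2 ^ (17 + 3 * L)) ^ 2 := Nat.pow_le_pow_left hΛ 2
      have a3 : 2 ^ (42 + 6 * L) = 2 ^ 8 * (2 ^ (17 + 3 * L)) ^ 2 := by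
        rw [← pow_mul, ← pow_add]; congr 1; ring
      rw [a3]
      exact Nat.mul_le_mul (by norm_num) a2
    calc (196 * (72000 * (t + 1) ^ 3) ^ 2) ^ (4 * (43 + 6 * L) + 13)
        ≤ (2 ^ (42 + 6 * L)) ^ (4 * (43 + 6 * L) + 13) := Nat.pow_le_pow_left a1 _
      _ = 2 ^ ((42 + 6 * L) * (185 + 24 * L)) := by
          rw [← pow_mul]; congr 1; ring
      _ ≤ 2 ^ t := Nat.pow_le_pow_right (by norm_num) (by omega)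
      _ ≤ n := h2
  have hΛn : 72000 * (t + 1) ^ 3 ≤ n := by
    refine le_trans ?_ hbig
    have a1 : 1 ≤ 72000 * (t + 1) ^ 3 := Nat.mul_pos (by norm_num) (by positivity)
    have a2 : 72000 * (t + 1) ^ 3 ≤ 196 * (72000 * (t + 1) ^ 3) ^ 2 := by nlinarith
    exact a2.trans (Nat.le_self_pow (by omega) _)
  have h8 : 3 * (t + 1) + 1 ≤ 2 ^ (t + 1) := by
    have a1 : (t + 1) * 4 ≤ (t + 1) * (t + 1) := Nat.mul_le_mul_left _ (by omega)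
    have a2 : ∀ m : ℕ, 4 ≤ m → m ^ 2 ≤ 2 ^ m := by
      intro m hm
      induction m, hm using Nat.le_induction with
      | base => norm_num
      | succ m hm ih => rw [pow_succ 2 m]; nlinarith
    have a3 := a2 (t + 1) (by omega)
    nlinarith
  refine ⟨t + 1, n / (36000 * (t + 1) ^ 3), 72000 * (t + 1) ^ 3, 43 + 6 * L, h1, ?_, ?_, ?_, ?_,
    ?_, ?_, hbig, ?_⟩
  · rw [pow_succ]; omega
  · have a1 : n ^ 2 < (2 ^ (t + 1)) ^ 2 := Nat.pow_lt_pow_left h1 two_ne_zero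
    have a2 : 2 ^ (3 * (t + 1)) = 2 ^ (t + 1) * (2 ^ (t + 1)) ^ 2 := by
      rw [← pow_mul, ← pow_add]; congr 1; ring
    rw [a2]
    calc (3 * (t + 1) + 1) * n ^ 2 < (3 * (t + 1) + 1) * (2 ^ (t + 1)) ^ 2 :=
          Nat.mul_lt_mul_of_pos_left a1 (by omega)
      _ ≤ 2 ^ (t + 1) * (2 ^ (t + 1)) ^ 2 := Nat.mul_le_mul_right _ h8
  · exact Nat.mul_div_le _ _
  · have a1 := Nat.div_add_mod n (36000 * (t + 1) ^ 3)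
    have a2 := Nat.mod_lt n (by positivity : 0 < 36000 * (t + 1) ^ 3)
    have a3 : 72000 * (t + 1) ^ 3 * (n / (36000 * (t + 1) ^ 3)) =
        2 * (36000 * (t + 1) ^ 3 * (n / (36000 * (t + 1) ^ 3))) := by ring
    omega
  · have : 1 ≤ (t + 1) ^ 3 := Nat.one_le_pow _ _ (by omega)
    omega
  · have a2 : (72000 * (t + 1) ^ 3) ^ 2 ≤ (2 ^ (17 + 3 * L)) ^ 2 := Nat.pow_le_pow_left hΛ 2
    have a3 : 2 ^ (43 + 6 * L) = 2 ^ 9 * (2 ^ (17 + 3 * L)) ^ 2 := by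
      rw [← pow_mul, ← pow_add]; congr 1; ring
    rw [a3, mul_pow]
    calc 7 * (7 ^ 2 * (72000 * (t + 1) ^ 3) ^ 2) = 343 * (72000 * (t + 1) ^ 3) ^ 2 := by ring
      _ ≤ 2 ^ 9 * (2 ^ (17 + 3 * L)) ^ 2 := Nat.mul_le_mul (by norm_num) a2
  · rw [← ht]
    have a1 : (t + 1) ^ 3 ≤ 2 * t ^ 3 := by
      have : 4 ≤ t := by omega
      nlinarith [sq_nonneg (t : ℤ), pow_pos (by omega : 0 < t) 2]
    calc 12 * (72000 * (t + 1) ^ 3) = 864000 * (t + 1) ^ 3 := by ring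
      _ ≤ 864000 * (2 * t ^ 3) := Nat.mul_le_mul_left _ a1
      _ = 1728000 * t ^ 3 := by ring
      _ ≤ t * t ^ 3 := Nat.mul_le_mul_right _ (by omega)
      _ = t ^ 4 := by ring

/-- the parameters, for large `n` -/
theorem parameters : ∃ n₀ : ℕ, ∀ n ≥ n₀, ∃ ℓ w Λ₀ κ : ℕ, n < 2 ^ ℓ ∧ 2 ^ ℓ ≤ 2 * n ∧
    (3 * ℓ + 1) * n ^ 2 < 2 ^ (3 * ℓ) ∧ 36000 * ℓ ^ 3 * w ≤ n ∧ n ≤ Λ₀ * w ∧ 1000 ≤ Λ₀ ∧
    7 * (7 * Λ₀) ^ 2 ≤ 2 ^ κ ∧ (196 * Λ₀ ^ 2) ^ (4 * κ + 13) ≤ n ∧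
    12 * Λ₀ ≤ (Nat.log 2 n) ^ 4 := by
  obtain ⟨T, hT⟩ : ∃ T : ℕ, T = 7000000 := ⟨_, rfl⟩
  refine ⟨2 ^ T, fun n hn => parameters_explicit n ?_⟩
  rw [← hT]
  exact Nat.le_log_of_pow_le (by norm_num) hn

end Pool.Agent.Lib.MPa7239a.GC
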