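import Mathlib

/-!
# The Gao-Thangadurai conjecture for large `n = m q`: the parameters
-/

namespace Pool.Agent.Lib.MPa7239a.GC

lemma ev2_pow (L : ℕ) (hL : 21 ≤ L) : (48 + 16 * L) * (209 + 64 * L) + 1 ≤ 2 ^ (L - 1) := by
  induction L, hL using Nat.le_induction with
  | base => norm_num
  | succ L hL ih =>
    have h1 : 2 ^ (L + 1 - 1) = 2 * 2 ^ (L - 1) := by
      rw [← pow_succ']; congr 1; omega
    rw [h1]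
    nlinarith

/-- the parameters for `n = m q`, `m` small, `log n ≥ 7000000` (logarithm to base 2) -/
theorem parameters2_explicit (n : ℕ) (hn : 7000000 ≤ Nat.log 2 n) (m q : ℕ) (hmq : n = m * q)
    (hm : m < (Nat.log 2 n) ^ 4) :
    ∃ ℓ w Λ₀ Λ κ : ℕ, n < 2 ^ ℓ ∧ 2 ^ ℓ ≤ 2 * n ∧
    (3 * ℓ + 1) * n ^ 2 < 2 ^ (3 * ℓ) ∧ 36000 * ℓ ^ 3 * w ≤ n ∧ n ≤ Λ₀ * w ∧ 1000 ≤ Λ₀ ∧
    Λ₀ ≤ Λ ∧ 84 * ℓ * m * Λ₀ ≤ Λ ∧ 7 * Λ ^ 2 ≤ 2 ^ κ ∧ (4 * Λ ^ 2) ^ (4 * κ + 13) ≤ n ∧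
    14 * ℓ * (2 * (4 * Λ ^ 2) ^ (κ + 1)) ≤ w ∧
    (14 * ℓ * 301 * 600 * m ^ 3) ^ 3 * (27 * q ^ 2) ≤ w ^ 3 := by
  obtain ⟨T, hT⟩ : ∃ T : ℕ, T = 7000000 := ⟨_, rfl⟩
  have hn0 : n ≠ 0 := by
    rintro rfl
    rw [Nat.log_zero_right] at hn
    omega
  obtain ⟨t, ht⟩ : ∃ t, t = Nat.log 2 n := ⟨_, rfl⟩
  obtain ⟨L, hL⟩ : ∃ L, L = Nat.log 2 (t + 1) + 1 := ⟨_, rfl⟩
  have htT : T ≤ t := by
    rw [ht, hT]; exact hn
  have h1 : n < 2 ^ (t + 1) := by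
    rw [ht]; exact Nat.lt_pow_succ_log_self (by norm_num) n
  have h2 : 2 ^ t ≤ n := by
    rw [ht]; exact Nat.pow_log_le_self 2 hn0
  have hL1 : t + 1 < 2 ^ L := by
    rw [hL]; exact Nat.lt_pow_succ_log_self (by norm_num) _
  have hL2 : 2 ^ (L - 1) ≤ t + 1 := by
    rw [hL, Nat.add_sub_cancel]; exact Nat.pow_log_le_self 2 (by omega)
  have hL3 : 21 ≤ L := by
    have : 20 ≤ Nat.log 2 (t + 1) := Nat.le_log_of_pow_le (by norm_num) (by norm_num; omega)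
    omega
  have hL4 := ev2_pow L hL3
  rw [← ht] at hm
  obtain ⟨s, hs⟩ : ∃ s, s = t + 1 := ⟨_, rfl⟩
  have hs1 : 1 ≤ s := by omega
  have hms : m ≤ s ^ 4 := by
    refine hm.le.trans (Nat.pow_le_pow_left (by omega) 4)
  rw [← hs] at hL1 hL2 h1
  -- the linear constant
  obtain ⟨Λ, hΛ⟩ : ∃ Λ : ℕ, Λ = 6048000 * s ^ 8 := ⟨_, rfl⟩
  have hs8 : s ^ 8 ≤ 2 ^ (8 * L) := by
    rw [mul_comm 8 L, pow_mul]
    exact Nat.pow_le_pow_left hL1.le 8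
  have hΛ2 : Λ ≤ 2 ^ (23 + 8 * L) := by
    rw [hΛ, pow_add]
    exact Nat.mul_le_mul (by norm_num) hs8
  have hΛsq : Λ ^ 2 ≤ 2 ^ (46 + 16 * L) := by
    calc Λ ^ 2 ≤ (2 ^ (23 + 8 * L)) ^ 2 := Nat.pow_le_pow_left hΛ2 2
      _ = 2 ^ (46 + 16 * L) := by rw [← pow_mul]; congr 1; ring
  have hκ : 7 * Λ ^ 2 ≤ 2 ^ (49 + 16 * L) := by
    have : 2 ^ (49 + 16 * L) = 2 ^ 3 * 2 ^ (46 + 16 * L) := by
      rw [← pow_add]; congr 1; ring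
    rw [this]
    exact Nat.mul_le_mul (by norm_num) hΛsq
  have hB : 4 * Λ ^ 2 ≤ 2 ^ (48 + 16 * L) := by
    have : 2 ^ (48 + 16 * L) = 2 ^ 2 * 2 ^ (46 + 16 * L) := by
      rw [← pow_add]; congr 1; ring
    rw [this]
    exact Nat.mul_le_mul (by norm_num) hΛsq
  have hbig : (4 * Λ ^ 2) ^ (4 * (49 + 16 * L) + 13) ≤ n := by
    calc (4 * Λ ^ 2) ^ (4 * (49 + 16 * L) + 13)
        ≤ (2 ^ (48 + 16 * L)) ^ (4 * (49 + 16 * L) + 13) := Nat.pow_le_pow_left hB _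
      _ = 2 ^ ((48 + 16 * L) * (209 + 64 * L)) := by
          rw [← pow_mul]; congr 1; ring
      _ ≤ 2 ^ t := Nat.pow_le_pow_right (by norm_num) (by omega)
      _ ≤ n := h2
  have hs8' : 1 ≤ s ^ 8 := Nat.one_le_pow _ _ (by omega)
  have hΛpos : 1 ≤ Λ := by omega
  have hBpos : 1 ≤ 4 * Λ ^ 2 := by
    have : 1 ≤ Λ ^ 2 := Nat.one_le_pow _ _ hΛpos
    omega
  have hΛlow : ∀ j, j ≤ 16 → s ^ j * 146000000000000 ≤ 4 * Λ ^ 2 := by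
    intro j hj
    have a1 : s ^ j ≤ s ^ 16 := Nat.pow_le_pow_right hs1 hj
    have a2 : 4 * Λ ^ 2 = 146313216000000 * s ^ 16 := by rw [hΛ]; ring
    rw [a2]
    nlinarith
  have h8 : 3 * s + 1 ≤ 2 ^ s := by
    have a1 : s * 4 ≤ s * s := Nat.mul_le_mul_left _ (by omega)
    have a2 : ∀ m : ℕ, 4 ≤ m → m ^ 2 ≤ 2 ^ m := by
      intro m hm
      induction m, hm using Nat.le_induction with
      | base => norm_num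
      | succ m hm ih => rw [pow_succ 2 m]; nlinarith
    have a3 := a2 s (by omega)
    nlinarith
  have hw1 : n ≤ 72000 * s ^ 3 * (n / (36000 * s ^ 3)) := by
    have hs3 : 0 < 36000 * s ^ 3 := by positivity
    have hΛn : 72000 * s ^ 3 ≤ n := by
      refine le_trans ?_ hbig
      have a1 := hΛlow 3 (by norm_num)
      calc 72000 * s ^ 3 ≤ 4 * Λ ^ 2 := by omega
        _ ≤ (4 * Λ ^ 2) ^ (4 * (49 + 16 * L) + 13) := Nat.le_self_pow (by omega) _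
    have a1 := Nat.div_add_mod n (36000 * s ^ 3)
    have a2 := Nat.mod_lt n hs3
    have a3 : 72000 * s ^ 3 * (n / (36000 * s ^ 3)) =
        2 * (36000 * s ^ 3 * (n / (36000 * s ^ 3))) := by ring
    omega
  refine ⟨s, n / (36000 * s ^ 3), 72000 * s ^ 3, Λ, 49 + 16 * L, h1, ?_, ?_, ?_, hw1,
    ?_, ?_, ?_, hκ, hbig, ?_, ?_⟩
  · rw [hs, pow_succ]; omega
  · have a1 : n ^ 2 < (2 ^ s) ^ 2 := Nat.pow_lt_pow_left h1 two_ne_zero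
    have a2 : 2 ^ (3 * s) = 2 ^ s * (2 ^ s) ^ 2 := by
      rw [← pow_mul, ← pow_add]; congr 1; ring
    rw [a2]
    calc (3 * s + 1) * n ^ 2 < (3 * s + 1) * (2 ^ s) ^ 2 :=
          Nat.mul_lt_mul_of_pos_left a1 (by omega)
      _ ≤ 2 ^ s * (2 ^ s) ^ 2 := Nat.mul_le_mul_right _ h8
  · exact Nat.mul_div_le _ _
  · have : 1 ≤ s ^ 3 := Nat.one_le_pow _ _ (by omega)
    omega
  · rw [hΛ]
    have : s ^ 3 ≤ s ^ 8 := Nat.pow_le_pow_right hs1 (by norm_num)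
    omega
  · calc 84 * s * m * (72000 * s ^ 3) ≤ 84 * s * s ^ 4 * (72000 * s ^ 3) :=
          Nat.mul_le_mul_right _ (Nat.mul_le_mul_left _ hms)
      _ = Λ := by rw [hΛ]; ring
  · rw [Nat.le_div_iff_mul_le (by positivity)]
    have a1 := hΛlow 4 (by norm_num)
    calc 14 * s * (2 * (4 * Λ ^ 2) ^ (49 + 16 * L + 1)) * (36000 * s ^ 3)
        = (4 * Λ ^ 2) ^ (49 + 16 * L + 1) * (1008000 * s ^ 4) := by ring
      _ ≤ (4 * Λ ^ 2) ^ (49 + 16 * L + 1) * (4 * Λ ^ 2) :=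
          Nat.mul_le_mul_left _ (by omega)
      _ = (4 * Λ ^ 2) ^ (49 + 16 * L + 2) := by rw [← pow_succ]
      _ ≤ (4 * Λ ^ 2) ^ (4 * (49 + 16 * L) + 13) := Nat.pow_le_pow_right hBpos (by omega)
      _ ≤ n := hbig
  · have hm1 : 1 ≤ m := by
      rcases Nat.eq_zero_or_pos m with h | h
      · rw [h, zero_mul] at hmq; exact absurd hmq hn0
      · exact h
    have hqn : q ≤ n := by rw [hmq]; exact Nat.le_mul_of_pos_left q hm1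
    have hL0 : 0 < (72000 * s ^ 3) ^ 3 := by positivity
    have a1 : (14 * s * 301 * 600 * m ^ 3) ^ 3 * 27 * (72000 * s ^ 3) ^ 3 ≤ n := by
      have b1 : m ^ 3 ≤ (s ^ 4) ^ 3 := Nat.pow_le_pow_left hms 3
      have b2 : 14 * s * 301 * 600 * m ^ 3 * 3 * (72000 * s ^ 3) ≤ 4 * Λ ^ 2 := by
        have b3 := hΛlow 16 le_rfl
        calc 14 * s * 301 * 600 * m ^ 3 * 3 * (72000 * s ^ 3)
            ≤ 14 * s * 301 * 600 * (s ^ 4) ^ 3 * 3 * (72000 * s ^ 3) := by gcongr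
          _ = s ^ 16 * 546134400000 := by ring
          _ ≤ s ^ 16 * 146000000000000 := Nat.mul_le_mul_left _ (by norm_num)
          _ ≤ 4 * Λ ^ 2 := b3
      calc (14 * s * 301 * 600 * m ^ 3) ^ 3 * 27 * (72000 * s ^ 3) ^ 3
          = (14 * s * 301 * 600 * m ^ 3 * 3 * (72000 * s ^ 3)) ^ 3 := by ring
        _ ≤ (4 * Λ ^ 2) ^ 3 := Nat.pow_le_pow_left b2 3
        _ ≤ (4 * Λ ^ 2) ^ (4 * (49 + 16 * L) + 13) := Nat.pow_le_pow_right hBpos (by omega)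
        _ ≤ n := hbig
    have a2 : (14 * s * 301 * 600 * m ^ 3) ^ 3 * (27 * q ^ 2) * (72000 * s ^ 3) ^ 3 ≤
        (n / (36000 * s ^ 3)) ^ 3 * (72000 * s ^ 3) ^ 3 := by
      calc (14 * s * 301 * 600 * m ^ 3) ^ 3 * (27 * q ^ 2) * (72000 * s ^ 3) ^ 3
          = (14 * s * 301 * 600 * m ^ 3) ^ 3 * 27 * (72000 * s ^ 3) ^ 3 * q ^ 2 := by ring
        _ ≤ n * n ^ 2 := Nat.mul_le_mul a1 (Nat.pow_le_pow_left hqn 2)
        _ = n ^ 3 := by ring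
        _ ≤ (72000 * s ^ 3 * (n / (36000 * s ^ 3))) ^ 3 := Nat.pow_le_pow_left hw1 3
        _ = (n / (36000 * s ^ 3)) ^ 3 * (72000 * s ^ 3) ^ 3 := by rw [mul_pow, mul_comm]
    exact Nat.le_of_mul_le_mul_right a2 hL0

/-- the parameters for `n = m q`, `m` small, `n` large -/
theorem parameters2 : ∃ n₀ : ℕ, ∀ n ≥ n₀, ∀ m q : ℕ, n = m * q → m < (Nat.log 2 n) ^ 4 →
    ∃ ℓ w Λ₀ Λ κ : ℕ, n < 2 ^ ℓ ∧ 2 ^ ℓ ≤ 2 * n ∧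
    (3 * ℓ + 1) * n ^ 2 < 2 ^ (3 * ℓ) ∧ 36000 * ℓ ^ 3 * w ≤ n ∧ n ≤ Λ₀ * w ∧ 1000 ≤ Λ₀ ∧
    Λ₀ ≤ Λ ∧ 84 * ℓ * m * Λ₀ ≤ Λ ∧ 7 * Λ ^ 2 ≤ 2 ^ κ ∧ (4 * Λ ^ 2) ^ (4 * κ + 13) ≤ n ∧
    14 * ℓ * (2 * (4 * Λ ^ 2) ^ (κ + 1)) ≤ w ∧
    (14 * ℓ * 301 * 600 * m ^ 3) ^ 3 * (27 * q ^ 2) ≤ w ^ 3 := by
  obtain ⟨T, hT⟩ : ∃ T : ℕ, T = 7000000 := ⟨_, rfl⟩
  refine ⟨2 ^ T, fun n hn m q hmq hm => parameters2_explicit n ?_ m q hmq hm⟩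
  rw [← hT]
  exact Nat.le_log_of_pow_le (by norm_num) hn

end Pool.Agent.Lib.MPa7239a.GC
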