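import Pool.Agent.Lib.MP_a7239a_co.GC.Defs

/-!
# A subgroup inside a ball is filled by the boxes
-/

open Finset
open scoped Pointwise

namespace Pool.Agent.Lib.MPa7239a.GC

variable {G : Type*} [AddCommGroup G] [DecidableEq G]

open Classical in
/-- the sums modulo `H` of the middle layer of `W` -/
noncomputable def mid (H : AddSubgroup G) (W : Finset G) : Finset (G ⧸ H) :=
  (W.powersetCard (#W / 2)).image (fun T => ((∑ x ∈ T, x : G) : G ⧸ H))

omit [DecidableEq G] in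
theorem mem_mid {H : AddSubgroup G} {W : Finset G} {z : G ⧸ H} :
    z ∈ mid H W ↔ ∃ T ⊆ W, #T = #W / 2 ∧ ((∑ x ∈ T, x : G) : G ⧸ H) = z := by
  classical
  rw [mid, mem_image]
  constructor
  · rintro ⟨T, hT, rfl⟩
    rw [mem_powersetCard] at hT
    exact ⟨T, hT.1, hT.2, rfl⟩
  · rintro ⟨T, hT, hTc, rfl⟩
    exact ⟨T, mem_powersetCard.2 ⟨hT, hTc⟩, rfl⟩

/-- a switch is a difference of two elements of the middle layer -/
theorem mid_sub {H : AddSubgroup G} {W : Finset G} {δ : G} (h : Sw H W δ) :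
    ∃ e ∈ mid H W, ∃ e' ∈ mid H W, e - e' = (δ : G ⧸ H) := by
  obtain ⟨P, M, hP, hM, hd, hc, hs⟩ := h
  have h1 : #(W \ (P ∪ M)) + (#P + #M) = #W := by
    rw [← card_union_of_disjoint hd]
    exact card_sdiff_add_card_eq_card (union_subset hP hM)
  obtain ⟨C, hC, hCc⟩ := exists_subset_card_eq (s := W \ (P ∪ M)) (n := #W / 2 - #P) (by omega)
  have hCW : C ⊆ W := hC.trans sdiff_subset
  have hPC : Disjoint P C := by
    rw [Finset.disjoint_left]
    intro x hx hx'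
    exact (mem_sdiff.1 (hC hx')).2 (mem_union_left _ hx)
  have hMC : Disjoint M C := by
    rw [Finset.disjoint_left]
    intro x hx hx'
    exact (mem_sdiff.1 (hC hx')).2 (mem_union_right _ hx)
  refine ⟨((∑ x ∈ P ∪ C, x : G) : G ⧸ H), mem_mid.2 ⟨P ∪ C, union_subset hP hCW, ?_, rfl⟩,
    ((∑ x ∈ M ∪ C, x : G) : G ⧸ H), mem_mid.2 ⟨M ∪ C, union_subset hM hCW, ?_, rfl⟩, ?_⟩
  · rw [card_union_of_disjoint hPC]
    omega
  · rw [card_union_of_disjoint hMC]
    omega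
  · rw [← QuotientAddGroup.mk_sub, sum_union hPC, sum_union hMC]
    rw [QuotientAddGroup.eq]
    have h2 := H.neg_mem hs
    convert h2 using 1
    abel

open Classical in
/-- the sums of the middle layers of `n` boxes -/
noncomputable def zs (H : AddSubgroup G) (V : ℕ → Finset G) (a : ℕ) : ℕ → Finset (G ⧸ H)
  | 0 => {0}
  | n + 1 => zs H V a n + mid H (V (a + n))

omit [DecidableEq G] in
theorem mem_zs_succ {H : AddSubgroup G} {V : ℕ → Finset G} {a n : ℕ} {z : G ⧸ H} :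
    z ∈ zs H V a (n + 1) ↔ ∃ x ∈ zs H V a n, ∃ y ∈ mid H (V (a + n)), x + y = z := by
  classical
  rw [zs, Finset.mem_add]

omit [DecidableEq G] in
theorem zs_add {H : AddSubgroup G} {V : ℕ → Finset G} {a n k : ℕ} {z : G ⧸ H} :
    z ∈ zs H V a (n + k) ↔ ∃ x ∈ zs H V a n, ∃ y ∈ zs H V (a + n) k, x + y = z := by
  induction k generalizing z with
  | zero =>
    constructor
    · intro hz
      exact ⟨z, hz, 0, by rw [zs, mem_singleton], add_zero z⟩
    · rintro ⟨x, hx, y, hy, rfl⟩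
      rw [zs, mem_singleton] at hy
      rw [hy, add_zero x]
      exact hx
  | succ k ih =>
    rw [← add_assoc, mem_zs_succ]
    constructor
    · rintro ⟨u, hu, v, hv, rfl⟩
      obtain ⟨x, hx, y, hy, rfl⟩ := ih.1 hu
      refine ⟨x, hx, y + v, mem_zs_succ.2 ⟨y, hy, v, ?_, rfl⟩, by abel⟩
      rwa [← add_assoc] at hv
    · rintro ⟨x, hx, y, hy, rfl⟩
      obtain ⟨y', hy', v, hv, rfl⟩ := mem_zs_succ.1 hy
      refine ⟨x + y', ih.2 ⟨x, hx, y', hy', rfl⟩, v, ?_, by abel⟩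
      rwa [← add_assoc]

omit [DecidableEq G] in
theorem zs_nonempty {H : AddSubgroup G} {V : ℕ → Finset G} {a n : ℕ} : (zs H V a n).Nonempty := by
  induction n with
  | zero => exact ⟨0, by rw [zs, mem_singleton]⟩
  | succ n ih =>
    obtain ⟨x, hx⟩ := ih
    obtain ⟨T, hT, hTc⟩ := exists_subset_card_eq (Nat.div_le_self #(V (a + n)) 2)
    exact ⟨x + ((∑ x ∈ T, x : G) : G ⧸ H), mem_zs_succ.2 ⟨x, hx, _,
      mem_mid.2 ⟨T, hT, hTc, rfl⟩, rfl⟩⟩

/-- the elements of `zs` are sums of subsets of the boxes of a fixed cardinality -/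
theorem zs_real {H : AddSubgroup G} {V : ℕ → Finset G} {w a n : ℕ}
    (hd : ∀ i < w, ∀ j < w, i ≠ j → Disjoint (V i) (V j)) (hw : a + n ≤ w) {z : G ⧸ H}
    (hz : z ∈ zs H V a n) : ∃ T ⊆ (Ico a (a + n)).biUnion V,
      #T = ∑ i ∈ Ico a (a + n), #(V i) / 2 ∧ ((∑ x ∈ T, x : G) : G ⧸ H) = z := by
  induction n generalizing z with
  | zero =>
    rw [zs, mem_singleton] at hz
    exact ⟨∅, empty_subset _, by simp, by rw [hz]; simp⟩
  | succ n ih =>
    obtain ⟨x, hx, y, hy, rfl⟩ := mem_zs_succ.1 hz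
    obtain ⟨T, hT, hTc, hTs⟩ := ih (by omega) hx
    obtain ⟨T', hT', hTc', hTs'⟩ := mem_mid.1 hy
    have hdis : Disjoint T T' := by
      rw [Finset.disjoint_left]
      intro u hu hu'
      obtain ⟨i, hi, hui⟩ := mem_biUnion.1 (hT hu)
      rw [mem_Ico] at hi
      exact Finset.disjoint_left.1 (hd i (by omega) (a + n) (by omega) (by omega)) hui (hT' hu')
    have hI : Ico a (a + (n + 1)) = insert (a + n) (Ico a (a + n)) := by
      ext i
      simp only [mem_insert, mem_Ico]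
      omega
    have hnot : a + n ∉ Ico a (a + n) := by simp
    refine ⟨T ∪ T', ?_, ?_, ?_⟩
    · rw [hI, biUnion_insert]
      exact union_subset (hT.trans subset_union_right) (hT'.trans subset_union_left)
    · rw [card_union_of_disjoint hdis, hTc, hTc', hI, sum_insert hnot]
      omega
    · rw [sum_union hdis, QuotientAddGroup.mk_add, hTs, hTs']

/-- the ball consists of differences of sums of `k` boxes -/
theorem ball_zs {H : AddSubgroup G} {X : Finset G} {w b : ℕ} {V : ℕ → Finset G} {S : Finset G}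
    (hbox : Boxes H X w b V S) {a k : ℕ} (hw : a + k ≤ w) {x : G ⧸ H}
    (hx : x ∈ ball (Dif H S) k) : ∃ e ∈ zs H V a k, ∃ e' ∈ zs H V a k, e - e' = x := by
  induction k generalizing x with
  | zero =>
    rw [mem_ball_zero] at hx
    exact ⟨0, by rw [zs, mem_singleton], 0, by rw [zs, mem_singleton], by rw [hx, sub_zero]⟩
  | succ k ih =>
    obtain ⟨y, hy, d, hd, rfl⟩ := mem_ball_succ.1 hx
    obtain ⟨e, he, e', he', rfl⟩ := ih (by omega) hy
    obtain ⟨s, hs, t, ht, rfl⟩ := mem_Dif.1 hd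
    obtain ⟨f, hf, f', hf', hff⟩ := mid_sub (hbox.sw (a + k) (by omega) s hs t ht)
    exact ⟨e + f, mem_zs_succ.2 ⟨e, he, f, hf, rfl⟩, e' + f', mem_zs_succ.2 ⟨e', he', f', hf', rfl⟩,
      by rw [← hff]; abel⟩

/-- some step is small -/
theorem exists_small {Q : Type*} [Finite Q] {X : ℕ → Finset Q} (h0 : (X 0).Nonempty) {ℓ : ℕ}
    (hℓ : 1 ≤ ℓ) (hQ : Nat.card Q ≤ 4 ^ ℓ) : ∃ j < 7 * ℓ, 4 * #(X (j + 1)) ≤ 5 * #(X j) := by
  by_contra hcon
  push Not at hcon
  have h1 : ∀ j ≤ 7 * ℓ, 5 ^ j ≤ 4 ^ j * #(X j) := by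
    intro j
    induction j with
    | zero =>
      intro _
      have := card_pos.2 h0
      omega
    | succ j ih =>
      intro hj
      have h2 := ih (by omega)
      have h3 := hcon j (by omega)
      calc 5 ^ (j + 1) = 5 * 5 ^ j := by ring
        _ ≤ 5 * (4 ^ j * #(X j)) := Nat.mul_le_mul_left 5 h2
        _ = 4 ^ j * (5 * #(X j)) := by ring
        _ ≤ 4 ^ j * (4 * #(X (j + 1))) := Nat.mul_le_mul_left _ h3.le
        _ = 4 ^ (j + 1) * #(X (j + 1)) := by ring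
  have h2 := h1 (7 * ℓ) le_rfl
  have h3 : #(X (7 * ℓ)) ≤ 4 ^ ℓ := by
    have : Fintype Q := Fintype.ofFinite Q
    rw [Nat.card_eq_fintype_card] at hQ
    exact (card_le_univ _).trans hQ
  have h4 : 5 ^ (7 * ℓ) ≤ 4 ^ (8 * ℓ) := by
    calc 5 ^ (7 * ℓ) ≤ 4 ^ (7 * ℓ) * #(X (7 * ℓ)) := h2
      _ ≤ 4 ^ (7 * ℓ) * 4 ^ ℓ := Nat.mul_le_mul_left _ h3
      _ = 4 ^ (8 * ℓ) := by rw [← pow_add]; congr 1; ring
  rw [pow_mul, pow_mul] at h4
  have h5 : (4 ^ 8) ^ ℓ < (5 ^ 7) ^ ℓ := Nat.pow_lt_pow_left (by norm_num) (by omega)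
  omega

/-- a section of more than half of a subgroup -/
theorem section_of {Q : Type*} [AddCommGroup Q] [DecidableEq Q] {X E K : Finset Q}
    (hX : X.Nonempty)
    (hXE : 4 * #(X + E) ≤ 5 * #X) (hK : ∀ ν ∈ K, ∃ e ∈ E, ∃ e' ∈ E, e - e' = ν) :
    ∃ x ∈ X, 3 * #K ≤ 4 * #(K.filter (fun ν => x + ν ∈ X)) := by
  have h1 : ∀ ν ∈ K, 3 * #X ≤ 4 * #(X.filter (fun x => x + ν ∈ X)) := by
    intro ν hν
    obtain ⟨e, he, e', he', rfl⟩ := hK ν hν
    set Y := X.image (fun x => x + e) with hY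
    set Y' := X.image (fun x => x + e') with hY'
    have hYc : #Y = #X := card_image_of_injective _ (add_left_injective e)
    have hYc' : #Y' = #X := card_image_of_injective _ (add_left_injective e')
    have hsub : Y ∪ Y' ⊆ X + E := by
      intro z hz
      rcases mem_union.1 hz with h | h
      · obtain ⟨x, hx, rfl⟩ := mem_image.1 h
        exact add_mem_add hx he
      · obtain ⟨x, hx, rfl⟩ := mem_image.1 h
        exact add_mem_add hx he'
    have h2 := card_le_card hsub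
    have h3 := card_union_add_card_inter Y Y'
    have h4 : #(Y ∩ Y') ≤ #(X.filter (fun x => x + (e - e') ∈ X)) := by
      refine card_le_card_of_injOn (fun z => z - e) ?_ ?_
      · intro z hz
        rw [mem_coe, mem_inter] at hz
        obtain ⟨x, hx, hxz⟩ := mem_image.1 hz.1
        obtain ⟨x', hx', hxz'⟩ := mem_image.1 hz.2
        rw [mem_coe, mem_filter]
        constructor
        · rw [← hxz]
          simpa using hx
        · rw [← hxz']
          have : x' + e' - e + (e - e') = x' := by abel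
          rw [this]
          exact hx'
      · intro z _ z' _ h
        simpa using h
    omega
  by_contra hcon
  push Not at hcon
  have h2 : ∑ ν ∈ K, #(X.filter (fun x => x + ν ∈ X)) =
      ∑ x ∈ X, #(K.filter (fun ν => x + ν ∈ X)) := by
    simp only [card_filter]
    exact sum_comm
  have h3 : #K * (3 * #X) ≤ ∑ ν ∈ K, 4 * #(X.filter (fun x => x + ν ∈ X)) := by
    rw [← smul_eq_mul]
    exact card_nsmul_le_sum _ _ _ h1
  have h4 : ∑ x ∈ X, 4 * #(K.filter (fun ν => x + ν ∈ X)) < ∑ _x ∈ X, 3 * #K :=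
    sum_lt_sum_of_nonempty hX hcon
  rw [sum_const, smul_eq_mul, ← mul_sum, ← h2, mul_sum] at h4
  have h5 : #K * (3 * #X) = #X * (3 * #K) := by ring
  omega

omit [DecidableEq G] in
open Classical in
theorem zs_add_eq {H : AddSubgroup G} {V : ℕ → Finset G} {a n k : ℕ} :
    zs H V a (n + k) = zs H V a n + zs H V (a + n) k := by
  ext z
  rw [zs_add, Finset.mem_add]

omit [DecidableEq G] in
theorem fills_of_le {H K : AddSubgroup G} {R R' : Finset G} (h : Fills H R) (hKH : K ≤ H)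
    (hR : R ⊆ R') : Fills K R' := by
  obtain ⟨r, c, hr⟩ := h
  refine ⟨r, c, fun x hx => ?_⟩
  obtain ⟨T, hT, h1, h2⟩ := hr x (hKH hx)
  exact ⟨T, hT.trans hR, h1, h2⟩

/-- FILL: a subgroup inside a ball is filled by the boxes -/
theorem fill_of_ball [Finite G] {H : AddSubgroup G}
    {R X : Finset G} (hfill : Fills H R) (hRX : Disjoint R X) {w b : ℕ} {V : ℕ → Finset G}
    {S : Finset G} (hbox : Boxes H X w b V S) {ℓ k : ℕ} (hcard : Nat.card G ≤ 4 ^ ℓ)
    (hk : 14 * ℓ * k ≤ w) {K : AddSubgroup G}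
    (hK : ∀ x ∈ K, (x : G ⧸ H) ∈ ball (Dif H S) k) :
    Fills K (R ∪ (range w).biUnion V) := by
  classical
  by_cases hKH : K ≤ H
  · exact fills_of_le hfill hKH subset_union_left
  have hℓ : 1 ≤ ℓ := by
    by_contra hcon
    have h0 : ℓ = 0 := by omega
    rw [h0, pow_zero] at hcard
    apply hKH
    intro x _
    have : Subsingleton G := (Finite.card_le_one_iff_subsingleton).1 hcard
    rw [Subsingleton.elim x 0]
    exact H.zero_mem
  obtain ⟨r, c, hr⟩ := hfill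
  have : Fintype (G ⧸ H) := Fintype.ofFinite _
  have hcardQ : Nat.card (G ⧸ H) ≤ 4 ^ ℓ :=
    (Nat.card_le_card_of_surjective _ (QuotientAddGroup.mk_surjective (s := H))).trans hcard
  -- the subgroup of the quotient
  set Kq : Finset (G ⧸ H) := univ.filter (fun ν => ∃ x ∈ K, (x : G ⧸ H) = ν) with hKq
  have hKq_mem : ∀ ν, ν ∈ Kq ↔ ∃ x ∈ K, (x : G ⧸ H) = ν := fun ν => by
    rw [hKq, mem_filter]
    exact ⟨fun h => h.2, fun h => ⟨mem_univ _, h⟩⟩
  have h0K : (0 : G ⧸ H) ∈ Kq := (hKq_mem 0).2 ⟨0, K.zero_mem, rfl⟩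
  have hKpos : 0 < #Kq := card_pos.2 ⟨0, h0K⟩
  have hsubK : ∀ s ∈ Kq, ∀ t ∈ Kq, s - t ∈ Kq := by
    intro s hs t ht
    obtain ⟨x, hx, rfl⟩ := (hKq_mem s).1 hs
    obtain ⟨y, hy, rfl⟩ := (hKq_mem t).1 ht
    exact (hKq_mem _).2 ⟨x - y, K.sub_mem hx hy, rfl⟩
  have hKball : ∀ ν ∈ Kq, ν ∈ ball (Dif H S) k := by
    intro ν hν
    obtain ⟨x, hx, rfl⟩ := (hKq_mem ν).1 hν
    exact hK x hx
  have hw7 : 7 * ℓ * k + 7 * ℓ * k ≤ w := by
    have : 14 * ℓ * k = 7 * ℓ * k + 7 * ℓ * k := by ring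
    omega
  -- a section in a family of boxes
  have key : ∀ a, a + 7 * ℓ * k ≤ w → ∃ n, n ≤ 7 * ℓ * k ∧ ∃ x ∈ zs H V a n,
      3 * #Kq ≤ 4 * #(Kq.filter (fun ν => x + ν ∈ zs H V a n)) := by
    intro a ha
    obtain ⟨j, hj, hj4⟩ := exists_small (X := fun j => zs H V a (j * k)) zs_nonempty hℓ hcardQ
    have hjk : (j + 1) * k ≤ 7 * ℓ * k := Nat.mul_le_mul_right k hj
    have hjk' : (j + 1) * k = j * k + k := by ring
    simp only [hjk', zs_add_eq] at hj4
    have hle : a + j * k + k ≤ w := by omega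
    obtain ⟨x, hx, hx'⟩ := section_of (zs_nonempty (H := H) (V := V)) hj4 fun ν hν =>
      ball_zs hbox (a := a + j * k) (k := k) hle (hKball ν hν)
    exact ⟨j * k, by omega, x, hx, by convert hx'⟩
  obtain ⟨n₁, hn₁, x₁, hx₁, hs₁⟩ := key 0 (by omega)
  obtain ⟨n₂, hn₂, x₂, hx₂, hs₂⟩ := key (7 * ℓ * k) hw7
  obtain ⟨y₁, rfl⟩ := QuotientAddGroup.mk_surjective x₁
  obtain ⟨y₂, rfl⟩ := QuotientAddGroup.mk_surjective x₂
  refine ⟨r + (∑ i ∈ Ico 0 (0 + n₁), #(V i) / 2 +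
    ∑ i ∈ Ico (7 * ℓ * k) (7 * ℓ * k + n₂), #(V i) / 2), c + (y₁ + y₂), fun h hh => ?_⟩
  -- the two parts of `h`
  set A₁ := Kq.filter (fun ν => (y₁ : G ⧸ H) + ν ∈ zs H V 0 n₁) with hA₁
  set A₂ := Kq.filter (fun ν => (y₂ : G ⧸ H) + ν ∈ zs H V (7 * ℓ * k) n₂) with hA₂
  obtain ⟨ν₁, hν₁, ν₂, hν₂, hν⟩ : ∃ ν₁ ∈ A₁, ∃ ν₂ ∈ A₂, ν₁ + ν₂ = (h : G ⧸ H) := by
    by_contra hcon
    push Not at hcon
    have hdis : Disjoint A₁ (A₂.image (fun ν => (h : G ⧸ H) - ν)) := by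
      rw [Finset.disjoint_left]
      intro ν hν hν'
      obtain ⟨ν₂, hν₂, hν₂'⟩ := mem_image.1 hν'
      exact hcon ν hν ν₂ hν₂ (by rw [← hν₂']; abel)
    have hsub : A₁ ∪ A₂.image (fun ν => (h : G ⧸ H) - ν) ⊆ Kq := by
      intro ν hν
      rcases mem_union.1 hν with h1 | h1
      · exact (mem_filter.1 h1).1
      · obtain ⟨ν₂, hν₂, rfl⟩ := mem_image.1 h1
        exact hsubK _ ((hKq_mem _).2 ⟨h, hh, rfl⟩) _ (mem_filter.1 hν₂).1
    have h1 := card_le_card hsub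
    rw [card_union_of_disjoint hdis, card_image_of_injective _ sub_right_injective] at h1
    omega
  obtain ⟨T₁, hT₁, hc₁, hz₁⟩ := zs_real hbox.disj (by omega) (mem_filter.1 hν₁).2
  obtain ⟨T₂, hT₂, hc₂, hz₂⟩ := zs_real hbox.disj (by omega) (mem_filter.1 hν₂).2
  have hH : ∑ x ∈ T₁, x + ∑ x ∈ T₂, x - (y₁ + y₂) - h ∈ H := by
    rw [← QuotientAddGroup.eq_zero_iff, QuotientAddGroup.mk_sub, QuotientAddGroup.mk_sub,
      QuotientAddGroup.mk_add, QuotientAddGroup.mk_add, hz₁, hz₂, ← hν]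
    abel
  obtain ⟨T₀, hT₀, hc₀, hs₀⟩ := hr _ (H.neg_mem hH)
  have hWX : (range w).biUnion V ⊆ X := by
    intro x hx
    obtain ⟨i, hi, hxi⟩ := mem_biUnion.1 hx
    exact hbox.sub i (mem_range.1 hi) hxi
  have hT₁w : T₁ ⊆ (range w).biUnion V := by
    intro x hx
    obtain ⟨i, hi, hxi⟩ := mem_biUnion.1 (hT₁ hx)
    rw [mem_Ico] at hi
    exact mem_biUnion.2 ⟨i, mem_range.2 (by omega), hxi⟩
  have hT₂w : T₂ ⊆ (range w).biUnion V := by
    intro x hx
    obtain ⟨i, hi, hxi⟩ := mem_biUnion.1 (hT₂ hx)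
    rw [mem_Ico] at hi
    exact mem_biUnion.2 ⟨i, mem_range.2 (by omega), hxi⟩
  have hd12 : Disjoint T₁ T₂ := by
    rw [Finset.disjoint_left]
    intro x hx hx'
    obtain ⟨i, hi, hxi⟩ := mem_biUnion.1 (hT₁ hx)
    obtain ⟨j, hj, hxj⟩ := mem_biUnion.1 (hT₂ hx')
    rw [mem_Ico] at hi hj
    exact Finset.disjoint_left.1 (hbox.disj i (by omega) j (by omega) (by omega)) hxi hxj
  have hd0 : Disjoint T₀ (T₁ ∪ T₂) := by
    rw [Finset.disjoint_left]
    intro x hx hx'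
    have hxX : x ∈ X := by
      rcases mem_union.1 hx' with h1 | h1
      · exact hWX (hT₁w h1)
      · exact hWX (hT₂w h1)
    exact Finset.disjoint_left.1 hRX (hT₀ hx) hxX
  refine ⟨T₀ ∪ (T₁ ∪ T₂), union_subset_union hT₀ (union_subset hT₁w hT₂w), ?_, ?_⟩
  · rw [card_union_of_disjoint hd0, card_union_of_disjoint hd12, hc₀, hc₁, hc₂]
  · rw [sum_union hd0, sum_union hd12, hs₀]
    abel

end Pool.Agent.Lib.MPa7239a.GC
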