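import Pool.Agent.Lib.MP_a7239a_co.GC.Defs

/-!
# STR: linear growth of the balls makes `D` one-dimensional
-/

open Finset

namespace Pool.Agent.Lib.MPa7239a.GC

namespace STR

variable {Q : Type*} [AddCommGroup Q] {D : Finset Q}

/-- torsion freeness with integer coefficients -/
lemma tfz {w : ℕ} (hTF : TF D w) {k : ℕ} {ν : Q} (hν : ν ∈ ball D k) {s : ℤ} (hs : s ≠ 0)
    (hsν : s • ν = 0) (hw : k * s.natAbs ≤ w) : ν = 0 := by
  refine hTF k s.natAbs ν hν ?_ (Int.natAbs_pos.2 hs) hw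
  rw [← natCast_zsmul]
  rcases Int.natAbs_eq s with h | h
  · rw [← h]; exact hsν
  · have h2 : ((s.natAbs : ℕ) : ℤ) = -s := by omega
    rw [h2, neg_smul, hsν, neg_zero]

/-- the multiples of `e` are different -/
lemma mul_inj {w : ℕ} (hTF : TF D w) {k : ℕ} {e : Q} (he : e ∈ ball D k) (he0 : e ≠ 0)
    {M : ℕ} (hM : k * M ≤ w) {m m' : ℕ} (hm : m < M) (hm' : m' < M) (h : m • e = m' • e) :
    m = m' := by
  by_contra hne
  refine he0 (tfz hTF he (s := (m : ℤ) - m') (by omega) ?_ ?_)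
  · rw [sub_smul, natCast_zsmul, natCast_zsmul, h, sub_self]
  · refine (Nat.mul_le_mul_left k ?_).trans hM
    omega

/-- a relation between two elements of `D` -/
lemma rel {w Λ : ℕ} (hTF : TF D w) (hw : 2 * Λ + 1 ≤ w)
    (hlin : #(ball D (4 * Λ)) ≤ Λ * (4 * Λ)) (h0 : (0 : Q) ∈ D) {v e₁ : Q} (hv : v ∈ D)
    (he : e₁ ∈ D) (he0 : e₁ ≠ 0) :
    ∃ a b : ℤ, 1 ≤ a ∧ a ≤ 2 * Λ ∧ |b| ≤ 2 * Λ ∧ a • v = b • e₁ := by
  classical
  have hmaps : ∀ p ∈ range (2 * Λ + 1) ×ˢ range (2 * Λ + 1),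
      (fun p : ℕ × ℕ => p.1 • v + p.2 • e₁) p ∈ ball D (4 * Λ) := by
    intro p hp
    rw [mem_product, mem_range, mem_range] at hp
    have h1 := ball_nsmul p.1 (mem_ball_one.2 hv)
    have h2 := ball_nsmul p.2 (mem_ball_one.2 he)
    exact ball_mono h0 (by omega) (ball_add h1 h2)
  have hcard : #(ball D (4 * Λ)) < #(range (2 * Λ + 1) ×ˢ range (2 * Λ + 1)) := by
    rw [card_product, card_range]
    nlinarith
  obtain ⟨p, hp, q, hq, hpq, heq⟩ := exists_ne_map_eq_of_card_lt_of_maps_to hcard hmaps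
  rw [mem_product, mem_range, mem_range] at hp hq
  have heq' : ((p.1 : ℤ) - q.1) • v = ((q.2 : ℤ) - p.2) • e₁ := by
    rw [sub_smul, sub_smul, natCast_zsmul, natCast_zsmul, natCast_zsmul, natCast_zsmul,
      sub_eq_sub_iff_add_eq_add, heq]
    abel
  rcases lt_trichotomy p.1 q.1 with h | h | h
  · refine ⟨(q.1 : ℤ) - p.1, (p.2 : ℤ) - q.2, by omega, by omega, ?_, ?_⟩
    · rw [abs_le]; omega
    · have h1 : ((q.1 : ℤ) - p.1) • v = -(((p.1 : ℤ) - q.1) • v) := by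
        rw [← neg_smul, neg_sub]
      have h2 : ((p.2 : ℤ) - q.2) • e₁ = -(((q.2 : ℤ) - p.2) • e₁) := by
        rw [← neg_smul, neg_sub]
      rw [h1, h2, heq']
  · exfalso
    have h1 : p.2 • e₁ = q.2 • e₁ := by
      rw [h] at heq
      exact add_left_cancel heq
    have h2 := mul_inj hTF (mem_ball_one.2 he) he0 (M := 2 * Λ + 1) (by omega) hp.2 hq.2 h1
    exact hpq (Prod.ext h h2)
  · refine ⟨(p.1 : ℤ) - q.1, (q.2 : ℤ) - p.2, by omega, by omega, ?_, heq'⟩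
    rw [abs_le]; omega

/-- `N ≤ 2 Λ` -/
lemma N_le {w Λ κ R₀ N : ℕ} (hTF : TF D w) (h0 : (0 : Q) ∈ D)
    (hlin : ∀ k, 1 ≤ k → k ≤ R₀ → #(ball D k) ≤ Λ * k) (hN : 1 ≤ N)
    (hR : 2 * N ^ (κ + 1) ≤ R₀) (hw : N ^ κ * N ^ (κ + 2) ≤ w) {e e₁ : Q}
    (he : e ∈ ball D (N ^ κ)) (he₁ : e₁ ∈ D) (he0 : e₁ ≠ 0) (hNe : N • e = e₁) : N ≤ 2 * Λ := by
  classical
  have he0' : e ≠ 0 := by
    rintro rfl
    rw [nsmul_zero] at hNe
    exact he0 hNe.symm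
  have hcard : N ^ (κ + 2) ≤ #(ball D (2 * N ^ (κ + 1))) := by
    conv_lhs => rw [← card_range (N ^ (κ + 2))]
    refine card_le_card_of_injOn (fun m => m • e) ?_ ?_
    · intro m hm
      rw [coe_range, Set.mem_Iio] at hm
      have e1 : m = m % N + (m / N) * N := by
        have := Nat.mod_add_div m N
        rw [mul_comm] at this
        exact this.symm
      have e2 : m • e = (m % N) • e + (m / N) • e₁ := by
        conv_lhs => rw [e1]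
        rw [add_smul, mul_smul, hNe]
      have h1 := ball_nsmul (m % N) he
      have h2 := ball_nsmul (m / N) (mem_ball_one.2 he₁)
      have h3 : m % N * N ^ κ + m / N * 1 ≤ 2 * N ^ (κ + 1) := by
        have a1 : m % N ≤ N := (Nat.mod_lt m hN).le
        have a2 : m % N * N ^ κ ≤ N * N ^ κ := Nat.mul_le_mul_right _ a1
        have a3 : m / N < N ^ (κ + 1) := by
          rw [Nat.div_lt_iff_lt_mul hN, ← pow_succ]
          exact hm
        have a4 : N * N ^ κ = N ^ (κ + 1) := by rw [pow_succ, mul_comm]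
        omega
      show m • e ∈ ball D (2 * N ^ (κ + 1))
      rw [e2]
      exact ball_mono h0 h3 (ball_add h1 h2)
    · intro m hm m' hm' hmm
      rw [coe_range, Set.mem_Iio] at hm hm'
      exact mul_inj hTF he he0' hw hm hm' hmm
  have h1 : N ^ (κ + 2) ≤ Λ * (2 * N ^ (κ + 1)) :=
    hcard.trans (hlin _ (by have := Nat.pow_pos (n := κ + 1) hN; omega) hR)
  have h2 : N ^ (κ + 2) = N * N ^ (κ + 1) := by rw [pow_succ, mul_comm]
  rw [h2] at h1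
  have h3 : 0 < N ^ (κ + 1) := Nat.pow_pos hN
  by_contra hcon
  push Not at hcon
  nlinarith

/-- each element of `D` is a small multiple of `e`, or `N` can be enlarged -/
lemma step {w Λ κ N : ℕ} (hΛ : 1 ≤ Λ) (hTF : TF D w) (h0 : (0 : Q) ∈ D)
    (hneg : ∀ x ∈ D, -x ∈ D) (hlin : #(ball D (4 * Λ)) ≤ Λ * (4 * Λ)) (hκ : 7 * Λ ^ 2 ≤ 2 ^ κ)
    (hw : (2 * Λ + 4 * Λ ^ 2 * (2 * Λ) ^ κ) * (2 * Λ) ≤ w) (hN : 1 ≤ N) (hN2 : N ≤ 2 * Λ)
    {e e₁ v : Q} (he : e ∈ ball D (N ^ κ)) (he₁ : e₁ ∈ D) (he0 : e₁ ≠ 0) (hNe : N • e = e₁)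
    (hmax : ∀ N' : ℕ, N < N' → N' ≤ 4 * Λ ^ 2 → ∀ e' ∈ ball D (N' ^ κ), N' • e' ≠ e₁)
    (hv : v ∈ D) : ∃ z : ℤ, |z| ≤ 4 * (Λ : ℤ) ^ 2 ∧ v = z • e := by
  have hw1 : 2 * Λ + 1 ≤ w := by
    refine le_trans ?_ hw
    have h1 : 1 ≤ (2 * Λ) ^ κ := Nat.one_le_pow _ _ (by omega)
    have h2 : 1 ≤ 4 * Λ ^ 2 * (2 * Λ) ^ κ := by
      have : 1 ≤ 4 * Λ ^ 2 := by nlinarith
      nlinarith
    nlinarith
  obtain ⟨a, b, ha1, ha2, hb, hab⟩ := rel hTF hw1 hlin h0 hv he₁ he0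
  have hNZ : (1 : ℤ) ≤ N := by exact_mod_cast hN
  have hN2Z : (N : ℤ) ≤ 2 * Λ := by exact_mod_cast hN2
  have hΛZ : (1 : ℤ) ≤ Λ := by exact_mod_cast hΛ
  have hab' : a • v = (b * N) • e := by
    rw [hab, mul_smul, natCast_zsmul, hNe]
  have hg0 : 0 < Int.gcd a (b * N) := Int.gcd_pos_of_ne_zero_left _ (by omega)
  obtain ⟨a', u, hco, hae, hue⟩ := Int.exists_gcd_one hg0
  set g : ℕ := Int.gcd a (b * N) with hg
  have hgZ : (1 : ℤ) ≤ (g : ℤ) := by exact_mod_cast hg0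
  have ha'1 : 1 ≤ a' := by
    by_contra hcon
    push Not at hcon
    have : a' * (g : ℤ) ≤ 0 := by nlinarith
    omega
  have ha'2 : a' ≤ 2 * Λ := by
    have : a' * 1 ≤ a' * (g : ℤ) := mul_le_mul_of_nonneg_left hgZ (by omega)
    omega
  have hga : (g : ℤ) ≤ 2 * Λ := by
    have : 1 * (g : ℤ) ≤ a' * (g : ℤ) := mul_le_mul_of_nonneg_right ha'1 (by omega)
    omega
  have hbN : |b * N| ≤ 4 * (Λ : ℤ) ^ 2 := by
    rw [abs_mul, abs_of_pos (show (0 : ℤ) < N by omega)]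
    calc |b| * (N : ℤ) ≤ (2 * Λ) * (2 * Λ) :=
          mul_le_mul hb hN2Z (by omega) (by omega)
      _ = 4 * (Λ : ℤ) ^ 2 := by ring
  have hu : |u| ≤ 4 * (Λ : ℤ) ^ 2 := by
    have h1 : |b * N| = |u| * g := by
      rw [hue, abs_mul, abs_of_pos (show (0 : ℤ) < (g : ℤ) by omega)]
    have h2 : |u| * 1 ≤ |u| * (g : ℤ) := mul_le_mul_of_nonneg_left hgZ (abs_nonneg u)
    rw [h1] at hbN
    linarith
  have hNκ : N ^ κ ≤ (2 * Λ) ^ κ := Nat.pow_le_pow_left hN2 κ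
  -- `a' v = u e`
  have hmul : a' • v = u • e := by
    rw [← sub_eq_zero]
    have m1 := ball_zsmul hneg a' (mem_ball_one.2 hv)
    have m2 := ball_zsmul hneg u he
    have m3 := ball_sub hneg m1 m2
    refine tfz hTF m3 (s := (g : ℤ)) (by omega) ?_ ?_
    · rw [smul_sub, smul_smul, smul_smul, mul_comm (g : ℤ) a', mul_comm (g : ℤ) u, ← hae, ← hue,
        hab', sub_self]
    · have e1 : a'.natAbs ≤ 2 * Λ := by omega
      have e2 : u.natAbs ≤ 4 * Λ ^ 2 := by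
        have : ((u.natAbs : ℕ) : ℤ) ≤ ((4 * Λ ^ 2 : ℕ) : ℤ) := by
          rw [Int.natCast_natAbs]; push_cast; exact hu
        exact_mod_cast this
      have e3 : ((g : ℤ)).natAbs ≤ 2 * Λ := by omega
      refine le_trans (Nat.mul_le_mul ?_ e3) hw
      have e4 : u.natAbs * N ^ κ ≤ 4 * Λ ^ 2 * (2 * Λ) ^ κ := Nat.mul_le_mul e2 hNκ
      omega
  rcases ha'1.eq_or_lt with h1 | h1
  · refine ⟨u, hu, ?_⟩
    rw [← h1, one_smul] at hmul
    exact hmul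
  exfalso
  obtain ⟨s, t, hst⟩ := Int.isCoprime_iff_gcd_eq_one.2 hco
  set β : ℤ := t % a' with hβ
  set α : ℤ := s + (t / a') * u with hα
  have hβ0 : 0 ≤ β := Int.emod_nonneg t (by omega)
  have hβ1 : β < a' := Int.emod_lt_of_pos t (by omega)
  have hαβ : α * a' + β * u = 1 := by
    have := Int.emod_add_mul_ediv t a'
    rw [hα]
    have h3 : β = t - a' * (t / a') := by rw [hβ]; linarith
    rw [h3]
    linear_combination hst
  have he' : a' • (α • e + β • v) = e := by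
    have h2 : a' • (α • e + β • v) = (α * a') • e + β • (a' • v) := by
      rw [smul_add, smul_smul, smul_smul, smul_smul, mul_comm a' α, mul_comm a' β]
    rw [h2, hmul, smul_smul, ← add_smul, hαβ, one_smul]
  have hmem := ball_add (ball_zsmul hneg α he) (ball_zsmul hneg β (mem_ball_one.2 hv))
  have hαb : |α| ≤ 1 + 4 * (Λ : ℤ) ^ 2 := by
    have h2 : |α| * a' ≤ 1 + a' * |u| := by
      have h3 : α * a' = 1 - β * u := by linarith
      have h4 : |α * a'| ≤ 1 + β * |u| := by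
        rw [h3]
        calc |1 - β * u| ≤ |1| + |β * u| := abs_sub _ _
          _ = 1 + β * |u| := by rw [abs_one, abs_mul, abs_of_nonneg hβ0]
      rw [abs_mul, abs_of_pos (show 0 < a' by omega)] at h4
      have h5 : β * |u| ≤ a' * |u| := mul_le_mul_of_nonneg_right hβ1.le (abs_nonneg u)
      linarith
    have h6 : |α| ≤ 1 + |u| := by
      by_contra hcon
      push Not at hcon
      nlinarith
    linarith
  have hα' : α.natAbs ≤ 1 + 4 * Λ ^ 2 := by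
    have : ((α.natAbs : ℕ) : ℤ) ≤ ((1 + 4 * Λ ^ 2 : ℕ) : ℤ) := by
      rw [Int.natCast_natAbs]; push_cast; exact hαb
    exact_mod_cast this
  have hβ' : β.natAbs ≤ 2 * Λ := by omega
  have haN : 2 ≤ a'.natAbs := by omega
  have haN2 : a'.natAbs ≤ 2 * Λ := by omega
  have hsize : α.natAbs * N ^ κ + β.natAbs * 1 ≤ (N * a'.natAbs) ^ κ := by
    have hN1 : 1 ≤ N ^ κ := Nat.one_le_pow _ _ hN
    calc α.natAbs * N ^ κ + β.natAbs * 1 ≤ (1 + 4 * Λ ^ 2) * N ^ κ + 2 * Λ * N ^ κ := by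
          have := Nat.mul_le_mul_right (N ^ κ) hα'
          have : 2 * Λ * 1 ≤ 2 * Λ * N ^ κ := Nat.mul_le_mul_left _ hN1
          omega
      _ = (1 + 4 * Λ ^ 2 + 2 * Λ) * N ^ κ := by ring
      _ ≤ (7 * Λ ^ 2) * N ^ κ := by
          refine Nat.mul_le_mul_right _ ?_
          nlinarith
      _ ≤ 2 ^ κ * N ^ κ := Nat.mul_le_mul_right _ hκ
      _ ≤ a'.natAbs ^ κ * N ^ κ := Nat.mul_le_mul_right _ (Nat.pow_le_pow_left haN κ)
      _ = (N * a'.natAbs) ^ κ := by rw [mul_pow, mul_comm]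
  refine hmax (N * a'.natAbs) ?_ ?_ (α • e + β • v) (ball_mono h0 hsize hmem) ?_
  · nlinarith
  · calc N * a'.natAbs ≤ (2 * Λ) * (2 * Λ) := Nat.mul_le_mul hN2 haN2
      _ = 4 * Λ ^ 2 := by ring
  · have h2 : a'.natAbs • (α • e + β • v) = e := by
      have h3 : ((a'.natAbs : ℕ) : ℤ) = a' := by omega
      rw [← natCast_zsmul, h3]
      exact he'
    rw [mul_smul, h2, hNe]

end STR

theorem structure_of {Q : Type*} [AddCommGroup Q] {D : Finset Q} (h0 : (0 : Q) ∈ D)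
    (hneg : ∀ x ∈ D, -x ∈ D) {w Λ κ R₀ : ℕ} (hΛ : 1 ≤ Λ) (hTF : TF D w)
    (hlin : ∀ k, 1 ≤ k → k ≤ R₀ → #(ball D k) ≤ Λ * k) (hκ : 7 * Λ ^ 2 ≤ 2 ^ κ)
    (hR₀ : 2 * (4 * Λ ^ 2) ^ (κ + 1) ≤ R₀) (hw : (4 * Λ ^ 2) ^ (2 * κ + 4) ≤ w) :
    ∃ e ∈ ball D ((2 * Λ) ^ κ), ∀ x ∈ D, ∃ z : ℤ, |z| ≤ 4 * (Λ : ℤ) ^ 2 ∧ x = z • e := by
  classical
  by_cases hD : ∀ x ∈ D, x = 0
  · exact ⟨0, zero_mem_ball h0 _, fun x hx => ⟨0, by simp, by rw [hD x hx]; simp⟩⟩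
  push Not at hD
  obtain ⟨e₁, he₁, he₁0⟩ := hD
  set P : ℕ := 4 * Λ ^ 2 with hP
  have hP4 : 4 ≤ P := by rw [hP]; nlinarith
  have hPΛ : P = (2 * Λ) * (2 * Λ) := by rw [hP]; ring
  set W : Finset ℕ := (range (P + 1)).filter
    (fun N => 1 ≤ N ∧ ∃ e ∈ ball D (N ^ κ), N • e = e₁) with hW
  have hWn : W.Nonempty := by
    refine ⟨1, ?_⟩
    rw [hW, mem_filter, mem_range]
    refine ⟨by omega, le_refl 1, e₁, ?_, one_smul ℕ e₁⟩
    rw [one_pow]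
    exact mem_ball_one.2 he₁
  obtain ⟨N, hNW, hNmax⟩ := exists_max_image W (fun N => N) hWn
  rw [hW, mem_filter, mem_range] at hNW
  obtain ⟨hNP, hN1, e, he, hNe⟩ := hNW
  have hNP' : N ≤ P := by omega
  have hN2 : N ≤ 2 * Λ := by
    refine STR.N_le hTF h0 hlin hN1 ?_ ?_ he he₁ he₁0 hNe
    · refine le_trans (Nat.mul_le_mul_left 2 (Nat.pow_le_pow_left hNP' _)) hR₀
    · refine le_trans ?_ hw
      rw [← pow_add]
      calc N ^ (κ + (κ + 2)) ≤ P ^ (κ + (κ + 2)) := Nat.pow_le_pow_left hNP' _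
        _ ≤ P ^ (2 * κ + 4) := Nat.pow_le_pow_right (by omega) (by omega)
  have hlin4 : #(ball D (4 * Λ)) ≤ Λ * (4 * Λ) := by
    refine hlin (4 * Λ) (by omega) ?_
    refine le_trans ?_ hR₀
    have h1 : P ^ 1 ≤ P ^ (κ + 1) := Nat.pow_le_pow_right (by omega) (by omega)
    have h2 : 2 * Λ ≤ P := by rw [hP]; nlinarith
    rw [pow_one] at h1
    omega
  have hw' : (2 * Λ + 4 * Λ ^ 2 * (2 * Λ) ^ κ) * (2 * Λ) ≤ w := by
    refine le_trans ?_ hw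
    have hL : 2 ≤ 2 * Λ := by omega
    have h1 : 1 ≤ (2 * Λ) ^ κ := Nat.one_le_pow _ _ (by omega)
    have h2 : P ^ (2 * κ + 4) = (2 * Λ) ^ (4 * κ + 8) := by
      rw [hPΛ, mul_pow, ← pow_add]; congr 1; ring
    have h3 : (2 * Λ) ^ (κ + 4) ≤ (2 * Λ) ^ (4 * κ + 8) :=
      Nat.pow_le_pow_right (by omega) (by omega)
    have h4 : (2 * Λ + 4 * Λ ^ 2 * (2 * Λ) ^ κ) * (2 * Λ) ≤ (2 * Λ) ^ (κ + 4) := by
      have e1 : 2 * Λ ≤ 4 * Λ ^ 2 * (2 * Λ) ^ κ := by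
        have : 2 * Λ ≤ 4 * Λ ^ 2 := by nlinarith
        calc 2 * Λ ≤ 4 * Λ ^ 2 * 1 := by omega
          _ ≤ 4 * Λ ^ 2 * (2 * Λ) ^ κ := Nat.mul_le_mul_left _ h1
      calc (2 * Λ + 4 * Λ ^ 2 * (2 * Λ) ^ κ) * (2 * Λ)
          ≤ (2 * (4 * Λ ^ 2 * (2 * Λ) ^ κ)) * (2 * Λ) := Nat.mul_le_mul_right _ (by omega)
        _ = 2 * (2 * Λ) ^ (κ + 3) := by ring
        _ ≤ (2 * Λ) * (2 * Λ) ^ (κ + 3) := Nat.mul_le_mul_right _ hL
        _ = (2 * Λ) ^ (κ + 4) := by ring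
    rw [h2]
    exact h4.trans h3
  refine ⟨e, ball_mono h0 (Nat.pow_le_pow_left hN2 κ) he, fun v hv => ?_⟩
  refine STR.step hΛ hTF h0 hneg hlin4 hκ hw' hN1 hN2 he he₁ he₁0 hNe ?_ hv
  intro N' hNN' hN'P e' he' hcon
  have : N' ∈ W := by
    rw [hW, mem_filter, mem_range]
    exact ⟨by omega, by omega, e', he', hcon⟩
  have := hNmax N' this
  omega

end Pool.Agent.Lib.MPa7239a.GC
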