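import Pool.Agent.Lib.MP_a7239a_co.GC.CL2
import Pool.Agent.Lib.MP_a7239a_co.GC.CLO
import Pool.Agent.Lib.MP_a7239a_co.GC.DIS
import Pool.Agent.Lib.MP_a7239a_co.GC.CPY
import Pool.Agent.Lib.MP_a7239a_co.GC.STR

/-!
# The structure of a dense subset
-/

open Finset

namespace Pool.Agent.Lib.MPa7239a.GC

/-- a subset of a coset -/
theorem card_le_of_coset {G : Type*} [AddCommGroup G] [Finite G] (H : AddSubgroup G)
    {B : Finset G} (y : G) (hB : ∀ x ∈ B, x - y ∈ H) : #B ≤ Nat.card H := by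
  classical
  have : Fintype H := Fintype.ofFinite H
  rw [Nat.card_eq_fintype_card, ← card_univ]
  refine card_le_card_of_injOn (fun x => if h : x - y ∈ H then (⟨x - y, h⟩ : H) else 0)
    (fun _ _ => mem_coe.2 (mem_univ _)) ?_
  intro a ha b hb hab
  simp only [dif_pos (hB a ha), dif_pos (hB b hb), Subtype.mk.injEq] at hab
  exact sub_left_inj.1 hab

/-- the number of classes of differences -/
theorem card_le_Dif {G : Type*} [AddCommGroup G] [Finite G] (H : AddSubgroup G) (S : Finset G) :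
    #S ≤ #(Dif H S) * Nat.card H := by
  classical
  rcases S.eq_empty_or_nonempty with rfl | ⟨q, hq⟩
  · rw [card_empty]
    exact Nat.zero_le _
  rw [mul_comm]
  refine card_le_mul_card_image_of_maps_to (f := fun x => ((x - q : G) : G ⧸ H))
    (fun x hx => mem_Dif.2 ⟨q, hq, x, hx, rfl⟩) _ ?_
  intro b _
  rcases (S.filter (fun x => ((x - q : G) : G ⧸ H) = b)).eq_empty_or_nonempty with h | ⟨y, hy⟩
  · rw [h, card_empty]
    exact Nat.zero_le _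
  refine card_le_of_coset H y ?_
  intro x hx
  rw [mem_filter] at hx hy
  have h1 : ((x - q : G) : G ⧸ H) = ((y - q : G) : G ⧸ H) := hx.2.trans hy.2.symm
  rw [QuotientAddGroup.eq] at h1
  have h2 := H.neg_mem h1
  have h3 : x - y = -(-(x - q) + (y - q)) := by abel
  rw [h3]
  exact h2

/-- numbers of the form `P ^ a` -/
theorem pow_bound {P a b : ℕ} (hP : 1 ≤ P) (hab : a ≤ b) : P ^ a ≤ P ^ b :=
  Nat.pow_le_pow_right hP hab

/-- linear growth of the sumsets of differences, for closed situations in `A` -/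
def Lin {n : ℕ} (A : Finset (ZMod n × ZMod n)) (ℓ w Λ κ : ℕ) : Prop :=
  ∀ (H : AddSubgroup (ZMod n × ZMod n)) (R S : Finset (ZMod n × ZMod n))
    (V : ℕ → Finset (ZMod n × ZMod n)), R ⊆ A → Fills H R →
    Closed H (A \ R) (w * (2 * (3 * ℓ))) → Closed' H R (A \ R) (w * (2 * (3 * ℓ))) →
    Boxes H (A \ R) w (2 * (3 * ℓ)) V S → n ≤ #S →
    ∀ k, 1 ≤ k → k ≤ 2 * (4 * Λ ^ 2) ^ (κ + 1) → #(ball (Dif H S) k) ≤ Λ * k

theorem core {n ℓ w Λ₀ Λ κ : ℕ} [NeZero n] (hℓ : n < 2 ^ ℓ)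
    (hb : (3 * ℓ + 1) * n ^ 2 < 2 ^ (3 * ℓ)) (hw₂ : n ≤ Λ₀ * w)
    (hΛ₀ : 1000 ≤ Λ₀) (hΛ : Λ₀ ≤ Λ) (hκ : 7 * Λ ^ 2 ≤ 2 ^ κ)
    (hbig : (4 * Λ ^ 2) ^ (4 * κ + 13) ≤ n) {A : Finset (ZMod n × ZMod n)}
    (hA : n + (2 * ℓ + 1) * (w * (2 * (3 * ℓ))) ≤ #A) (hlin : Lin A ℓ w Λ κ) :
    ∃ (H : AddSubgroup (ZMod n × ZMod n)) (R S : Finset (ZMod n × ZMod n))
      (V : ℕ → Finset (ZMod n × ZMod n)) (e q₀ : ZMod n × ZMod n) (z : ZMod n × ZMod n → ℤ),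
      R ⊆ A ∧ Fills H R ∧ Boxes H (A \ R) w (2 * (3 * ℓ)) V S ∧ q₀ ∈ S ∧
      (e : (ZMod n × ZMod n) ⧸ H) ∈ ball (Dif H S) ((2 * Λ) ^ κ) ∧
      (∀ x ∈ S, x - q₀ - z x • e ∈ H) ∧ (∀ x ∈ S, |z x| ≤ ((4 * Λ ^ 2 : ℕ) : ℤ)) ∧
      TF (Dif H S) w ∧ #R + w * (2 * (3 * ℓ)) ≤ (2 * ℓ + 1) * (w * (2 * (3 * ℓ))) := by
  classical
  have hcardG : Fintype.card (ZMod n × ZMod n) = n ^ 2 := by
    rw [Fintype.card_prod, ZMod.card]
    ring
  obtain ⟨H, R, hRA, hfill, hRc, hcl, hcl'⟩ := exists_closed' A (w * (2 * (3 * ℓ)))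
  obtain ⟨V, S, hbox⟩ := exists_boxes H (A \ R) w (3 * ℓ) (by rw [hcardG]; exact hb)
  have hHc : Nat.log 2 (Nat.card H) ≤ 2 * ℓ := by
    have h1 : Nat.card H ≤ n ^ 2 := by
      have := Nat.card_le_card_of_injective (Subtype.val : H → ZMod n × ZMod n)
        Subtype.val_injective
      rwa [Nat.card_eq_fintype_card (α := ZMod n × ZMod n), hcardG] at this
    have h2 : n ^ 2 < 2 ^ (2 * ℓ) := by
      rw [mul_comm, pow_mul]
      exact Nat.pow_lt_pow_left hℓ two_ne_zero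
    have h3 : Nat.card H < 2 ^ (2 * ℓ) := h1.trans_lt h2
    exact (Nat.log_lt_of_lt_pow (Nat.card_pos).ne' h3).le
  have hloss : #R + w * (2 * (3 * ℓ)) ≤ (2 * ℓ + 1) * (w * (2 * (3 * ℓ))) := by
    have : #R ≤ (w * (2 * (3 * ℓ))) * (2 * ℓ) := hRc.trans (Nat.mul_le_mul_left _ hHc)
    nlinarith
  have hSc : n ≤ #S := by
    have h1 := hbox.loss
    have h2 : #(A \ R) = #A - #R := card_sdiff_of_subset hRA
    omega
  have hn : 1 ≤ n := Nat.one_le_iff_ne_zero.2 (NeZero.ne n)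
  have hSne : S.Nonempty := card_pos.1 (by omega)
  have h0 : (0 : (ZMod n × ZMod n) ⧸ H) ∈ Dif H S := zero_mem_Dif hSne
  have hneg : ∀ x ∈ Dif H S, -x ∈ Dif H S := neg_mem_Dif
  have hTF : TF (Dif H S) w := tf hbox hcl le_rfl
  have hΛ2 : Λ * 1 ≤ Λ * Λ := Nat.mul_le_mul_left _ (by omega)
  have hP : 1 ≤ 4 * Λ ^ 2 := by nlinarith
  obtain ⟨e', he', hz'⟩ := structure_of (Λ := Λ) h0 hneg (by omega) hTF
    (hlin H R S V hRA hfill hcl hcl' hbox hSc) hκ le_rfl (by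
      have h1 : (4 * Λ ^ 2) ^ (2 * κ + 5) ≤ Λ₀ * w :=
        (pow_bound hP (by omega)).trans (hbig.trans hw₂)
      rw [show 2 * κ + 5 = (2 * κ + 4) + 1 by ring, pow_succ] at h1
      by_contra hlt
      push Not at hlt
      have h2 : Λ₀ * w < Λ₀ * (4 * Λ ^ 2) ^ (2 * κ + 4) :=
        Nat.mul_lt_mul_of_pos_left hlt (by omega)
      have h3 : Λ₀ * (4 * Λ ^ 2) ^ (2 * κ + 4) ≤
          (4 * Λ ^ 2) ^ (2 * κ + 4) * (4 * Λ ^ 2) := by
        rw [mul_comm]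
        apply Nat.mul_le_mul_left
        nlinarith
      omega)
  obtain ⟨e, rfl⟩ := QuotientAddGroup.mk_surjective e'
  obtain ⟨q₀, hq₀⟩ := hSne
  have hzx : ∀ x ∈ S, ∃ z : ℤ, |z| ≤ ((4 * Λ ^ 2 : ℕ) : ℤ) ∧ x - q₀ - z • e ∈ H := by
    intro x hx
    obtain ⟨z, hz, hze⟩ := hz' ((x - q₀ : ZMod n × ZMod n) : (ZMod n × ZMod n) ⧸ H)
      (mem_Dif.2 ⟨q₀, hq₀, x, hx, rfl⟩)
    refine ⟨z, hz.trans (le_of_eq ?_), ?_⟩
    · push_cast
      ring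
    · rw [← QuotientAddGroup.mk_zsmul, eq_comm, QuotientAddGroup.eq] at hze
      have h1 : x - q₀ - z • e = -(z • e) + (x - q₀) := by abel
      rw [h1]
      exact hze
  choose! z hz using hzx
  exact ⟨H, R, S, V, e, q₀, z, hRA, hfill, hbox, hq₀, he', fun x hx => (hz x hx).2,
    fun x hx => (hz x hx).1, hTF, hloss⟩

end Pool.Agent.Lib.MPa7239a.GC
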