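import Pool.Agent.Lib.MP_a7239a_co.GC.MainA

/-!
# Auxiliary facts for the assembly
-/

open Finset

namespace Pool.Agent.Lib.MPa7239a.GC

theorem Hit.mono {G : Type*} [AddCommGroup G] {A B : Finset G} (h : A ⊆ B) {k : ℕ} {x : G}
    (hA : Hit A k x) : Hit B k x := by
  obtain ⟨T, hT, hc, hs⟩ := hA
  exact ⟨T, hT.trans h, hc, hs⟩

theorem n_nsmul {n : ℕ} (x : ZMod n × ZMod n) : n • x = 0 := by
  obtain ⟨a, b⟩ := x
  rw [Prod.smul_mk, Prod.mk_eq_zero, nsmul_eq_mul, nsmul_eq_mul, ZMod.natCast_self, zero_mul,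
    zero_mul]
  exact ⟨rfl, rfl⟩

theorem card_mul_index' {n : ℕ} [NeZero n] (K : AddSubgroup (ZMod n × ZMod n)) :
    Nat.card K * K.index = n ^ 2 := by
  rw [AddSubgroup.card_mul_index, Nat.card_eq_fintype_card, Fintype.card_prod, ZMod.card]
  ring

/-- elements of sumsets of differences -/
theorem mem_of_ball {G : Type*} [AddCommGroup G] {H K : AddSubgroup G} {S : Finset G}
    (hHK : H ≤ K) (hS : ∀ x ∈ S, ∀ y ∈ S, y - x ∈ K) {k : ℕ} {ν : G}
    (hν : (ν : G ⧸ H) ∈ ball (Dif H S) k) : ν ∈ K := by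
  induction k generalizing ν with
  | zero =>
    rw [mem_ball_zero] at hν
    exact hHK ((QuotientAddGroup.eq_zero_iff ν).1 hν)
  | succ k ih =>
    obtain ⟨y, hy, d, hd, hyd⟩ := mem_ball_succ.1 hν
    obtain ⟨y, rfl⟩ := QuotientAddGroup.mk_surjective y
    obtain ⟨a, ha, b, hb, rfl⟩ := mem_Dif.1 hd
    rw [← QuotientAddGroup.mk_add, QuotientAddGroup.eq] at hyd
    have h1 := K.add_mem (K.add_mem (ih hy) (hS a ha b hb)) (hHK hyd)
    have h2 : ν = y + (b - a) + (-(y + (b - a)) + ν) := by abel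
    rw [h2]
    exact h1

theorem comap_zmultiples {G : Type*} [AddCommGroup G] (H : AddSubgroup G) (e : G) :
    H ⊔ AddSubgroup.zmultiples e =
      (AddSubgroup.zmultiples (e : G ⧸ H)).comap (QuotientAddGroup.mk' H) := by
  have h1 : (AddSubgroup.zmultiples (e : G ⧸ H)) =
      (AddSubgroup.zmultiples e).map (QuotientAddGroup.mk' H) := by
    rw [AddMonoidHom.map_zmultiples]
    rfl
  rw [h1, AddSubgroup.comap_map_eq, QuotientAddGroup.ker_mk', sup_comm]

/-- the index of `H` -/
theorem index_eq {G : Type*} [AddCommGroup G] [Finite G] (H : AddSubgroup G) (e : G) :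
    H.index = addOrderOf (e : G ⧸ H) * (H ⊔ AddSubgroup.zmultiples e).index := by
  rw [comap_zmultiples, AddSubgroup.index_comap_of_surjective _
    (QuotientAddGroup.mk'_surjective H), ← Nat.card_zmultiples, AddSubgroup.card_mul_index]
  rfl

theorem index_le_of_lt {G : Type*} [AddCommGroup G] [Finite G] {H K : AddSubgroup G}
    (h : H < K) : 2 * K.index ≤ H.index := by
  have h1 := AddSubgroup.relIndex_mul_index h.le
  have h2 : H.relIndex K ≠ 1 := by
    intro h3
    rw [AddSubgroup.relIndex_eq_one] at h3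
    exact absurd h3 (not_le_of_gt h)
  have h3 : H.relIndex K ≠ 0 := by
    intro h4
    rw [h4, zero_mul] at h1
    exact AddSubgroup.index_ne_zero_of_finite h1.symm
  rw [← h1]
  exact Nat.mul_le_mul_right _ (by omega)

theorem log_two_mul_le {a b : ℕ} (ha : 1 ≤ a) (hab : 2 * a ≤ b) :
    Nat.log 2 a + 1 ≤ Nat.log 2 b := by
  have h1 : Nat.log 2 (2 * a) ≤ Nat.log 2 b := Nat.log_mono_right hab
  rw [mul_comm, Nat.log_mul_base one_lt_two (by omega)] at h1
  exact h1

theorem card_lt_of_lt {G : Type*} [AddCommGroup G] [Finite G] {H K : AddSubgroup G}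
    (h : H < K) : Nat.card H < Nat.card K := by
  have h1 := AddSubgroup.card_mul_index H
  have h2 := AddSubgroup.card_mul_index K
  have h3 := index_le_of_lt h
  have h4 : 0 < K.index := Nat.pos_of_ne_zero AddSubgroup.index_ne_zero_of_finite
  by_contra hle
  push Not at hle
  have h5 : Nat.card K * (2 * K.index) ≤ Nat.card H * H.index := Nat.mul_le_mul hle h3
  rw [h1, ← h2] at h5
  have h6 : 0 < Nat.card K * K.index := Nat.mul_pos Nat.card_pos h4
  have h7 : Nat.card K * (2 * K.index) = 2 * (Nat.card K * K.index) := by ring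
  omega

/-- few rows -/
theorem card_le_rows {G : Type*} [AddCommGroup G] [Finite G] (H : AddSubgroup G) {S : Finset G}
    {q₀ e : G} (z : G → ℤ) (hz : ∀ x ∈ S, x - q₀ - z x • e ∈ H) {P : ℕ}
    (hP : ∀ x ∈ S, |z x| ≤ (P : ℤ)) : #S ≤ (2 * P + 1) * Nat.card H := by
  classical
  have h1 : #S ≤ Nat.card H * #(Icc (-(P : ℤ)) P) := by
    refine card_le_mul_card_image_of_maps_to (f := z) ?_ _ ?_
    · intro x hx
      rw [mem_Icc]
      exact abs_le.1 (hP x hx)
    · intro b _
      refine card_le_of_coset H (q₀ + b • e) ?_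
      intro x hx
      rw [mem_filter] at hx
      have h2 := hz x hx.1
      rw [hx.2] at h2
      have h3 : x - (q₀ + b • e) = x - q₀ - b • e := by abel
      rw [h3]
      exact h2
  rw [Int.card_Icc] at h1
  have h2 : ((P : ℤ) + 1 - -(P : ℤ)).toNat = 2 * P + 1 := by omega
  rw [h2, mul_comm] at h1
  exact h1

/-! ### Numeric lemmas -/

theorem add_le_mul_add {o j : ℕ} (ho : 1 ≤ o) (hj : 1 ≤ j) : o + j ≤ o * j + 1 := by
  obtain ⟨a, rfl⟩ := Nat.exists_eq_add_of_le ho
  obtain ⟨b, rfl⟩ := Nat.exists_eq_add_of_le hj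
  have : (1 + a) * (1 + b) = 1 + a + b + a * b := by ring
  rw [this]
  omega

theorem min_add_min {t p m p₂ m₂ o : ℕ} (hX : min t p + min t m + min t p₂ + min t m₂ + 1 < o) :
    min t (p + m) + 1 < o := by omega

theorem num_last {n k t p m r loss o j oj G G' g₀ Sc Ac p₂ m₂ : ℕ}
    (hX : min t p + min t m + min t p₂ + min t m₂ + 1 < o) (hsum : p + m + r = k + t)
    (hk2 : n ≤ k + loss) (ht : t = min k (Sc - k)) (hkS : k ≤ Sc) (ht99 : 99 * n ≤ 100 * t)
    (hSc : Ac ≤ Sc + loss) (hA'c : 2 * n ≤ Ac + j + G) (h1 : r + oj + G' < 2 * n)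
    (h4 : G + g₀ ≤ G') (hlg : 2 * loss + 2 ≤ g₀) (h5 : o + j ≤ oj + 1) (hon : 2 * o ≤ n)
    (hj : 1 ≤ j) : False := by
  have h := min_add_min hX
  rcases Nat.le_total k (Sc - k) with hk | hk
  · rw [min_eq_left hk] at ht
    subst ht
    rcases Nat.le_total t (p + m) with h6 | h6
    · rw [min_eq_left h6] at h
      omega
    · rw [min_eq_right h6] at h
      omega
  · rw [min_eq_right hk] at ht
    subst ht
    rcases Nat.le_total (Sc - k) (p + m) with h6 | h6
    · rw [min_eq_left h6] at h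
      omega
    · rw [min_eq_right h6] at h
      omega

theorem num_mid {n k t p m r loss o p₂ m₂ : ℕ}
    (hX : min t p + min t m + min t p₂ + min t m₂ + 1 < o) (hsum : p + m + r = k + t)
    (hk2 : n ≤ k + loss) (ht99 : 99 * n ≤ 100 * t) (hr : r ≤ n + 1) (hon : 2 * o ≤ n)
    (hloss : 800 * loss ≤ n) (hn : 1000000 ≤ n) : False := by
  have h := min_add_min hX
  rcases Nat.le_total t (p + m) with h6 | h6
  · rw [min_eq_left h6] at h
    omega
  · rw [min_eq_right h6] at h
    omega

theorem num_two {n k t p m r p₂ m₂ : ℕ}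
    (hX : min t p + min t m + min t p₂ + min t m₂ + 1 < n) (hsum : p + m + r = k + t)
    (htk : t ≤ k) (hp : 2 * p ≤ k + t) (hm : 2 * m ≤ k + t)
    (ht99 : 99 * n ≤ 100 * t) (hr : 2 * r ≤ n) (hn : 1000000 ≤ n) : False := by
  have h : min t p + min t m < n := by omega
  rcases Nat.le_total t p with h1 | h1
  · rw [min_eq_left h1] at h
    rcases Nat.le_total t m with h2 | h2
    · rw [min_eq_left h2] at h
      omega
    · rw [min_eq_right h2] at h
      omega
  · rw [min_eq_right h1] at h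
    rcases Nat.le_total t m with h2 | h2
    · rw [min_eq_left h2] at h
      omega
    · rw [min_eq_right h2] at h
      omega

theorem num_one {n k t p m r p₂ m₂ loss : ℕ}
    (hX : min t p + min t m + min t p₂ + min t m₂ + 1 < n) (hsum : p + m + r = k + t)
    (htk : t ≤ k) (hkn : k ≤ n) (hp : 2 * p ≤ k + t) (hm : 2 * m ≤ k + t)
    (hkt : 2 * n ≤ k + t + 2 * loss + 1) (hr : r ≤ n) (hloss : 800 * loss ≤ n)
    (hn : 1000000 ≤ n) : p₂ + m₂ ≤ 4 * loss + 4 ∧ n ≤ r + 4 * loss + 5 := by
  have h1 : p ≤ min t p + (loss + 1) := by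
    rcases Nat.le_total t p with h1 | h1
    · rw [min_eq_left h1]
      omega
    · rw [min_eq_right h1]
      omega
  have h2 : m ≤ min t m + (loss + 1) := by
    rcases Nat.le_total t m with h1 | h1
    · rw [min_eq_left h1]
      omega
    · rw [min_eq_right h1]
      omega
  generalize min t p = a at *
  generalize min t m = b at *
  have h3 : min t p₂ + min t m₂ ≤ 4 * loss + 3 := by omega
  refine ⟨?_, by omega⟩
  rcases Nat.le_total t p₂ with h4 | h4
  · rw [min_eq_left h4] at h3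
    omega
  · rw [min_eq_right h4] at h3
    rcases Nat.le_total t m₂ with h5 | h5
    · rw [min_eq_left h5] at h3
      omega
    · rw [min_eq_right h5] at h3
      omega

end Pool.Agent.Lib.MPa7239a.GC
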