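import Pool.Agent.Lib.MP_a7239a_co.GC.CPY

/-!
# Selection
-/

open Finset

namespace Pool.Agent.Lib.MPa7239a.GC

/-- from `U₁` to `U₂` by single swaps -/
theorem path {G : Type*} [DecidableEq G] {S : Finset G} (z : G → ℤ) {Z : ℕ}
    (hz : ∀ x ∈ S, |z x| ≤ Z) {k : ℕ} {U₁ U₂ : Finset G} (h₁ : U₁ ⊆ S) (h₂ : U₂ ⊆ S)
    (hk₁ : #U₁ = k) (hk₂ : #U₂ = k) {τ : ℤ} (hτ₁ : ∑ x ∈ U₁, z x ≤ τ)
    (hτ₂ : τ ≤ ∑ x ∈ U₂, z x) :
    ∃ U ⊆ S, #U = k ∧ ∑ x ∈ U, z x ≤ τ ∧ τ ≤ ∑ x ∈ U, z x + 2 * Z := by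
  induction hN : #(U₂ \ U₁) generalizing U₁ with
  | zero =>
    have h3 : U₂ ⊆ U₁ := by
      rw [← sdiff_eq_empty_iff_subset]
      exact card_eq_zero.1 hN
    have h4 : U₂ = U₁ := eq_of_subset_of_card_le h3 (by rw [hk₁, hk₂])
    rw [h4] at hτ₂
    exact ⟨U₁, h₁, hk₁, hτ₁, by omega⟩
  | succ N ih =>
    obtain ⟨y, hy⟩ := card_pos.1 (show 0 < #(U₂ \ U₁) by omega)
    have h3 : 0 < #(U₁ \ U₂) := by
      have h4 := card_sdiff_add_card_inter U₁ U₂
      have h5 := card_sdiff_add_card_inter U₂ U₁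
      rw [inter_comm] at h5
      omega
    obtain ⟨x, hx⟩ := card_pos.1 h3
    rw [mem_sdiff] at hx hy
    have hyn : y ∉ U₁.erase x := fun h => hy.2 (mem_of_mem_erase h)
    have hs : ∑ a ∈ insert y (U₁.erase x), z a = ∑ a ∈ U₁, z a - z x + z y := by
      rw [sum_insert hyn, ← add_sum_erase U₁ z hx.1]
      ring
    have hzx := abs_le.1 (hz x (h₁ hx.1))
    have hzy := abs_le.1 (hz y (h₂ hy.1))
    by_cases hcase : ∑ a ∈ insert y (U₁.erase x), z a ≤ τ
    · apply ih (U₁ := insert y (U₁.erase x)) ?_ ?_ hcase ?_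
      · refine insert_subset (h₂ hy.1) ((erase_subset _ _).trans h₁)
      · rw [card_insert_of_notMem hyn, card_erase_of_mem hx.1, hk₁]
        have : 0 < #U₁ := card_pos.2 ⟨x, hx.1⟩
        omega
      · have h6 : U₂ \ insert y (U₁.erase x) = (U₂ \ U₁).erase y := by
          ext a
          simp only [mem_sdiff, mem_insert, mem_erase]
          constructor
          · rintro ⟨h7, h8⟩
            push Not at h8
            refine ⟨h8.1, h7, fun h9 => ?_⟩
            by_cases hax : a = x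
            · subst hax
              exact hx.2 h7
            · exact h8.2 hax h9
          · rintro ⟨h7, h8, h9⟩
            refine ⟨h8, ?_⟩
            rintro (h10 | ⟨_, h10⟩)
            · exact h7 h10
            · exact h9 h10
        rw [h6, card_erase_of_mem (mem_sdiff.2 hy), hN]
        rfl
    · push Not at hcase
      exact ⟨U₁, h₁, hk₁, hτ₁, by omega⟩

variable {G : Type*} [AddCommGroup G] [DecidableEq G] {H : AddSubgroup G}

/-- an integer combination modulo `H` of the elements of a set -/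
theorem sum_mod {A : Finset G} {e q₀ : G} (hgen : ∀ x ∈ A, ∃ a : ℤ, x - q₀ - a • e ∈ H)
    (T : Finset G) (hT : T ⊆ A) : ∃ a : ℤ, ∑ x ∈ T, x - #T • q₀ - a • e ∈ H := by
  induction T using Finset.induction_on with
  | empty => exact ⟨0, by simp⟩
  | insert x T hx ih =>
    obtain ⟨a, ha⟩ := ih ((subset_insert _ _).trans hT)
    obtain ⟨a', ha'⟩ := hgen x (hT (mem_insert_self _ _))
    refine ⟨a' + a, ?_⟩
    rw [sum_insert hx, card_insert_of_notMem hx, succ_nsmul, add_smul]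
    have := H.add_mem ha ha'
    convert this using 1
    abel

/-- the sum over a subset of `S` -/
theorem sum_S {S : Finset G} {e q₀ : G} (z : G → ℤ) (hz : ∀ x ∈ S, x - q₀ - z x • e ∈ H)
    (T : Finset G) (hT : T ⊆ S) : ∑ x ∈ T, x - #T • q₀ - (∑ x ∈ T, z x) • e ∈ H := by
  induction T using Finset.induction_on with
  | empty => simp
  | insert x T hx ih =>
    have h1 := ih ((subset_insert _ _).trans hT)
    have h2 := hz x (hT (mem_insert_self _ _))
    rw [sum_insert hx, sum_insert hx, card_insert_of_notMem hx, succ_nsmul, add_smul]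
    have := H.add_mem h1 h2
    convert this using 1
    abel

/-- adjusting by `j • e`, `0 ≤ j ≤ t` -/
theorem adjust {t : ℕ} (V : ℕ → Finset G)
    (hd : ∀ i < t, ∀ j < t, i ≠ j → Disjoint (V i) (V j)) {e : G}
    (hsw : ∀ i < t, Sw H (V i) e) :
    ∃ (s : ℕ) (μ : G), ∀ j ≤ t, ∃ X ⊆ (range t).biUnion V, #X = s ∧
      ∑ x ∈ X, x - μ - j • e ∈ H := by
  induction t with
  | zero => exact ⟨0, 0, fun j hj => ⟨∅, empty_subset _, card_empty, by
      have : j = 0 := by omega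
      subst this
      simp⟩⟩
  | succ t ih =>
    obtain ⟨s, μ, h1⟩ := ih (fun i hi j hj => hd i (by omega) j (by omega))
      (fun i hi => hsw i (by omega))
    obtain ⟨P, M, hP, hM, hPM, hc, hs⟩ := hsw t (by omega)
    have hdis : ∀ X ⊆ (range t).biUnion V, ∀ Y ⊆ V t, Disjoint X Y := by
      intro X hX Y hY
      rw [Finset.disjoint_left]
      intro a ha ha'
      obtain ⟨i, hi, hai⟩ := mem_biUnion.1 (hX ha)
      rw [mem_range] at hi
      exact Finset.disjoint_left.1 (hd i (by omega) t (by omega) (by omega)) hai (hY ha')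
    have hsub : ∀ X ⊆ (range t).biUnion V, ∀ Y ⊆ V t, X ∪ Y ⊆ (range (t + 1)).biUnion V := by
      intro X hX Y hY a ha
      rcases mem_union.1 ha with h | h
      · obtain ⟨i, hi, hai⟩ := mem_biUnion.1 (hX h)
        rw [mem_range] at hi
        exact mem_biUnion.2 ⟨i, mem_range.2 (by omega), hai⟩
      · exact mem_biUnion.2 ⟨t, mem_range.2 (by omega), hY h⟩
    refine ⟨s + #M, μ + ∑ x ∈ M, x, fun j hj => ?_⟩
    rcases Nat.lt_or_ge t j with h | h
    · have hj' : j = t + 1 := by omega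
      subst hj'
      obtain ⟨X, hX, hXc, hXs⟩ := h1 t le_rfl
      refine ⟨X ∪ P, hsub X hX P hP, ?_, ?_⟩
      · rw [card_union_of_disjoint (hdis X hX P hP), hXc, hc]
      · rw [sum_union (hdis X hX P hP), succ_nsmul]
        have := H.add_mem hXs hs
        convert this using 1
        abel
    · obtain ⟨X, hX, hXc, hXs⟩ := h1 j h
      refine ⟨X ∪ M, hsub X hX M hM, ?_, ?_⟩
      · rw [card_union_of_disjoint (hdis X hX M hM), hXc]
      · rw [sum_union (hdis X hX M hM)]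
        convert hXs using 1
        abel

theorem select {A R S : Finset G} {V : ℕ → Finset G} {w b : ℕ} (hR : R ⊆ A) (hfill : Fills H R)
    (hbox : Boxes H (A \ R) w b V S) {e q₀ : G} {C Z n loss o : ℕ}
    (he : (e : G ⧸ H) ∈ ball (Dif H S) C) (hC : 2 * Z * C ≤ w) (hq₀ : n • q₀ = 0)
    (z : G → ℤ) (hz : ∀ x ∈ S, x - q₀ - z x • e ∈ H) (hzb : ∀ x ∈ S, |z x| ≤ Z)
    (ho : 0 < o) (hoe : o • e ∈ H) (hgen : ∀ x ∈ A, ∃ a : ℤ, x - q₀ - a • e ∈ H)
    (hloss : #R + w * b ≤ loss) (hln : loss ≤ n)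
    (hwin : ∀ k ≤ n, n ≤ k + loss → ∃ U₁ ⊆ S, ∃ U₂ ⊆ S, #U₁ = k ∧ #U₂ = k ∧
      ∑ x ∈ U₁, z x + o ≤ ∑ x ∈ U₂, z x + 1) : Hit A n 0 := by
  obtain ⟨r, c, hfill⟩ := hfill
  obtain ⟨V', hV', hVd, hVs⟩ := copies hbox (k := C) (t := 2 * Z) hC he
  obtain ⟨s, μ, hadj⟩ := adjust V' hVd hVs
  -- the union of the boxes
  set W := (range w).biUnion V with hW
  have hWsub : (range (2 * Z)).biUnion V' ⊆ W := by
    intro a ha
    obtain ⟨i, hi, hai⟩ := mem_biUnion.1 ha
    exact hV' i (mem_range.1 hi) hai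
  have hWc : #W ≤ w * b := by
    refine card_biUnion_le.trans ?_
    calc ∑ i ∈ range w, #(V i) ≤ ∑ _i ∈ range w, b :=
          sum_le_sum fun i hi => hbox.card i (mem_range.1 hi)
      _ = w * b := by rw [sum_const, card_range, smul_eq_mul]
  have hWX : W ⊆ A \ R := by
    intro a ha
    obtain ⟨i, hi, hai⟩ := mem_biUnion.1 ha
    exact hbox.sub i (mem_range.1 hi) hai
  have hWS : Disjoint W S := by
    rw [Finset.disjoint_left]
    intro a ha ha'
    obtain ⟨i, hi, hai⟩ := mem_biUnion.1 ha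
    exact Finset.disjoint_left.1 (hbox.sdisj i (mem_range.1 hi)) hai ha'
  -- the sums modulo `H`
  obtain ⟨T₀, hT₀, hT₀c, hT₀s⟩ := hfill 0 H.zero_mem
  rw [add_zero] at hT₀s
  obtain ⟨a₁, ha₁⟩ := sum_mod hgen T₀ (hT₀.trans hR)
  rw [hT₀s, hT₀c] at ha₁
  obtain ⟨X₀, hX₀, hX₀c, hX₀s⟩ := hadj 0 (Nat.zero_le _)
  rw [zero_nsmul, sub_zero] at hX₀s
  obtain ⟨a₂, ha₂⟩ := sum_mod hgen X₀ (((hX₀.trans hWsub).trans hWX).trans sdiff_subset)
  rw [hX₀c] at ha₂
  have ha₂' : μ - s • q₀ - a₂ • e ∈ H := by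
    have := H.sub_mem ha₂ hX₀s
    convert this using 1
    abel
  have hrR : r ≤ #R := by
    rw [← hT₀c]
    exact card_le_card hT₀
  have hsW : s ≤ w * b := by
    rw [← hX₀c]
    exact (card_le_card (hX₀.trans hWsub)).trans hWc
  -- the window
  obtain ⟨U₁, hU₁, U₂, hU₂, hc₁, hc₂, hwin⟩ := hwin (n - (r + s)) (by omega) (by omega)
  set σ := ∑ x ∈ U₁, z x with hσ
  set τ := σ + (-(a₁ + a₂) - σ) % (o : ℤ) with hτ
  have ho' : (0 : ℤ) < o := by exact_mod_cast ho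
  have hm1 := Int.emod_nonneg (-(a₁ + a₂) - σ) ho'.ne'
  have hm2 := Int.emod_lt_of_pos (-(a₁ + a₂) - σ) ho'
  obtain ⟨U, hU, hUc, hUτ, hUτ'⟩ := path z hzb hU₁ hU₂ hc₁ hc₂ (τ := τ) (by omega) (by omega)
  obtain ⟨j, hj⟩ := Int.eq_ofNat_of_zero_le (show 0 ≤ τ - ∑ x ∈ U, z x by omega)
  obtain ⟨X, hX, hXc, hXs⟩ := hadj j (by omega)
  have hUs := sum_S z hz U hU
  rw [hUc] at hUs
  -- the total is in `H`
  obtain ⟨d, hd⟩ : (o : ℤ) ∣ τ + (a₁ + a₂) := by
    have h1 := Int.emod_add_mul_ediv (-(a₁ + a₂) - σ) o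
    refine ⟨-((-(a₁ + a₂) - σ) / o), ?_⟩
    rw [hτ]
    linarith
  have htot : c + ∑ x ∈ X, x + ∑ x ∈ U, x ∈ H := by
    have h1 : (a₁ + a₂ + j + ∑ x ∈ U, z x) • e ∈ H := by
      have h2 : a₁ + a₂ + j + ∑ x ∈ U, z x = d * o := by
        rw [mul_comm d, ← hd]
        omega
      rw [h2, mul_smul]
      refine H.zsmul_mem ?_ d
      rw [natCast_zsmul]
      exact hoe
    have h3 : (r + (s + (n - (r + s)))) • q₀ = 0 := by
      rw [show r + (s + (n - (r + s))) = n by omega, hq₀]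
    rw [add_nsmul, add_nsmul] at h3
    have h4 := H.add_mem (H.add_mem (H.add_mem ha₁ ha₂') (H.add_mem hXs hUs)) h1
    convert h4 using 1
    rw [add_smul, add_smul, add_smul, natCast_zsmul]
    have h5 : c + ∑ x ∈ X, x + ∑ x ∈ U, x = c + ∑ x ∈ X, x + ∑ x ∈ U, x -
      (r • q₀ + (s • q₀ + (n - (r + s)) • q₀)) := by rw [h3, sub_zero]
    rw [h5]
    abel
  obtain ⟨T, hT, hTc, hTs⟩ := hfill (-(c + ∑ x ∈ X, x + ∑ x ∈ U, x)) (H.neg_mem htot)
  have hXW : X ⊆ W := hX.trans hWsub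
  have hd1 : Disjoint T X := by
    rw [Finset.disjoint_left]
    intro a ha ha'
    exact (mem_sdiff.1 (hWX (hXW ha'))).2 (hT ha)
  have hd2 : Disjoint (T ∪ X) U := by
    rw [Finset.disjoint_left]
    intro a ha ha'
    rcases mem_union.1 ha with h | h
    · exact (mem_sdiff.1 (hbox.ssub (hU ha'))).2 (hT h)
    · exact Finset.disjoint_left.1 hWS (hXW h) (hU ha')
  refine ⟨T ∪ X ∪ U, ?_, ?_, ?_⟩
  · refine union_subset (union_subset (hT.trans hR) ((hXW.trans hWX).trans sdiff_subset)) ?_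
    exact (hU.trans hbox.ssub).trans sdiff_subset
  · rw [card_union_of_disjoint hd2, card_union_of_disjoint hd1, hTc, hXc, hUc]
    omega
  · rw [sum_union hd2, sum_union hd1, hTs]
    abel

end Pool.Agent.Lib.MPa7239a.GC
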