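import Mathlib

/-!
# The window of the `k`-subset sums around the median
-/

open Finset

namespace Pool.Agent.Lib.MPa7239a.GC

/-- a median -/
theorem exists_median {G : Type*} (S : Finset G) (z : G → ℤ) :
    ∃ ρ : ℤ, 2 * #(S.filter (fun x => ρ < z x)) ≤ #S ∧
      2 * #(S.filter (fun x => z x < ρ)) ≤ #S := by
  rcases S.eq_empty_or_nonempty with h | hne
  · subst h
    exact ⟨0, by simp, by simp⟩
  set X := S.filter (fun x => 2 * #(S.filter (fun y => z x < z y)) ≤ #S) with hX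
  have hXne : X.Nonempty := by
    obtain ⟨x, hx, hmax⟩ := exists_max_image S z hne
    refine ⟨x, mem_filter.2 ⟨hx, ?_⟩⟩
    rw [filter_eq_empty_iff.2 fun y hy => not_lt.2 (hmax y hy)]
    simp
  obtain ⟨x, hx, hmin⟩ := exists_min_image X z hXne
  refine ⟨z x, (mem_filter.1 hx).2, ?_⟩
  rcases (S.filter (fun y => z y < z x)).eq_empty_or_nonempty with h | h
  · rw [h]
    simp
  · obtain ⟨y, hy, hmax⟩ := exists_max_image _ z h
    rw [mem_filter] at hy
    have h1 : y ∉ X := fun hyX => not_lt.2 (hmin y hyX) hy.2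
    rw [hX, mem_filter, not_and, not_le] at h1
    have h2 := h1 hy.1
    have h3 : S.filter (fun w => z y < z w) ⊆ S.filter (fun w => ¬ z w < z x) := by
      intro w hw
      rw [mem_filter] at hw ⊢
      refine ⟨hw.1, fun h4 => ?_⟩
      exact not_lt.2 (hmax w (mem_filter.2 ⟨hw.1, h4⟩)) hw.2
    have h4 := card_le_card h3
    have h5 := card_filter_add_card_filter_not (s := S) (fun w => z w < z x)
    omega

/-- the `t` largest elements -/
theorem exists_top {G : Type*} [DecidableEq G] (S : Finset G) (z : G → ℤ) {t : ℕ}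
    (ht : t ≤ #S) : ∃ T ⊆ S, #T = t ∧ ∀ x ∈ T, ∀ y ∈ S \ T, z y ≤ z x := by
  induction t with
  | zero => exact ⟨∅, empty_subset _, card_empty, by simp⟩
  | succ t ih =>
    obtain ⟨T, hT, hTc, hTz⟩ := ih (by omega)
    have hne : (S \ T).Nonempty := by
      rw [← card_pos, card_sdiff_of_subset hT]
      omega
    obtain ⟨y, hy, hmax⟩ := exists_max_image (S \ T) z hne
    rw [mem_sdiff] at hy
    refine ⟨insert y T, insert_subset hy.1 hT, by rw [card_insert_of_notMem hy.2, hTc], ?_⟩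
    intro x hx w hw
    rw [mem_sdiff, mem_insert, not_or] at hw
    rcases mem_insert.1 hx with h | h
    · rw [h]
      exact hmax w (mem_sdiff.2 ⟨hw.1, hw.2.2⟩)
    · exact hTz x h w (mem_sdiff.2 ⟨hw.1, hw.2.2⟩)

theorem top_filter {G : Type*} [DecidableEq G] {S T : Finset G} {z : G → ℤ}
    (hTz : ∀ x ∈ T, ∀ y ∈ S \ T, z y ≤ z x) (c : ℤ) :
    min #T #(S.filter (fun x => c < z x)) ≤ #(T.filter (fun x => c < z x)) := by
  by_cases h : ∀ x ∈ T, c < z x
  · rw [filter_true_of_mem h]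
    exact min_le_left _ _
  · push Not at h
    obtain ⟨x, hx, hxc⟩ := h
    refine (min_le_right _ _).trans (card_le_card ?_)
    intro y hy
    rw [mem_filter] at hy ⊢
    refine ⟨?_, hy.2⟩
    by_contra hyT
    have := hTz x hx y (mem_sdiff.2 ⟨hy.1, hyT⟩)
    omega

/-- the sum of the `t` largest elements -/
theorem top_sum {G : Type*} [DecidableEq G] (S : Finset G) (z : G → ℤ) {t : ℕ} {ρ : ℤ}
    (ht : 2 * t ≤ #S) (hρ : 2 * #(S.filter (fun x => z x < ρ)) ≤ #S) :
    ∃ T ⊆ S, #T = t ∧ (t : ℤ) * ρ + (min t #(S.filter (fun x => ρ < z x)) : ℕ) +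
      (min t #(S.filter (fun x => ρ + 1 < z x)) : ℕ) ≤ ∑ x ∈ T, z x := by
  obtain ⟨T, hT, hTc, hTz⟩ := exists_top S z (t := t) (by omega)
  refine ⟨T, hT, hTc, ?_⟩
  have h1 := top_filter hTz ρ
  have h2 := top_filter hTz (ρ + 1)
  rw [hTc] at h1 h2
  have h3 : ∀ x ∈ T, ρ ≤ z x := by
    intro x hx
    by_contra hcon
    push Not at hcon
    have h4 : insert x (S \ T) ⊆ S.filter (fun x => z x < ρ) := by
      intro y hy
      rw [mem_filter]
      rcases mem_insert.1 hy with h | h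
      · rw [h]
        exact ⟨hT hx, hcon⟩
      · exact ⟨(mem_sdiff.1 h).1, (hTz x hx y h).trans_lt hcon⟩
    have h5 := card_le_card h4
    rw [card_insert_of_notMem (fun h => (mem_sdiff.1 h).2 hx), card_sdiff_of_subset hT] at h5
    omega
  have h6 : ∑ x ∈ T, (ρ + (if ρ < z x then 1 else 0) + (if ρ + 1 < z x then 1 else 0)) ≤
      ∑ x ∈ T, z x := by
    refine sum_le_sum fun x hx => ?_
    have := h3 x hx
    split_ifs <;> omega
  rw [sum_add_distrib, sum_add_distrib, sum_const, hTc, nsmul_eq_mul, sum_boole, sum_boole] at h6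
  have h7 : ((min t #(S.filter (fun x => ρ < z x)) : ℕ) : ℤ) ≤
      (#(T.filter (fun x => ρ < z x)) : ℤ) := by exact_mod_cast h1
  have h8 : ((min t #(S.filter (fun x => ρ + 1 < z x)) : ℕ) : ℤ) ≤
      (#(T.filter (fun x => ρ + 1 < z x)) : ℤ) := by exact_mod_cast h2
  linarith

/-- **window** -/
theorem window {G : Type*} [DecidableEq G] (S : Finset G) (z : G → ℤ) {k t : ℕ} (htk : t ≤ k)
    (hS : #S = k + t) :
    ∃ ρ : ℤ, 2 * #(S.filter (fun x => ρ < z x)) ≤ #S ∧
      2 * #(S.filter (fun x => z x < ρ)) ≤ #S ∧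
      ∃ U₁ ⊆ S, ∃ U₂ ⊆ S, #U₁ = k ∧ #U₂ = k ∧
        ∑ x ∈ U₁, z x + ((min t #(S.filter (fun x => ρ < z x)) +
          min t #(S.filter (fun x => z x < ρ)) +
          min t #(S.filter (fun x => ρ + 1 < z x)) +
          min t #(S.filter (fun x => z x < ρ - 1)) : ℕ) : ℤ) ≤ ∑ x ∈ U₂, z x := by
  obtain ⟨ρ, h1, h2⟩ := exists_median S z
  obtain ⟨T, hT, hTc, hTs⟩ := top_sum S z (t := t) (ρ := ρ) (by omega) h2
  have h3 : ∀ c : ℤ, S.filter (fun x => -c < -z x) = S.filter (fun x => z x < c) := by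
    intro c
    refine filter_congr fun x _ => neg_lt_neg_iff
  have h4 : S.filter (fun x => -z x < -ρ) = S.filter (fun x => ρ < z x) :=
    filter_congr fun x _ => neg_lt_neg_iff
  obtain ⟨B, hB, hBc, hBs⟩ := top_sum S (fun x => -z x) (t := t) (ρ := -ρ) (by omega)
    (by rw [h4]; exact h1)
  have h5 : S.filter (fun x => -ρ + 1 < -z x) = S.filter (fun x => z x < ρ - 1) := by
    refine filter_congr fun x _ => ?_
    constructor <;> intro h <;> omega
  rw [h3, h5, sum_neg_distrib] at hBs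
  refine ⟨ρ, h1, h2, S \ T, sdiff_subset, S \ B, sdiff_subset, ?_, ?_, ?_⟩
  · rw [card_sdiff_of_subset hT]
    omega
  · rw [card_sdiff_of_subset hB]
    omega
  · have h6 := sum_sdiff (f := z) hT
    have h7 := sum_sdiff (f := z) hB
    push_cast at *
    nlinarith

end Pool.Agent.Lib.MPa7239a.GC
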