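import Pool.Agent.Lib.MP_a7239a_co.GC.MainB
import Pool.Agent.Lib.MP_a7239a_co.GC.SEL
import Pool.Agent.Lib.MP_a7239a_co.GC.WIN
import Pool.Agent.Lib.MP_a7239a_co.GC.DL
import Pool.Agent.Lib.MP_a7239a_co.GC.EE

/-!
# The upper bound
-/

open Finset

namespace Pool.Agent.Lib.MPa7239a.GC

/-- dense coset or bound for the rows -/
theorem row_le {n : ℕ} [NeZero n] {A : Finset (ZMod n × ZMod n)} (hno : ¬ Hit A n 0)
    (K : AddSubgroup (ZMod n × ZMod n)) (hK : Nat.card K < 2 * n) {B : Finset (ZMod n × ZMod n)}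
    (hBA : B ⊆ A) (x₀ : ZMod n × ZMod n) (hB : ∀ x ∈ B, x - x₀ ∈ K) : #B ≤ n + 1 := by
  by_contra hlt
  push Not at hlt
  refine hno (Hit.mono hBA (dense_coset four_solutions K B x₀ hB (by omega) (by omega) ?_))
  rw [n_nsmul, sub_zero]
  exact K.zero_mem

/-- the minimal coset -/
theorem exists_minimal {n g₀ : ℕ} [NeZero n] (hn : 2 ≤ n) {A : Finset (ZMod n × ZMod n)}
    (hA : 2 * n ≤ #A + 1) :
    ∃ (K : AddSubgroup (ZMod n × ZMod n)) (x₀ : ZMod n × ZMod n) (A' : Finset (ZMod n × ZMod n)),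
      A' ⊆ A ∧ (∀ x ∈ A', x - x₀ ∈ K) ∧ (K = ⊤ → A' = A) ∧ 2 * K.index ≤ n ∧
      2 * n ≤ #A' + K.index + g₀ * (1 + Nat.log 2 K.index) ∧
      ∀ (K' : AddSubgroup (ZMod n × ZMod n)) (y : ZMod n × ZMod n) (B : Finset (ZMod n × ZMod n)),
        B ⊆ A → (∀ x ∈ B, x - y ∈ K') → 2 * K'.index ≤ n → Nat.card K' < Nat.card K →
        #B + K'.index + g₀ * (1 + Nat.log 2 K'.index) < 2 * n := by
  classical
  have hex : ∃ m, ∃ (K : AddSubgroup (ZMod n × ZMod n)) (x₀ : ZMod n × ZMod n),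
      Nat.card K = m ∧ 2 * K.index ≤ n ∧
      2 * n ≤ #(A.filter (fun x => x - x₀ ∈ K)) + K.index + g₀ * (1 + Nat.log 2 K.index) := by
    refine ⟨_, ⊤, 0, rfl, ?_, ?_⟩
    · rw [AddSubgroup.index_top]
      omega
    · have h1 : A.filter (fun x => x - 0 ∈ (⊤ : AddSubgroup (ZMod n × ZMod n))) = A := by
        rw [filter_eq_self]
        intro x _
        exact AddSubgroup.mem_top _
      rw [h1, AddSubgroup.index_top]
      exact hA.trans (Nat.le_add_right _ _)
  obtain ⟨K, x₀, hKm, hK2, hKg⟩ := Nat.find_spec hex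
  refine ⟨K, x₀, A.filter (fun x => x - x₀ ∈ K), filter_subset _ _,
    fun x hx => (mem_filter.1 hx).2, ?_, hK2, hKg, ?_⟩
  · intro h
    rw [filter_eq_self]
    intro x _
    rw [h]
    exact AddSubgroup.mem_top _
  · intro K' y B hB hBK hK' hlt
    by_contra hle
    push Not at hle
    refine Nat.find_min hex (m := Nat.card K') (by rw [← hKm]; exact hlt) ⟨K', y, rfl, hK', ?_⟩
    have h1 : #B ≤ #(A.filter (fun x => x - y ∈ K')) :=
      card_le_card fun x hx => mem_filter.2 ⟨hB hx, hBK x hx⟩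
    omega

set_option linter.unusedVariables false in
theorem upper_of {n ℓ w Λ₀ Λ κ : ℕ} (hℓ : n < 2 ^ ℓ)
    (hb : (3 * ℓ + 1) * n ^ 2 < 2 ^ (3 * ℓ)) (hw₁ : 36000 * ℓ ^ 3 * w ≤ n) (hw₂ : n ≤ Λ₀ * w)
    (hΛ₀ : 1000 ≤ Λ₀) (hΛ : Λ₀ ≤ Λ) (hκ : 7 * Λ ^ 2 ≤ 2 ^ κ)
    (hbig : (4 * Λ ^ 2) ^ (4 * κ + 13) ≤ n)
    (hlin : ∀ A' : Finset (ZMod n × ZMod n), Lin A' ℓ w Λ κ) {A : Finset (ZMod n × ZMod n)}
    (hA : (Odd n ∧ #A + 1 = 2 * n) ∨ #A = 2 * n + 1) : Hit A n 0 := by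
  classical
  by_contra hno
  -- sizes
  have hP1 : 4000000 ≤ 4 * Λ ^ 2 := by nlinarith
  have hnbig : 1000000 ≤ n := by
    have h1 : (4 * Λ ^ 2) ^ 1 ≤ (4 * Λ ^ 2) ^ (4 * κ + 13) := pow_bound (by omega) (by omega)
    rw [pow_one] at h1
    omega
  have : NeZero n := ⟨by omega⟩
  have hw0 : 1 ≤ w := by
    rcases Nat.eq_zero_or_pos w with h | h
    · rw [h, mul_zero] at hw₂
      omega
    · exact h
  have hℓ10 : 10 ≤ ℓ := by
    by_contra h
    push Not at h
    have h1 : (2 : ℕ) ^ ℓ ≤ 2 ^ 10 := Nat.pow_le_pow_right (by norm_num) h.le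
    norm_num at h1
    omega
  obtain ⟨c, hc⟩ : ∃ c, c = w * (2 * (3 * ℓ)) := ⟨_, rfl⟩
  obtain ⟨loss, hlossd⟩ : ∃ loss, loss = (2 * ℓ + 1) * (w * (2 * (3 * ℓ))) := ⟨_, rfl⟩
  obtain ⟨g₀, hg₀d⟩ : ∃ g₀, g₀ = n / (400 * ℓ) := ⟨_, rfl⟩
  have hg₀ : 400 * ℓ * g₀ ≤ n := by
    rw [hg₀d]
    exact Nat.mul_div_le _ _
  have hlg : 2 * loss + 2 ≤ g₀ := by
    rw [hg₀d, Nat.le_div_iff_mul_le (by omega), hlossd]
    refine le_trans ?_ hw₁
    have e1 : (2 * ((2 * ℓ + 1) * (w * (2 * (3 * ℓ)))) + 2) * (400 * ℓ) =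
        9600 * (ℓ ^ 3 * w) + 4800 * (ℓ ^ 2 * w) + 800 * ℓ := by ring
    have e2 : 36000 * ℓ ^ 3 * w = 36000 * (ℓ ^ 3 * w) := by ring
    have e3 : ℓ ^ 2 * w ≤ ℓ ^ 3 * w := Nat.mul_le_mul_right _ (Nat.pow_le_pow_right (by omega)
      (by norm_num))
    have e4 : ℓ ≤ ℓ ^ 3 * w := by
      calc ℓ = ℓ ^ 1 * 1 := by ring
        _ ≤ ℓ ^ 3 * w := Nat.mul_le_mul (Nat.pow_le_pow_right (by omega) (by norm_num)) hw0
    rw [e1, e2]
    omega
  have hg₁ : 4000 * g₀ ≤ n := by nlinarith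
  have hloss800 : 800 * loss ≤ n := by omega
  have hA1 : 2 * n ≤ #A + 1 := by omega
  obtain ⟨K, x₀, A', hA'A, hA'K, htop, hKn, hA'c, hmin⟩ := exists_minimal (g₀ := g₀) (by omega) hA1
  have hno' : ¬ Hit A' n 0 := fun h => hno (Hit.mono hA'A h)
  obtain ⟨j, hj⟩ : ∃ j, j = K.index := ⟨_, rfl⟩
  rw [← hj] at hKn hA'c
  have hj1 : 1 ≤ j := by
    rw [hj]
    exact Nat.pos_of_ne_zero AddSubgroup.index_ne_zero_of_finite
  have hlog : 1 + Nat.log 2 j ≤ ℓ := by
    have h1 : Nat.log 2 j < ℓ := Nat.log_lt_of_lt_pow (by omega) (by omega)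
    omega
  have hgj : 400 * (g₀ * (1 + Nat.log 2 j)) ≤ n := by
    have h1 : g₀ * (1 + Nat.log 2 j) ≤ g₀ * ℓ := Nat.mul_le_mul_left _ hlog
    nlinarith
  -- the structure
  obtain ⟨H, R, S, V, e, q₀, z, hRA, hfill, hbox, hq₀, heC, hz, hzb, hTF, hloss⟩ :=
    core (A := A') hℓ hb hw₂ hΛ₀ hΛ hκ hbig (by rw [← hlossd]; omega) (hlin A')
  rw [← hlossd] at hloss
  have hSA' : S ⊆ A' := hbox.ssub.trans sdiff_subset
  have hSA : S ⊆ A := hSA'.trans hA'A
  have hSc : #A' ≤ #S + loss := by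
    have h1 := hbox.loss
    have h2 : #(A' \ R) = #A' - #R := card_sdiff_of_subset hRA
    omega
  have hdiff : ∀ x ∈ A', ∀ y ∈ A', y - x ∈ K := by
    intro x hx y hy
    have h1 := K.sub_mem (hA'K y hy) (hA'K x hx)
    have h2 : y - x = y - x₀ - (x - x₀) := by abel
    rw [h2]
    exact h1
  have hHK : H ≤ K := fills_le hfill fun x hx y hy => hdiff x (hRA hx) y (hRA hy)
  have heK : e ∈ K := mem_of_ball hHK (fun x hx y hy => hdiff x (hSA' hx) y (hSA' hy)) heC
  have hKK : H ⊔ AddSubgroup.zmultiples e ≤ K := by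
    rw [sup_le_iff]
    refine ⟨hHK, ?_⟩
    rw [AddSubgroup.zmultiples_le]
    exact heK
  have hSK : ∀ x ∈ S, x - q₀ ∈ H ⊔ AddSubgroup.zmultiples e := by
    intro x hx
    have h1 : x - q₀ = (x - q₀ - z x • e) + z x • e := by abel
    rw [h1]
    exact AddSubgroup.add_mem_sup (hz x hx) (AddSubgroup.zsmul_mem_zmultiples e (z x))
  -- `K = H + ⟨e⟩`
  have hK2 : 2 * (H ⊔ AddSubgroup.zmultiples e).index ≤ n := by
    by_contra hlt
    push Not at hlt
    have h1 := card_mul_index' (H ⊔ AddSubgroup.zmultiples e)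
    have h2 : Nat.card (H ⊔ AddSubgroup.zmultiples e : AddSubgroup (ZMod n × ZMod n)) < 2 * n := by
      by_contra hle
      push Not at hle
      have h3 := Nat.mul_le_mul hle (show n + 1 ≤ 2 * (H ⊔ AddSubgroup.zmultiples e).index from hlt)
      have h4 : Nat.card (H ⊔ AddSubgroup.zmultiples e : AddSubgroup (ZMod n × ZMod n)) *
        (2 * (H ⊔ AddSubgroup.zmultiples e).index) = 2 * n ^ 2 := by rw [← h1]; ring
      rw [h4] at h3
      nlinarith
    have h3 := row_le hno _ h2 hSA q₀ hSK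
    omega
  have hKe : H ⊔ AddSubgroup.zmultiples e = K := by
    by_contra hne
    have hlt : H ⊔ AddSubgroup.zmultiples e < K := lt_of_le_of_ne hKK hne
    have h1 := hmin _ q₀ S hSA hSK hK2 (card_lt_of_lt hlt)
    have h2 := index_le_of_lt hlt
    rw [← hj] at h2
    have h3 := log_two_mul_le hj1 h2
    have h4 : g₀ * (1 + Nat.log 2 j) + g₀ ≤
        g₀ * (1 + Nat.log 2 (H ⊔ AddSubgroup.zmultiples e).index) := by
      calc g₀ * (1 + Nat.log 2 j) + g₀ = g₀ * (1 + (Nat.log 2 j + 1)) := by ring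
        _ ≤ _ := Nat.mul_le_mul_left _ (by omega)
    omega
  -- the order of `e`
  obtain ⟨o, ho⟩ : ∃ o, o = addOrderOf (e : (ZMod n × ZMod n) ⧸ H) := ⟨_, rfl⟩
  have hoj : H.index = o * j := by
    rw [index_eq H e, hKe, ← ho, ← hj]
  have ho0 : 0 < o := by
    rw [ho]
    exact addOrderOf_pos _
  have hoe : o • e ∈ H := by
    rw [← QuotientAddGroup.eq_zero_iff, QuotientAddGroup.mk_nsmul, ho]
    exact addOrderOf_nsmul_eq_zero _
  have hHc := card_mul_index' H
  rw [hoj] at hHc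
  have hgen : ∀ x ∈ A', ∃ a : ℤ, x - q₀ - a • e ∈ H := by
    intro x hx
    have h1 : x - q₀ ∈ K := hdiff q₀ (hSA' hq₀) x hx
    rw [← hKe, AddSubgroup.mem_sup] at h1
    obtain ⟨y, hy, y', hy', hyy⟩ := h1
    obtain ⟨a, rfl⟩ := AddSubgroup.mem_zmultiples_iff.1 hy'
    refine ⟨a, ?_⟩
    rw [← hyy, add_sub_cancel_right]
    exact hy
  have hCP : (2 * Λ) ^ κ ≤ (4 * Λ ^ 2) ^ κ := Nat.pow_le_pow_left (by nlinarith) _
  have hnP : (4 * Λ ^ 2) ^ (κ + 5) ≤ n := (pow_bound (by omega) (by omega)).trans hbig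
  have hCw : 2 * (4 * Λ ^ 2) * (2 * Λ) ^ κ ≤ w := by
    by_contra hlt
    push Not at hlt
    have h1 : Λ₀ * w < Λ₀ * (2 * (4 * Λ ^ 2) * (2 * Λ) ^ κ) :=
      Nat.mul_lt_mul_of_pos_left hlt (by omega)
    have h2 : Λ₀ * (2 * (4 * Λ ^ 2) * (2 * Λ) ^ κ) ≤ (4 * Λ ^ 2) ^ (κ + 5) := by
      have h3 : Λ₀ * 2 * (4 * Λ ^ 2) ≤ (4 * Λ ^ 2) ^ 5 := by
        have h4 : Λ₀ * 2 ≤ 4 * Λ ^ 2 := by nlinarith
        calc Λ₀ * 2 * (4 * Λ ^ 2) ≤ (4 * Λ ^ 2) * (4 * Λ ^ 2) :=
              Nat.mul_le_mul_right _ h4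
          _ = (4 * Λ ^ 2) ^ 2 := by ring
          _ ≤ _ := pow_bound (by omega) (by norm_num)
      calc Λ₀ * (2 * (4 * Λ ^ 2) * (2 * Λ) ^ κ)
          = (Λ₀ * 2 * (4 * Λ ^ 2)) * (2 * Λ) ^ κ := by ring
        _ ≤ (4 * Λ ^ 2) ^ 5 * (4 * Λ ^ 2) ^ κ := Nat.mul_le_mul h3 hCP
        _ = (4 * Λ ^ 2) ^ (κ + 5) := by ring
    omega
  have hSn : n + n / 4 ≤ #S := by omega
  -- the window
  have hwin : ∃ k, k ≤ n ∧ n ≤ k + loss ∧ ∀ U₁ ⊆ S, ∀ U₂ ⊆ S, #U₁ = k → #U₂ = k →
      ∑ x ∈ U₂, z x + 1 < ∑ x ∈ U₁, z x + o := by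
    by_contra hall
    push Not at hall
    refine hno' (select hRA hfill hbox heC hCw (n_nsmul q₀) z hz hzb ho0 hoe hgen hloss (by omega)
      ?_)
    intro k hk1 hk2
    obtain ⟨U₁, h1, U₂, h2, h3, h4, h5⟩ := hall k hk1 hk2
    exact ⟨U₁, h1, U₂, h2, h3, h4, h5⟩
  obtain ⟨k, hk1, hk2, hk3⟩ := hwin
  have ho2 : 2 ≤ o := by
    by_contra hlt
    push Not at hlt
    obtain ⟨U, hU, hUc⟩ := exists_subset_card_eq (show k ≤ #S by omega)
    have h1 := hk3 U hU U hU hUc hUc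
    have h2 : (o : ℤ) = 1 := by omega
    omega
  have hHltK : Nat.card H < Nat.card K := by
    apply card_lt_of_lt
    refine lt_of_le_of_ne hHK ?_
    intro h
    have h1 := hoj
    rw [h, ← hj] at h1
    nlinarith
  -- `o` is large
  have hoC : w < (2 * Λ) ^ κ * o := by
    by_contra hle
    push Not at hle
    have h1 := hTF _ o _ heC (by rw [ho]; exact addOrderOf_nsmul_eq_zero _) ho0 hle
    rw [h1, addOrderOf_zero] at ho
    omega
  have hrows := card_le_rows H z hz hzb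
  have hjsmall : 1000 * j ≤ n := by
    have h1 : n ≤ (2 * (4 * Λ ^ 2) + 1) * Nat.card H := by omega
    have h2 : (w * j) * n ≤ ((2 * (4 * Λ ^ 2) + 1) * (2 * Λ) ^ κ * n) * n := by
      calc (w * j) * n ≤ (((2 * Λ) ^ κ * o) * j) * ((2 * (4 * Λ ^ 2) + 1) * Nat.card H) :=
            Nat.mul_le_mul (Nat.mul_le_mul_right _ hoC.le) h1
        _ = (2 * (4 * Λ ^ 2) + 1) * (2 * Λ) ^ κ * (Nat.card H * (o * j)) := by ring
        _ = ((2 * (4 * Λ ^ 2) + 1) * (2 * Λ) ^ κ * n) * n := by rw [hHc]; ring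
    have h3 : w * j ≤ (2 * (4 * Λ ^ 2) + 1) * (2 * Λ) ^ κ * n :=
      Nat.le_of_mul_le_mul_right h2 (by omega)
    have h4 : w * j ≤ w * ((2 * (4 * Λ ^ 2) + 1) * (2 * Λ) ^ κ * Λ₀) := by
      calc w * j ≤ (2 * (4 * Λ ^ 2) + 1) * (2 * Λ) ^ κ * n := h3
        _ ≤ (2 * (4 * Λ ^ 2) + 1) * (2 * Λ) ^ κ * (Λ₀ * w) := Nat.mul_le_mul_left _ hw₂
        _ = _ := by ring
    have h5 : j ≤ (2 * (4 * Λ ^ 2) + 1) * (2 * Λ) ^ κ * Λ₀ :=
      Nat.le_of_mul_le_mul_left h4 hw0
    have h6 : 1000 * ((2 * (4 * Λ ^ 2) + 1) * (2 * Λ) ^ κ * Λ₀) ≤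
        (4 * Λ ^ 2) ^ (κ + 5) := by
      have h7 : 1000 * (2 * (4 * Λ ^ 2) + 1) * Λ₀ ≤ (4 * Λ ^ 2) ^ 5 := by
        have h8 : 1000 * Λ₀ ≤ 4 * Λ ^ 2 := by nlinarith
        have h9 : 2 * (4 * Λ ^ 2) + 1 ≤ (4 * Λ ^ 2) ^ 2 := by nlinarith
        calc 1000 * (2 * (4 * Λ ^ 2) + 1) * Λ₀
            = (1000 * Λ₀) * (2 * (4 * Λ ^ 2) + 1) := by ring
          _ ≤ (4 * Λ ^ 2) * (4 * Λ ^ 2) ^ 2 := Nat.mul_le_mul h8 h9
          _ = (4 * Λ ^ 2) ^ 3 := by ring
          _ ≤ _ := pow_bound (by omega) (by norm_num)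
      calc 1000 * ((2 * (4 * Λ ^ 2) + 1) * (2 * Λ) ^ κ * Λ₀)
          = (1000 * (2 * (4 * Λ ^ 2) + 1) * Λ₀) * (2 * Λ) ^ κ := by ring
        _ ≤ (4 * Λ ^ 2) ^ 5 * (4 * Λ ^ 2) ^ κ := Nat.mul_le_mul h7 hCP
        _ = (4 * Λ ^ 2) ^ (κ + 5) := by ring
    omega
  -- the numbers `t`, `p`, `m`
  obtain ⟨t, ht⟩ : ∃ t, t = min k (#S - k) := ⟨_, rfl⟩
  have htk : t ≤ k := by rw [ht]; exact min_le_left _ _
  have htS : k + t ≤ #S := by rw [ht]; omega
  have ht99 : 99 * n ≤ 100 * t := by rw [ht]; omega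
  obtain ⟨S', hS'S, hS'c⟩ := exists_subset_card_eq htS
  obtain ⟨ρ, hp, hm, U₁, hU₁, U₂, hU₂, hU₁c, hU₂c, hwU⟩ := window S' z htk hS'c
  have hX := hk3 U₁ (hU₁.trans hS'S) U₂ (hU₂.trans hS'S) hU₁c hU₂c
  obtain ⟨p, hpd⟩ : ∃ p, p = #(S'.filter (fun x => ρ < z x)) := ⟨_, rfl⟩
  obtain ⟨m, hmd⟩ : ∃ m, m = #(S'.filter (fun x => z x < ρ)) := ⟨_, rfl⟩
  obtain ⟨p₂, hp₂d⟩ : ∃ p₂, p₂ = #(S'.filter (fun x => ρ + 1 < z x)) := ⟨_, rfl⟩
  obtain ⟨m₂, hm₂d⟩ : ∃ m₂, m₂ = #(S'.filter (fun x => z x < ρ - 1)) := ⟨_, rfl⟩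
  rw [← hpd, ← hmd, ← hp₂d, ← hm₂d] at hwU
  rw [← hpd] at hp
  rw [← hmd] at hm
  have hX' : min t p + min t m + min t p₂ + min t m₂ + 1 < o := by
    have h1 : ((min t p + min t m + min t p₂ + min t m₂ : ℕ) : ℤ) + 1 < o := by linarith
    exact_mod_cast h1
  obtain ⟨r, hrd⟩ : ∃ r, r = #(S'.filter (fun x => z x = ρ)) := ⟨_, rfl⟩
  have hsum : p + m + r = k + t := by
    have h1 : S' = (S'.filter (fun x => ρ < z x) ∪ S'.filter (fun x => z x < ρ)) ∪
        S'.filter (fun x => z x = ρ) := by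
      ext x
      simp only [mem_union, mem_filter]
      constructor
      · intro hx
        rcases lt_trichotomy (z x) ρ with h | h | h
        · exact Or.inl (Or.inr ⟨hx, h⟩)
        · exact Or.inr ⟨hx, h⟩
        · exact Or.inl (Or.inl ⟨hx, h⟩)
      · rintro ((h | h) | h)
        · exact h.1
        · exact h.1
        · exact h.1
    have h2 : Disjoint (S'.filter (fun x => ρ < z x)) (S'.filter (fun x => z x < ρ)) := by
      rw [disjoint_filter]
      intro x _ h3 h4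
      omega
    have h3 : Disjoint (S'.filter (fun x => ρ < z x) ∪ S'.filter (fun x => z x < ρ))
        (S'.filter (fun x => z x = ρ)) := by
      rw [disjoint_union_left, disjoint_filter, disjoint_filter]
      refine ⟨?_, ?_⟩
      · intro x _ h3 h4
        omega
      · intro x _ h3 h4
        omega
    rw [← hS'c, hpd, hmd, hrd]
    conv_rhs => rw [h1]
    rw [card_union_of_disjoint h3, card_union_of_disjoint h2]
  have hrow : ∀ i : ℤ, ∀ x ∈ S'.filter (fun x => z x = i), x - (q₀ + i • e) ∈ H := by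
    intro i x hx
    rw [mem_filter] at hx
    have h1 := hz x (hS'S hx.1)
    rw [hx.2] at h1
    have h2 : x - (q₀ + i • e) = x - q₀ - i • e := by abel
    rw [h2]
    exact h1
  have hrA : ∀ i : ℤ, S'.filter (fun x => z x = i) ⊆ A := fun i =>
    (filter_subset _ _).trans (hS'S.trans hSA)
  rcases Nat.lt_or_ge n (2 * o) with hon | hon
  · -- `o = n`
    have hodvd : o ∣ n := by
      rw [ho]
      apply addOrderOf_dvd_of_nsmul_eq_zero
      rw [← QuotientAddGroup.mk_nsmul, n_nsmul]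
      rfl
    have hon' : o = n := by
      obtain ⟨a, ha⟩ := hodvd
      have h1 : a < 2 := by
        by_contra h
        push Not at h
        have : 2 * o ≤ o * a := by rw [mul_comm]; exact Nat.mul_le_mul_left _ h
        omega
      have h2 : a ≠ 0 := by
        rintro rfl
        omega
      have h3 : a = 1 := by omega
      rw [h3, mul_one] at ha
      exact ha.symm
    rw [hon'] at hHc hX'
    have hHcj : Nat.card H * j = n := by
      have h1 : Nat.card H * j * n = n * n := by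
        calc Nat.card H * j * n = Nat.card H * (n * j) := by ring
          _ = n * n := by rw [hHc]; ring
      exact Nat.eq_of_mul_eq_mul_right (by omega) h1
    have hrH : ∀ i : ℤ, #(S'.filter (fun x => z x = i)) ≤ Nat.card H := fun i =>
      card_le_of_coset H _ (hrow i)
    have hrle := hrH ρ
    rw [← hrd] at hrle
    rcases Nat.lt_or_ge j 2 with hj2 | hj2
    · -- `j = 1`
      have hj1' : j = 1 := by omega
      rw [hj1', mul_one] at hHcj
      rw [hHcj] at hrle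
      have hKtop : K = ⊤ := by
        rw [hj1'] at hj
        exact AddSubgroup.index_eq_one.1 hj.symm
      have hA'eq := htop hKtop
      have hkt : 2 * n ≤ k + t + 2 * loss + 1 := by
        rw [hA'eq] at hSc
        rw [ht]
        omega
      obtain ⟨s₁, hs₁⟩ : ∃ s₁, s₁ = #(S'.filter (fun x => z x = ρ + 1)) := ⟨_, rfl⟩
      obtain ⟨s₂, hs₂⟩ : ∃ s₂, s₂ = #(S'.filter (fun x => z x = ρ - 1)) := ⟨_, rfl⟩
      have hp12 : p = s₁ + p₂ := by
        rw [hpd, hs₁, hp₂d, ← card_union_of_disjoint]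
        · congr 1
          ext x
          simp only [mem_union, mem_filter]
          constructor
          · rintro ⟨hx, h⟩
            rcases eq_or_lt_of_le (show ρ + 1 ≤ z x by omega) with h' | h'
            · exact Or.inl ⟨hx, h'.symm⟩
            · exact Or.inr ⟨hx, h'⟩
          · rintro (h | h)
            · exact ⟨h.1, by omega⟩
            · exact ⟨h.1, by omega⟩
        · rw [disjoint_filter]
          intro x _ h1 h2
          omega
      have hm12 : m = s₂ + m₂ := by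
        rw [hmd, hs₂, hm₂d, ← card_union_of_disjoint]
        · congr 1
          ext x
          simp only [mem_union, mem_filter]
          constructor
          · rintro ⟨hx, h⟩
            rcases eq_or_lt_of_le (show z x ≤ ρ - 1 by omega) with h' | h'
            · exact Or.inl ⟨hx, h'⟩
            · exact Or.inr ⟨hx, h'⟩
          · rintro (h | h)
            · exact ⟨h.1, by omega⟩
            · exact ⟨h.1, by omega⟩
        · rw [disjoint_filter]
          intro x _ h1 h2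
          omega
      obtain ⟨hpm2, hr2⟩ := num_one hX' hsum htk hk1 (by rw [← hS'c]; exact hp)
        (by rw [← hS'c]; exact hm) hkt hrle hloss800 hnbig
      have hs12 : n ≤ s₁ + s₂ + 6 * loss + 5 := by
        clear hX' hwU hX hk3 ht hA'c hSc hgj hlg hg₁ hg₀ hbig hℓ hb hw₁ hw₂ ht99
        omega
      -- facts on the rows
      have hord : ∀ a : ℤ, a • e ∈ H ↔ (n : ℤ) ∣ a := by
        intro a
        rw [← QuotientAddGroup.eq_zero_iff, QuotientAddGroup.mk_zsmul,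
          ← addOrderOf_dvd_iff_zsmul_eq_zero, ← ho, hon']
      have hgenG : ∀ x : ZMod n × ZMod n, ∃ a : ℤ, x - a • e ∈ H := by
        intro x
        have h1 : x ∈ H ⊔ AddSubgroup.zmultiples e := by
          rw [hKe, hKtop]
          exact AddSubgroup.mem_top _
        rw [AddSubgroup.mem_sup] at h1
        obtain ⟨y, hy, y', hy', hyy⟩ := h1
        obtain ⟨a, rfl⟩ := AddSubgroup.mem_zmultiples_iff.1 hy'
        refine ⟨a, ?_⟩
        rw [← hyy, add_sub_cancel_right]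
        exact hy
      have hrow0 : r ≤ #(A.filter (fun x => x - (q₀ + ρ • e) ∈ H)) := by
        rw [hrd]
        exact card_le_card fun x hx => mem_filter.2 ⟨hrA _ hx, hrow _ x hx⟩
      have hrow1 : s₁ ≤ #(A.filter (fun x => x - (q₀ + ρ • e) - e ∈ H)) := by
        rw [hs₁]
        refine card_le_card fun x hx => mem_filter.2 ⟨hrA _ hx, ?_⟩
        have h1 := hrow _ x hx
        have h2 : x - (q₀ + ρ • e) - e = x - (q₀ + (ρ + 1) • e) := by
          rw [add_smul, one_smul]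
          abel
        rw [h2]
        exact h1
      have hrow2 : s₂ ≤ #(A.filter (fun x => x - (q₀ + ρ • e) + e ∈ H)) := by
        rw [hs₂]
        refine card_le_card fun x hx => mem_filter.2 ⟨hrA _ hx, ?_⟩
        have h1 := hrow _ x hx
        have h2 : x - (q₀ + ρ • e) + e = x - (q₀ + (ρ - 1) • e) := by
          rw [sub_smul, one_smul]
          abel
        rw [h2]
        exact h1
      rcases Nat.lt_or_ge s₁ (2 * loss + 4) with h₁ | h₁
      · -- rows `ρ - 1` and `ρ`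
        apply hno
        refine two_rows (by omega) n_nsmul H e hHcj hord hgenG hA (q₀ + (ρ - 1) • e)
          (E := 8 * loss + 9) ?_ ?_ (by omega)
        · have h1 : #(S'.filter (fun x => z x = ρ - 1)) ≤
              #(A.filter (fun x => x - (q₀ + (ρ - 1) • e) ∈ H)) :=
            card_le_card fun x hx => mem_filter.2 ⟨hrA _ hx, hrow _ x hx⟩
          omega
        · have h1 : #(S'.filter (fun x => z x = ρ)) ≤
              #(A.filter (fun x => x - (q₀ + (ρ - 1) • e) - e ∈ H)) := by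
            refine card_le_card fun x hx => mem_filter.2 ⟨hrA _ hx, ?_⟩
            have h1 := hrow _ x hx
            have h2 : x - (q₀ + (ρ - 1) • e) - e = x - (q₀ + ρ • e) := by
              rw [sub_smul, one_smul]
              abel
            rw [h2]
            exact h1
          omega
      · rcases Nat.lt_or_ge s₂ (2 * loss + 4) with h₂ | h₂
        · apply hno
          refine two_rows (by omega) n_nsmul H e hHcj hord hgenG hA (q₀ + ρ • e)
            (E := 8 * loss + 9) ?_ ?_ (by omega)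
          · omega
          · omega
        · apply hno
          refine three_rows (fun s => by convert four_solutions s) n_nsmul H e hHcj (q₀ + ρ • e) (E := 4 * loss + 5)
            (L := 2 * loss + 4) ?_ ?_ ?_ ?_ ?_ (by omega) (by omega)
          · omega
          · omega
          · omega
          · intro h
            have h1 := (hord 1).1 (by rw [one_smul]; exact h)
            have h2 := Int.le_of_dvd one_pos h1
            omega
          · intro h
            have h1 := (hord 2).1 (by rw [two_smul]; exact h)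
            have h2 := Int.le_of_dvd two_pos h1
            omega
    · -- `j ≥ 2`
      have h1 : 2 * r ≤ n := by
        calc 2 * r ≤ j * Nat.card H := Nat.mul_le_mul hj2 hrle
          _ = n := by rw [mul_comm]; exact hHcj
      rw [hS'c] at hp hm
      exact num_two hX' hsum htk hp hm ht99 h1 hnbig
  · -- `o ≤ n / 2`
    rcases Nat.lt_or_ge n (2 * (o * j)) with hojn | hojn
    · have hHn : Nat.card H < 2 * n := by
        by_contra hle
        push Not at hle
        have h3 := Nat.mul_le_mul hle (show n + 1 ≤ 2 * (o * j) from hojn)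
        have h4 : Nat.card H * (2 * (o * j)) = 2 * n ^ 2 := by rw [← hHc]; ring
        rw [h4] at h3
        nlinarith
      have hr1 := row_le hno H hHn (hrA ρ) _ (hrow ρ)
      rw [← hrd] at hr1
      exact num_mid hX' hsum hk2 ht99 hr1 hon hloss800 hnbig
    · have h1 := hmin H _ _ (hrA ρ) (hrow ρ) (by rw [hoj]; exact hojn) hHltK
      rw [← hrd, hoj] at h1
      have h2 : 2 * j ≤ o * j := Nat.mul_le_mul_right _ ho2
      have h3 := log_two_mul_le hj1 h2
      have h4 : g₀ * (1 + Nat.log 2 j) + g₀ ≤ g₀ * (1 + Nat.log 2 (o * j)) := by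
        calc g₀ * (1 + Nat.log 2 j) + g₀ = g₀ * (1 + (Nat.log 2 j + 1)) := by ring
          _ ≤ _ := Nat.mul_le_mul_left _ (by omega)
      exact num_last hX' hsum hk2 ht (by omega) ht99 hSc hA'c h1 h4 hlg
        (add_le_mul_add ho0 hj1) hon hj1

end Pool.Agent.Lib.MPa7239a.GC
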