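import Pool.Agent.Lib.MP_a7239a_co.GC.Defs
import Pool.Agent.Lib.MP_a7239a_co.GP.LOW

/-!
# The Gao-Thangadurai conjecture for all large `n`: union of the two ranges

`val_of_upper`: the value from the upper bound.  `all_n`: if no divisor of `n` lies between `L` and
`n / L`, `L = (log₂ n) ^ 4`, then `n = m q` with `q` prime and `m < L`.
-/

open Finset Filter

namespace Pool.Agent.Lib.MPa7239a.GC

/-- the value of the conjecture for `n` -/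
def Value (n : ℕ) : Prop :=
  sSup {k | ∃ A : Finset (ZMod n × ZMod n), #A = k ∧ ∀ T ⊆ A, #T = n → ∑ x ∈ T, x ≠ 0} =
    if Odd n then 2 * n - 2 else 2 * n

/-- the value from the upper bound -/
theorem val_of_upper {n : ℕ} (hn : 2 ≤ n)
    (hup : ∀ A : Finset (ZMod n × ZMod n), ((Odd n ∧ #A + 1 = 2 * n) ∨ #A = 2 * n + 1) →
      Hit A n 0) : Value n := by
  have key : ∀ A : Finset (ZMod n × ZMod n), (∀ T ⊆ A, #T = n → ∑ x ∈ T, x ≠ 0) →
      ∀ k ≤ #A, ¬ ((Odd n ∧ k + 1 = 2 * n) ∨ k = 2 * n + 1) := by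
    intro A hA k hk hcase
    obtain ⟨B, hB, hBc⟩ := exists_subset_card_eq hk
    obtain ⟨T, hT, hTc, hTs⟩ := hup B (by rw [hBc]; exact hcase)
    exact hA T (hT.trans hB) hTc hTs
  unfold Value
  split_ifs with h2
  · refine IsGreatest.csSup_eq ⟨GP.low_odd hn, ?_⟩
    rintro k ⟨A, rfl, hA⟩
    by_contra hlt
    push Not at hlt
    exact key A hA (2 * n - 1) (by omega) (Or.inl ⟨h2, by omega⟩)
  · have h3 : 2 ∣ n := even_iff_two_dvd.1 (Nat.not_odd_iff_even.1 h2)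
    refine IsGreatest.csSup_eq ⟨GP.low_even hn h3, ?_⟩
    rintro k ⟨A, rfl, hA⟩
    by_contra hlt
    push Not at hlt
    exact key A hA (2 * n + 1) (by omega) (Or.inr rfl)

/-- no divisor in the middle -/
theorem exists_prime_mul {n L : ℕ} (hL : 1 < L) (hn : L ^ 3 ≤ n)
    (hd : ¬ ∃ d, d ∣ n ∧ L ≤ d ∧ d * L ≤ n) :
    ∃ m q : ℕ, q.Prime ∧ n = m * q ∧ 1 ≤ m ∧ m < L := by
  have hL3 : 1 ≤ L ^ 3 := Nat.one_le_pow _ _ (by omega)
  have hn0 : 0 < n := by omega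
  have hne : ((n.divisors).filter (fun d => d < L)).Nonempty :=
    ⟨1, by rw [mem_filter, Nat.mem_divisors]; exact ⟨⟨one_dvd n, hn0.ne'⟩, hL⟩⟩
  obtain ⟨m, hm, hmax⟩ := exists_max_image _ (fun d => d) hne
  rw [mem_filter, Nat.mem_divisors] at hm
  obtain ⟨⟨⟨k, hk⟩, -⟩, hmL⟩ := hm
  have hm0 : 0 < m := Nat.pos_of_ne_zero (by rintro rfl; omega)
  have hLL : L ≤ L ^ 3 := Nat.le_self_pow (by norm_num) L
  have hk1 : k ≠ 1 := by
    rintro rfl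
    omega
  have hk0 : 0 < k := Nat.pos_of_ne_zero (by rintro rfl; omega)
  have hqp : k.minFac.Prime := Nat.minFac_prime hk1
  obtain ⟨k', hk'⟩ := k.minFac_dvd
  have hdvd : m * k.minFac ∣ n := ⟨k', by rw [mul_assoc, ← hk', ← hk]⟩
  have hge : L ≤ m * k.minFac := by
    by_contra hlt
    push Not at hlt
    have h1 := hmax (m * k.minFac) (by
      rw [mem_filter, Nat.mem_divisors]
      exact ⟨⟨hdvd, hn0.ne'⟩, hlt⟩)
    have h2 := hqp.two_le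
    nlinarith
  have hbig : n < m * k.minFac * L := by
    by_contra hle
    push Not at hle
    exact hd ⟨m * k.minFac, hdvd, hge, hle⟩
  have hkp : k.Prime := by
    by_contra hnp
    have h1 : k.minFac ^ 2 ≤ k := Nat.minFac_sq_le_self hk0 hnp
    have h2 : n < L ^ 3 := by
      have h3 : n * n < (m * k.minFac * L) * (m * k.minFac * L) :=
        Nat.mul_lt_mul_of_lt_of_lt hbig hbig
      have h4 : (m * k.minFac * L) * (m * k.minFac * L) ≤ m * L ^ 2 * n := by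
        calc (m * k.minFac * L) * (m * k.minFac * L) = m * m * L ^ 2 * k.minFac ^ 2 := by ring
          _ ≤ m * m * L ^ 2 * k := Nat.mul_le_mul_left _ h1
          _ = m * L ^ 2 * n := by rw [hk]; ring
      have h5 : n * n < m * L ^ 2 * n := lt_of_lt_of_le h3 h4
      have h6 : n < m * L ^ 2 := Nat.lt_of_mul_lt_mul_right h5
      have h7 : m * L ^ 2 ≤ L * L ^ 2 := Nat.mul_le_mul_right _ hmL.le
      calc n < m * L ^ 2 := h6
        _ ≤ L * L ^ 2 := h7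
        _ = L ^ 3 := by ring
    omega
  exact ⟨m, k, hkp, hk, hm0, hmL⟩

/-- `(log₂ n)^12 ≤ n` for large `n` -/
theorem log_pow_le : ∃ n₀ : ℕ, ∀ n ≥ n₀, 1 < (Nat.log 2 n) ^ 4 ∧
    ((Nat.log 2 n) ^ 4) ^ 3 ≤ n := by
  have h := tendsto_pow_const_div_const_pow_of_one_lt 12 (r := 2) (by norm_num)
  have h2 : ∀ᶠ x : ℕ in atTop, (x : ℝ) ^ 12 / 2 ^ x < 1 :=
    h.eventually_lt_const (by norm_num)
  obtain ⟨X, hX⟩ := eventually_atTop.1 h2
  refine ⟨2 ^ (X + 2), fun n hn => ?_⟩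
  have hlog : X + 2 ≤ Nat.log 2 n := Nat.le_log_of_pow_le (by norm_num) hn
  have hn0 : n ≠ 0 := by
    have : 0 < 2 ^ (X + 2) := by positivity
    omega
  have hpow : 2 ^ Nat.log 2 n ≤ n := Nat.pow_log_le_self 2 hn0
  refine ⟨Nat.one_lt_pow (by norm_num) (by omega), ?_⟩
  have h3 := hX (Nat.log 2 n) (by omega)
  rw [div_lt_one (by positivity)] at h3
  have h4 : Nat.log 2 n ^ 12 < 2 ^ Nat.log 2 n := by exact_mod_cast h3
  rw [← pow_mul]
  norm_num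
  omega

/-- all large `n`, from the case of a divisor in the middle and the case `n = m q` -/
theorem all_n
    (hdiv : ∃ n₀ : ℕ, ∀ n ≥ n₀,
      (∃ d, d ∣ n ∧ (Nat.log 2 n) ^ 4 ≤ d ∧ d * (Nat.log 2 n) ^ 4 ≤ n) → Value n)
    (hpr : ∃ n₀ : ℕ, ∀ n ≥ n₀, ∀ m q : ℕ, q.Prime → n = m * q → 1 ≤ m →
      m < (Nat.log 2 n) ^ 4 → Value n) :
    ∃ n₀ : ℕ, ∀ n ≥ n₀, Value n := by
  obtain ⟨n₁, h1⟩ := hdiv
  obtain ⟨n₂, h2⟩ := hpr
  obtain ⟨n₃, h3⟩ := log_pow_le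
  refine ⟨max n₁ (max n₂ n₃), fun n hn => ?_⟩
  have hn1 : n₁ ≤ n := (le_max_left _ _).trans hn
  have hn2 : n₂ ≤ n := (le_max_left _ _).trans ((le_max_right _ _).trans hn)
  have hn3 : n₃ ≤ n := (le_max_right _ _).trans ((le_max_right _ _).trans hn)
  by_cases hd : ∃ d, d ∣ n ∧ (Nat.log 2 n) ^ 4 ≤ d ∧ d * (Nat.log 2 n) ^ 4 ≤ n
  · exact h1 n hn1 hd
  · obtain ⟨hL, hn4⟩ := h3 n hn3
    obtain ⟨m, q, hq, hmq, hm1, hm2⟩ := exists_prime_mul hL hn4 hd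
    exact h2 n hn2 m q hq hmq hm1 hm2

/-- all large `n`, from the upper bounds -/
theorem all_n_of_upper
    (hdiv : ∃ n₀ : ℕ, ∀ n ≥ n₀,
      (∃ d, d ∣ n ∧ (Nat.log 2 n) ^ 4 ≤ d ∧ d * (Nat.log 2 n) ^ 4 ≤ n) →
      ∀ A : Finset (ZMod n × ZMod n), ((Odd n ∧ #A + 1 = 2 * n) ∨ #A = 2 * n + 1) → Hit A n 0)
    (hpr : ∃ n₀ : ℕ, ∀ n ≥ n₀, ∀ m q : ℕ, q.Prime → n = m * q → 1 ≤ m →
      m < (Nat.log 2 n) ^ 4 →
      ∀ A : Finset (ZMod n × ZMod n), ((Odd n ∧ #A + 1 = 2 * n) ∨ #A = 2 * n + 1) → Hit A n 0) :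
    ∃ n₀ : ℕ, ∀ n ≥ n₀, Value n := by
  obtain ⟨n₁, h1⟩ := hdiv
  obtain ⟨n₂, h2⟩ := hpr
  exact all_n ⟨max 2 n₁, fun n hn hd => val_of_upper ((le_max_left _ _).trans hn)
      (h1 n ((le_max_right _ _).trans hn) hd)⟩
    ⟨max 2 n₂, fun n hn m q hq hmq hm1 hm2 => val_of_upper ((le_max_left _ _).trans hn)
      (h2 n ((le_max_right _ _).trans hn) m q hq hmq hm1 hm2)⟩

end Pool.Agent.Lib.MPa7239a.GC
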