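import Pool.Agent.Lib.MP_a7239a_co.GC.MainC
import Pool.Agent.Lib.MP_a7239a_co.GC.BND
import Pool.Agent.Lib.MP_a7239a_co.GC.EV
import Pool.Agent.Lib.MP_a7239a_co.GC.UNI

/-!
# `n` with a divisor in the middle range
-/

open Finset

namespace Pool.Agent.Lib.MPa7239a.GC

theorem upper {n ℓ w Λ₀ κ M₀ : ℕ} (hℓ : n < 2 ^ ℓ)
    (hb : (3 * ℓ + 1) * n ^ 2 < 2 ^ (3 * ℓ)) (hw₁ : 36000 * ℓ ^ 3 * w ≤ n) (hw₂ : n ≤ Λ₀ * w)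
    (hΛ₀ : 1000 ≤ Λ₀) (hκ : 7 * (7 * Λ₀) ^ 2 ≤ 2 ^ κ)
    (hbig : (196 * Λ₀ ^ 2) ^ (4 * κ + 13) ≤ n) (hM₀ : M₀ ∣ n) (hM₁ : 12 * Λ₀ ≤ M₀)
    (hM₂ : M₀ ^ 2 ≤ n) {A : Finset (ZMod n × ZMod n)}
    (hA : (Odd n ∧ #A + 1 = 2 * n) ∨ #A = 2 * n + 1) : Hit A n 0 := by
  have hP : 1 ≤ 196 * Λ₀ ^ 2 := by nlinarith
  have hP4 : 4 * (7 * Λ₀) ^ 2 = 196 * Λ₀ ^ 2 := by ring
  have hn0 : n ≠ 0 := by
    have : 0 < (196 * Λ₀ ^ 2) ^ (4 * κ + 13) := Nat.pow_pos (by omega)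
    omega
  have : NeZero n := ⟨hn0⟩
  refine upper_of hℓ hb hw₁ hw₂ hΛ₀ (Λ := 7 * Λ₀) (by omega) hκ (by rw [hP4]; exact hbig) ?_ hA
  intro A' H R S V _ _ hcl _ hbox hS k hk1 hk2
  rw [hP4] at hk2
  have hn : 1 ≤ n := by omega
  have hSne : S.Nonempty := card_pos.1 (by omega)
  have hDH : n ≤ #(Dif H S) * Nat.card H := hS.trans (card_le_Dif H S)
  refine linear_growth H (zero_mem_Dif hSne) neg_mem_Dif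
    (Y := 12 * Λ₀ * (2 * (196 * Λ₀ ^ 2) ^ (κ + 1)))
    (R₀ := 2 * (196 * Λ₀ ^ 2) ^ (κ + 1)) hw₂ (tf hbox hcl le_rfl) hM₀ hM₁ hM₂ hDH ?_ ?_ le_rfl
    k hk1 hk2
  · refine le_trans ?_ hbig
    have e1 : 81 * Λ₀ ^ 2 * (12 * Λ₀ * (2 * (196 * Λ₀ ^ 2) ^ (κ + 1))) ^ 4 =
        (81 * 24 ^ 4 * Λ₀ ^ 6) * (196 * Λ₀ ^ 2) ^ (4 * κ + 4) := by
      rw [show 4 * κ + 4 = (κ + 1) * 4 by ring, pow_mul]
      ring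
    have e2 : (196 * Λ₀ ^ 2) ^ (4 * κ + 13) =
        (196 ^ 9 * Λ₀ ^ 18) * (196 * Λ₀ ^ 2) ^ (4 * κ + 4) := by
      rw [show 4 * κ + 13 = 9 + (4 * κ + 4) by ring, pow_add]
      ring
    rw [e1, e2]
    apply Nat.mul_le_mul_right
    have h1 : Λ₀ ^ 6 ≤ Λ₀ ^ 18 := Nat.pow_le_pow_right (by omega) (by norm_num)
    exact Nat.mul_le_mul (by norm_num) h1
  · have h1 : 1 ≤ (196 * Λ₀ ^ 2) ^ (κ + 1) := Nat.one_le_pow _ _ hP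
    nlinarith

/-- the case of a divisor `d`, `L ≤ d ≤ n / L`, `L = (log₂ n) ^ 4`, from the parameters -/
theorem hit_divisor {n ℓ w Λ₀ κ : ℕ} (hℓ : n < 2 ^ ℓ)
    (hb : (3 * ℓ + 1) * n ^ 2 < 2 ^ (3 * ℓ)) (hw₁ : 36000 * ℓ ^ 3 * w ≤ n) (hw₂ : n ≤ Λ₀ * w)
    (hΛ₀ : 1000 ≤ Λ₀) (hκ : 7 * (7 * Λ₀) ^ 2 ≤ 2 ^ κ)
    (hbig : (196 * Λ₀ ^ 2) ^ (4 * κ + 13) ≤ n) (hlog : 12 * Λ₀ ≤ (Nat.log 2 n) ^ 4)
    (hd : ∃ d, d ∣ n ∧ (Nat.log 2 n) ^ 4 ≤ d ∧ d * (Nat.log 2 n) ^ 4 ≤ n)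
    {A : Finset (ZMod n × ZMod n)}
    (hA : (Odd n ∧ #A + 1 = 2 * n) ∨ #A = 2 * n + 1) : Hit A n 0 := by
  obtain ⟨d, hdn, hd1, hd2⟩ := hd
  have hn0 : n ≠ 0 := by
    have : 0 < (196 * Λ₀ ^ 2) ^ (4 * κ + 13) := Nat.pow_pos (by positivity)
    omega
  obtain ⟨M₀, hM₀, hM₁, hM₂⟩ : ∃ M₀, M₀ ∣ n ∧ 12 * Λ₀ ≤ M₀ ∧ M₀ ^ 2 ≤ n := by
    rcases Nat.le_total (d ^ 2) n with h1 | h1
    · exact ⟨d, hdn, hlog.trans hd1, h1⟩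
    · obtain ⟨a, ha⟩ := hdn
      have hd0 : 0 < d := by
        rcases Nat.eq_zero_or_pos d with h2 | h2
        · rw [h2, zero_mul] at ha
          omega
        · exact h2
      refine ⟨a, Dvd.intro_left d ha.symm, ?_, ?_⟩
      · have h4 : d * Nat.log 2 n ^ 4 ≤ d * a := hd2.trans (le_of_eq ha)
        exact hlog.trans (Nat.le_of_mul_le_mul_left h4 hd0)
      · have h2 : a ≤ d := by
          have h3 : d * a ≤ d * d := by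
            rw [← sq]
            exact (le_of_eq ha.symm).trans h1
          exact Nat.le_of_mul_le_mul_left h3 hd0
        calc a ^ 2 = a * a := sq a
          _ ≤ d * a := Nat.mul_le_mul_right _ h2
          _ = n := ha.symm
  exact upper hℓ hb hw₁ hw₂ hΛ₀ hκ hbig hM₀ hM₁ hM₂ hA

theorem exact_divisor : ∃ n₀ : ℕ, ∀ n ≥ n₀,
    (∃ d, d ∣ n ∧ (Nat.log 2 n) ^ 4 ≤ d ∧ d * (Nat.log 2 n) ^ 4 ≤ n) → Value n := by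
  obtain ⟨n₀, h⟩ := parameters
  refine ⟨max n₀ 2, fun n hn hd => ?_⟩
  obtain ⟨ℓ, w, Λ₀, κ, hℓ, -, hb, hw₁, hw₂, hΛ₀, hκ, hbig, hlog⟩ :=
    h n ((le_max_left _ _).trans hn)
  exact val_of_upper ((le_max_right _ _).trans hn) fun A hA =>
    hit_divisor hℓ hb hw₁ hw₂ hΛ₀ hκ hbig hlog hd hA

end Pool.Agent.Lib.MPa7239a.GC
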