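import Pool.Agent.Lib.MP_a7239a_co.GC.CL2
import Pool.Agent.Lib.MP_a7239a_co.GC.FL
import Pool.Agent.Lib.MP_a7239a_co.GC.DBL
import Pool.Agent.Lib.MP_a7239a_co.GC.GROW

/-!
# Linear growth of the balls for `n = m q`, `q` prime
-/

open Finset
open scoped Pointwise

namespace Pool.Agent.Lib.MPa7239a.GC

/-- the balls of the closed structure contain no nontrivial subgroup -/
theorem no_subgroup {G : Type*} [AddCommGroup G] [Finite G] [DecidableEq G] {H : AddSubgroup G}
    {A R S : Finset G} {V : ℕ → Finset G} {w b c ℓ : ℕ} (hfill : Fills H R)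
    (hcl : Closed' H R (A \ R) c) (hbox : Boxes H (A \ R) w b V S) (hwb : w * b ≤ c)
    (hcard : Nat.card G ≤ 4 ^ ℓ) {k : ℕ} (hk : 14 * ℓ * k ≤ w) (L : AddSubgroup (G ⧸ H))
    (hL : ∀ x ∈ L, x ∈ ball (Dif H S) k) : L = ⊥ := by
  by_contra hne
  obtain ⟨⟨ν, hν⟩, hν0⟩ := (AddSubgroup.ne_bot_iff_exists_ne_zero).1 hne
  have hν0' : ν ≠ 0 := fun h => hν0 (Subtype.ext h)
  obtain ⟨g, rfl⟩ := QuotientAddGroup.mk_surjective ν
  set K : AddSubgroup G := L.comap (QuotientAddGroup.mk' H) with hK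
  have hmem : ∀ x, x ∈ K ↔ (x : G ⧸ H) ∈ L := fun x => by
    rw [hK, AddSubgroup.mem_comap]
    rfl
  have hHK : H < K := by
    refine lt_of_le_of_ne (fun x hx => ?_) ?_
    · rw [hmem, (QuotientAddGroup.eq_zero_iff x).2 hx]
      exact L.zero_mem
    · intro h
      apply hν0'
      rw [QuotientAddGroup.eq_zero_iff, h, hmem]
      exact hν
  have hRX : Disjoint R (A \ R) := disjoint_sdiff
  have hf := fill_of_ball (K := K) hfill hRX hbox hcard hk (fun x hx => hL _ ((hmem x).1 hx))
  refine hcl K hHK _ ?_ ?_ hf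
  · intro x hx
    obtain ⟨i, hi, hxi⟩ := mem_biUnion.1 hx
    exact hbox.sub i (mem_range.1 hi) hxi
  · refine card_biUnion_le.trans ?_
    calc ∑ i ∈ range w, #(V i) ≤ ∑ _i ∈ range w, b :=
          sum_le_sum fun i hi => hbox.card i (mem_range.1 hi)
      _ ≤ c := by rwa [sum_const, card_range, smul_eq_mul]

section ball
variable {Q : Type*} [AddCommGroup Q] {D : Finset Q}

/-- a stable ball is a subgroup -/
theorem stable_subgroup (h0 : (0 : Q) ∈ D) (hneg : ∀ x ∈ D, -x ∈ D) {i : ℕ}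
    (h : ball D (i + 1) = ball D i) : ∃ L : AddSubgroup Q, (∀ x, x ∈ L ↔ x ∈ ball D i) ∧
      ∀ d ∈ D, d ∈ L := by
  have h1 : ∀ j, ∀ x ∈ ball D i, ∀ y ∈ ball D j, x + y ∈ ball D i := by
    intro j
    induction j with
    | zero =>
      intro x hx y hy
      rw [mem_ball_zero] at hy
      rw [hy, add_zero x]
      exact hx
    | succ j ih =>
      intro x hx y hy
      obtain ⟨z, hz, d, hd, rfl⟩ := mem_ball_succ.1 hy
      rw [← add_assoc, ← h]
      exact mem_ball_succ.2 ⟨x + z, ih x hx z hz, d, hd, rfl⟩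
  let L : AddSubgroup Q :=
    { carrier := {x | x ∈ ball D i}
      add_mem' := fun {x y} hx hy => h1 i x hx y hy
      zero_mem' := zero_mem_ball h0 i
      neg_mem' := fun {x} hx => ball_neg hneg hx }
  refine ⟨L, fun x => Iff.rfl, fun d hd => ?_⟩
  change d ∈ ball D i
  have h2 := h1 1 0 (zero_mem_ball h0 i) d (mem_ball_one.2 hd)
  rwa [zero_add] at h2

/-- the dilate of the ball -/
theorem mem_ball_image [DecidableEq Q] (m : ℕ) {k : ℕ} {x : Q} :
    x ∈ ball (D.image (fun y => m • y)) k ↔ ∃ y ∈ ball D k, m • y = x := by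
  induction k generalizing x with
  | zero =>
    rw [mem_ball_zero]
    constructor
    · rintro rfl
      exact ⟨0, mem_ball_zero.2 rfl, smul_zero m⟩
    · rintro ⟨y, hy, rfl⟩
      rw [mem_ball_zero] at hy
      rw [hy, smul_zero]
  | succ k ih =>
    rw [mem_ball_succ]
    constructor
    · rintro ⟨y, hy, d, hd, rfl⟩
      obtain ⟨y', hy', rfl⟩ := ih.1 hy
      obtain ⟨d', hd', rfl⟩ := mem_image.1 hd
      exact ⟨y' + d', mem_ball_succ.2 ⟨y', hy', d', hd', rfl⟩, smul_add _ _ _⟩
    · rintro ⟨y, hy, rfl⟩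
      obtain ⟨y', hy', d, hd, rfl⟩ := mem_ball_succ.1 hy
      exact ⟨m • y', ih.2 ⟨y', hy', rfl⟩, m • d, mem_image_of_mem _ hd, (smul_add _ _ _).symm⟩

end ball

/-! ### the embedding of `ZMod q × ZMod q` -/

/-- multiplication by `m` as a homomorphism on the integers -/
noncomputable def embAux {n m q : ℕ} (hn : n = m * q) : { f : ℤ →+ ZMod n // f q = 0 } :=
  ⟨(AddMonoidHom.mulLeft (m : ZMod n)).comp (Int.castAddHom (ZMod n)), by
    simp only [AddMonoidHom.coe_comp, Function.comp_apply, Int.coe_castAddHom,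
      AddMonoidHom.coe_mulLeft, Int.cast_natCast]
    rw [← Nat.cast_mul, ← hn, ZMod.natCast_self]⟩

/-- multiplication by `m` -/
noncomputable def emb {n m q : ℕ} (hn : n = m * q) : ZMod q →+ ZMod n :=
  ZMod.lift q (embAux hn)

theorem emb_natCast {n m q : ℕ} (hn : n = m * q) (i : ℕ) :
    emb hn (i : ZMod q) = (m : ZMod n) * i := by
  have h := ZMod.lift_coe q (embAux hn) (i : ℤ)
  have h2 : ((i : ℤ) : ZMod q) = (i : ZMod q) := by push_cast; rfl
  rw [h2] at h
  rw [emb, h, embAux]
  simp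

theorem emb_injective {n m q : ℕ} [NeZero q] (hn : n = m * q) (hm : 0 < m) :
    Function.Injective (emb hn) := by
  rw [injective_iff_map_eq_zero]
  intro a ha
  rw [← ZMod.natCast_zmod_val a, emb_natCast, ← Nat.cast_mul, ZMod.natCast_eq_zero_iff, hn] at ha
  have h1 : q ∣ a.val := Nat.dvd_of_mul_dvd_mul_left hm ha
  have h2 := Nat.eq_zero_of_dvd_of_lt h1 (ZMod.val_lt a)
  rw [← ZMod.natCast_zmod_val a, h2, Nat.cast_zero]

/-- the embedding in the quotient -/
noncomputable def embQ {n m q : ℕ} (hn : n = m * q) (H : AddSubgroup (ZMod n × ZMod n)) :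
    ZMod q × ZMod q →+ (ZMod n × ZMod n) ⧸ H :=
  (QuotientAddGroup.mk' H).comp ((emb hn).prodMap (emb hn))

theorem embQ_apply {n m q : ℕ} (hn : n = m * q) (H : AddSubgroup (ZMod n × ZMod n))
    (v : ZMod q × ZMod q) :
    embQ hn H v = ((emb hn v.1, emb hn v.2) : ZMod n × ZMod n) := rfl

theorem q_nsmul {q : ℕ} (a : ZMod q) : q • a = 0 := by
  rw [nsmul_eq_mul, ZMod.natCast_self, zero_mul]

/-- an element of `H` of order dividing `q` is zero -/
theorem eq_zero_of_mem {G : Type*} [AddCommGroup G] [Finite G] {H : AddSubgroup G} {q : ℕ}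
    (hq : q.Prime) (hqH : ¬ q ∣ Nat.card H) {g : G} (hg : g ∈ H) (hqg : q • g = 0) : g = 0 := by
  by_contra hne
  apply hqH
  have h1 : addOrderOf g ∣ q := addOrderOf_dvd_of_nsmul_eq_zero hqg
  have h2 : addOrderOf g = q := by
    rcases (Nat.dvd_prime hq).1 h1 with h | h
    · exact absurd (AddMonoid.addOrderOf_eq_one_iff.1 h) hne
    · exact h
  have h3 : addOrderOf (⟨g, hg⟩ : H) = q := by
    rw [← h2]
    exact (AddSubgroup.addOrderOf_coe (⟨g, hg⟩ : H)).symm
  rw [← h3]
  exact addOrderOf_dvd_natCard _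

theorem embQ_injective {n m q : ℕ} [NeZero n] (hn : n = m * q) (hq : q.Prime) (hm : 0 < m)
    {H : AddSubgroup (ZMod n × ZMod n)} (hqH : ¬ q ∣ Nat.card H) :
    Function.Injective (embQ hn H) := by
  have : NeZero q := ⟨hq.ne_zero⟩
  rw [injective_iff_map_eq_zero]
  intro v hv
  rw [embQ_apply, QuotientAddGroup.eq_zero_iff] at hv
  have h1 : ((emb hn v.1, emb hn v.2) : ZMod n × ZMod n) = 0 := by
    refine eq_zero_of_mem hq hqH hv ?_
    refine Prod.ext ?_ ?_
    · change q • emb hn v.1 = 0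
      rw [← map_nsmul, q_nsmul, map_zero]
    · change q • emb hn v.2 = 0
      rw [← map_nsmul, q_nsmul, map_zero]
  have h2 : emb hn v.1 = 0 := congrArg Prod.fst h1
  have h3 : emb hn v.2 = 0 := congrArg Prod.snd h1
  refine Prod.ext ?_ ?_
  · exact emb_injective hn hm (h2.trans (map_zero _).symm)
  · exact emb_injective hn hm (h3.trans (map_zero _).symm)

theorem exists_embQ {n m q : ℕ} [NeZero n] (hn : n = m * q)
    {H : AddSubgroup (ZMod n × ZMod n)} (x : (ZMod n × ZMod n) ⧸ H) :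
    ∃ v, embQ hn H v = m • x := by
  obtain ⟨g, rfl⟩ := QuotientAddGroup.mk_surjective x
  refine ⟨((g.1.val : ZMod q), (g.2.val : ZMod q)), ?_⟩
  rw [embQ_apply, emb_natCast, emb_natCast, ZMod.natCast_zmod_val, ZMod.natCast_zmod_val,
    ← QuotientAddGroup.mk_nsmul]
  congr 1
  refine Prod.ext ?_ ?_
  · simp
  · simp

theorem zmod_tors' {n d g : ℕ} [NeZero n] (hdg : d * g = n) (x : ZMod n) (hx : d • x = 0) :
    ∃ i < d, ((g * i : ℕ) : ZMod n) = x := by
  have hn : 0 < n := Nat.pos_of_ne_zero (NeZero.ne n)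
  have hd : 0 < d := by
    rcases Nat.eq_zero_or_pos d with h | h
    · rw [h, zero_mul] at hdg
      omega
    · exact h
  have h1 : ((d * x.val : ℕ) : ZMod n) = 0 := by
    rw [Nat.cast_mul, ZMod.natCast_zmod_val, ← nsmul_eq_mul]
    exact hx
  rw [ZMod.natCast_eq_zero_iff] at h1
  have h2 : g ∣ x.val := by
    have h3 : d * g ∣ d * x.val := hdg.symm ▸ h1
    exact Nat.dvd_of_mul_dvd_mul_left hd h3
  obtain ⟨i, hi⟩ := h2
  refine ⟨i, ?_, ?_⟩
  · have h3 : x.val < n := ZMod.val_lt x
    rw [hi] at h3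
    by_contra hc
    push Not at hc
    have h4 : g * d ≤ g * i := Nat.mul_le_mul_left g hc
    have h5 : g * d = n := by rw [mul_comm]; exact hdg
    omega
  · rw [← hi, ZMod.natCast_zmod_val]

theorem card_tors' {n d g : ℕ} [NeZero n] (hdg : d * g = n) :
    #(univ.filter (fun x : ZMod n × ZMod n => d • x = 0)) ≤ d ^ 2 := by
  classical
  have h : univ.filter (fun x : ZMod n × ZMod n => d • x = 0) ⊆ (range d ×ˢ range d).image
      (fun p => (((g * p.1 : ℕ) : ZMod n), ((g * p.2 : ℕ) : ZMod n))) := by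
    intro x hx
    rw [mem_filter] at hx
    have h1 : d • x.1 = 0 := congrArg Prod.fst hx.2
    have h2 : d • x.2 = 0 := congrArg Prod.snd hx.2
    obtain ⟨i, hi, hi'⟩ := zmod_tors' hdg x.1 h1
    obtain ⟨j, hj, hj'⟩ := zmod_tors' hdg x.2 h2
    rw [mem_image]
    refine ⟨(i, j), mem_product.2 ⟨mem_range.2 hi, mem_range.2 hj⟩, ?_⟩
    exact Prod.ext hi' hj'
  refine (card_le_card h).trans (card_image_le.trans ?_)
  rw [card_product, card_range, sq]

theorem card_G_le {n ℓ : ℕ} (hℓ : n ≤ 2 ^ ℓ) : Nat.card (ZMod n × ZMod n) ≤ 4 ^ ℓ := by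
  rw [Nat.card_prod, Nat.card_zmod]
  calc n * n ≤ 2 ^ ℓ * 2 ^ ℓ := Nat.mul_le_mul hℓ hℓ
    _ = 4 ^ ℓ := by rw [← mul_pow]; norm_num

/-- the dilated differences -/
theorem card_dilate {n m q : ℕ} [NeZero n] (hn : n = m * q) (hq : q.Prime)
    {H : AddSubgroup (ZMod n × ZMod n)} (hqH : ¬ q ∣ Nat.card H)
    {S : Finset (ZMod n × ZMod n)} (hS : S.Nonempty) {D' : Finset ((ZMod n × ZMod n) ⧸ H)}
    (hD' : ∀ d ∈ Dif H S, m • d ∈ D') : #S ≤ m ^ 2 * #D' := by
  classical
  obtain ⟨x₀, hx₀⟩ := hS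
  set f : ZMod n × ZMod n → (ZMod n × ZMod n) ⧸ H :=
    fun x => m • ((x - x₀ : ZMod n × ZMod n) : (ZMod n × ZMod n) ⧸ H) with hf
  have hsub : S.image f ⊆ D' := by
    intro y hy
    obtain ⟨x, hx, rfl⟩ := mem_image.1 hy
    exact hD' _ (mem_Dif.2 ⟨x₀, hx₀, x, hx, rfl⟩)
  refine (card_le_mul_card_image S (m ^ 2) ?_).trans (Nat.mul_le_mul_left _ (card_le_card hsub))
  intro a ha
  obtain ⟨x₁, hx₁, rfl⟩ := mem_image.1 ha
  refine (card_le_card_of_injOn (fun x => x - x₁) ?_ ?_).trans (card_tors' (d := m) hn.symm)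
  · intro x hx
    rw [mem_coe, mem_filter] at hx
    rw [mem_coe, mem_filter]
    refine ⟨mem_univ _, ?_⟩
    have h1 := hx.2
    rw [hf] at h1
    simp only at h1
    rw [← QuotientAddGroup.mk_nsmul, ← QuotientAddGroup.mk_nsmul, QuotientAddGroup.eq] at h1
    have h2 : m • (x - x₁) ∈ H := by
      have := H.neg_mem h1
      convert this using 1
      simp only [smul_sub]
      abel
    refine eq_zero_of_mem hq hqH h2 ?_
    rw [smul_smul, mul_comm, ← hn]
    refine Prod.ext ?_ ?_
    · exact q_nsmul _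
    · exact q_nsmul _
  · intro x _ y _ h
    simpa using h

/-- `q` divides the order of `H` -/
theorem q_dvd_card {n m q : ℕ} [NeZero n] (hn : n = m * q) (hq : q.Prime)
    {H : AddSubgroup (ZMod n × ZMod n)} {A R S : Finset (ZMod n × ZMod n)}
    {V : ℕ → Finset (ZMod n × ZMod n)} {w b c ℓ : ℕ} (hfill : Fills H R)
    (hcl : Closed' H R (A \ R) c) (hbox : Boxes H (A \ R) w b V S) (hwb : w * b ≤ c)
    (hℓ : n ≤ 2 ^ ℓ) (hS : n ≤ #S) (hw : w ≤ n)
    (hbig : (14 * ℓ * 301 * 600 * m ^ 3) ^ 3 * (27 * q ^ 2) ≤ w ^ 3) : q ∣ Nat.card H := by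
  classical
  by_contra hqH
  have : Fact q.Prime := ⟨hq⟩
  have hn0 : 0 < n := Nat.pos_of_ne_zero (NeZero.ne n)
  have hm : 1 ≤ m := by
    rcases Nat.eq_zero_or_pos m with h | h
    · rw [h, zero_mul] at hn
      omega
    · exact h
  have hq2 := hq.two_le
  have hqn : q ≤ n := by
    rw [hn]
    exact Nat.le_mul_of_pos_left q hm
  have hℓ1 : 1 ≤ ℓ := by
    by_contra h
    have h0 : ℓ = 0 := by omega
    rw [h0, pow_zero] at hℓ
    omega
  have hcard := card_G_le hℓ
  have hSne : S.Nonempty := card_pos.1 (by omega)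
  have h0 : (0 : (ZMod n × ZMod n) ⧸ H) ∈ Dif H S := zero_mem_Dif hSne
  have hneg := neg_mem_Dif (H := H) (S := S)
  set D' : Finset ((ZMod n × ZMod n) ⧸ H) := (Dif H S).image (fun y => m • y) with hD'
  have h0' : (0 : (ZMod n × ZMod n) ⧸ H) ∈ D' := by
    rw [hD', mem_image]
    exact ⟨0, h0, smul_zero m⟩
  have hneg' : ∀ x ∈ D', -x ∈ D' := by
    intro x hx
    rw [hD', mem_image] at hx ⊢
    obtain ⟨y, hy, rfl⟩ := hx
    exact ⟨-y, hneg y hy, smul_neg m y⟩
  have hball : ∀ k x, x ∈ ball D' k → x ∈ ball (Dif H S) (m * k) := by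
    intro k x hx
    obtain ⟨y, hy, rfl⟩ := (mem_ball_image m).1 hx
    exact ball_nsmul m hy
  have hinj := embQ_injective hn hq hm hqH
  -- the balls in coordinates
  set X : ℕ → Finset (ZMod q × ZMod q) := fun k => univ.filter (fun v => embQ hn H v ∈ ball D' k)
    with hX
  have hXmem : ∀ k v, v ∈ X k ↔ embQ hn H v ∈ ball D' k := fun k v => by
    rw [hX]
    simp only [mem_filter, mem_univ, true_and]
  have hXc : ∀ k, #(X k) = #(ball D' k) := by
    intro k
    rw [← card_image_of_injective (X k) hinj]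
    congr 1
    ext x
    rw [mem_image]
    constructor
    · rintro ⟨v, hv, rfl⟩
      exact (hXmem k v).1 hv
    · intro hx
      obtain ⟨y, _, rfl⟩ := (mem_ball_image m).1 hx
      obtain ⟨v, hv⟩ := exists_embQ hn y
      exact ⟨v, (hXmem k v).2 (by rw [hv]; exact hx), hv⟩
  have hle : ∀ k, #(ball D' k) ≤ q ^ 2 := by
    intro k
    rw [← hXc]
    refine (card_le_univ _).trans ?_
    rw [Fintype.card_prod, ZMod.card, sq]
  -- many differences
  have hDc : q ≤ m * #D' := by
    have h1 := card_dilate (m := m) hn hq hqH hSne (D' := D') (fun d hd => by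
      rw [hD', mem_image]
      exact ⟨d, hd, rfl⟩)
    have h2 : m * q ≤ m * (m * #D') := by
      calc m * q = n := hn.symm
        _ ≤ m ^ 2 * #D' := hS.trans h1
        _ = _ := by ring
    exact Nat.le_of_mul_le_mul_left h2 hm
  have hmq : m < q := by
    by_contra hcon
    push Not at hcon
    have h1 : w ^ 3 ≤ n ^ 3 := Nat.pow_le_pow_left hw 3
    have h2 : (m ^ 3) ^ 3 * (27 * q ^ 2) ≤ (14 * ℓ * 301 * 600 * m ^ 3) ^ 3 * (27 * q ^ 2) := by
      refine Nat.mul_le_mul_right _ (Nat.pow_le_pow_left ?_ 3)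
      refine Nat.le_mul_of_pos_left _ ?_
      omega
    have h3 : (m ^ 3) ^ 3 * (27 * q ^ 2) ≤ n ^ 3 := h2.trans (hbig.trans h1)
    rw [hn] at h3
    have h4 : m ^ 3 * q ^ 2 * (27 * m ^ 6) ≤ m ^ 3 * q ^ 2 * q := by
      calc m ^ 3 * q ^ 2 * (27 * m ^ 6) = (m ^ 3) ^ 3 * (27 * q ^ 2) := by ring
        _ ≤ (m * q) ^ 3 := h3
        _ = m ^ 3 * q ^ 2 * q := by ring
    have h5 : 27 * m ^ 6 ≤ q := Nat.le_of_mul_le_mul_left h4 (by positivity)
    have h6 : m ≤ m ^ 6 := Nat.le_self_pow (by norm_num) m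
    omega
  have hD2 : 2 ≤ #D' := by
    by_contra hcon
    have : m * #D' ≤ m * 1 := Nat.mul_le_mul_left m (by omega)
    omega
  -- no stabilisation
  have hns : ∀ i < w / (14 * ℓ * m), ball D' (i + 1) ≠ ball D' i := by
    intro i hi h
    obtain ⟨L, hL, hLd⟩ := stable_subgroup h0' hneg' h
    have hiw : 14 * ℓ * (m * i) ≤ w := by
      have h1 : i * (14 * ℓ * m) ≤ w :=
        (Nat.mul_le_mul_right _ hi.le).trans (Nat.div_mul_le_self _ _)
      calc 14 * ℓ * (m * i) = i * (14 * ℓ * m) := by ring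
        _ ≤ w := h1
    have hbot := no_subgroup hfill hcl hbox hwb hcard hiw L
      (fun x hx => hball i x ((hL x).1 hx))
    have h1 : D' ⊆ {0} := by
      intro d hd
      have := hLd d hd
      rw [hbot, AddSubgroup.mem_bot] at this
      rw [mem_singleton]
      exact this
    have := card_le_card h1
    rw [card_singleton] at this
    omega
  have hgrow : ∀ a k, 1 ≤ a → 14 * ℓ * (m * (k * a)) ≤ w →
      k * #(ball D' a) ≤ 3 * #(ball D' (a * k)) := by
    intro a k ha hak
    refine growth h0' hneg' hns ha ?_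
    rw [Nat.le_div_iff_mul_le (by positivity)]
    calc a * k * (14 * ℓ * m) = 14 * ℓ * (m * (k * a)) := by ring
      _ ≤ w := hak
  -- the scales
  set i₀ := Nat.log 3 q with hi₀
  have hlog1 : 3 ^ i₀ ≤ q := Nat.pow_log_le_self 3 (by omega)
  have hlog2 : q < 3 ^ (i₀ + 1) := Nat.lt_pow_succ_log_self (by norm_num) q
  have hrange : ∀ j ≤ i₀, 14 * ℓ * (m * (301 * (2 ^ j * (300 * m)))) ≤ w := by
    intro j hj
    rw [← Nat.pow_le_pow_iff_left (n := 3) (by norm_num)]
    refine le_trans ?_ hbig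
    have h1 : (2 ^ j) ^ 3 ≤ q ^ 2 := by
      calc (2 ^ j) ^ 3 = 8 ^ j := by rw [← pow_mul, mul_comm, pow_mul]; norm_num
        _ ≤ 9 ^ j := Nat.pow_le_pow_left (by norm_num) j
        _ ≤ 9 ^ i₀ := Nat.pow_le_pow_right (by norm_num) hj
        _ = (3 ^ i₀) ^ 2 := by rw [← pow_mul, mul_comm, pow_mul]; norm_num
        _ ≤ q ^ 2 := Nat.pow_le_pow_left hlog1 2
    have h2 : m ^ 2 ≤ m ^ 3 := Nat.pow_le_pow_right hm (by norm_num)
    calc (14 * ℓ * (m * (301 * (2 ^ j * (300 * m))))) ^ 3
        = (14 * ℓ * 301 * 300 * m ^ 2) ^ 3 * (2 ^ j) ^ 3 := by ring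
      _ ≤ (14 * ℓ * 301 * 600 * m ^ 3) ^ 3 * (27 * q ^ 2) := by
        refine Nat.mul_le_mul (Nat.pow_le_pow_left ?_ 3) (by omega)
        exact Nat.mul_le_mul (Nat.mul_le_mul_left _ (by norm_num)) h2
  by_cases hex : ∃ j ≤ i₀, q ^ 2 < 100 * #(ball D' (2 ^ j * (300 * m)))
  · obtain ⟨j, hj, hbj⟩ := hex
    have h1 := hgrow (2 ^ j * (300 * m)) 301 (Nat.mul_pos (by positivity) (by omega))
      (hrange j hj)
    have h2 := hle (2 ^ j * (300 * m) * 301)
    omega
  · push Not at hex
    have hind : ∀ j ≤ i₀, 3 ^ j * (100 * q) ≤ #(ball D' (2 ^ j * (300 * m))) := by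
      intro j
      induction j with
      | zero =>
        intro _
        have h1 := hgrow 1 (300 * m) le_rfl (by
          refine le_trans ?_ (hrange 0 (Nat.zero_le _))
          have : m * (300 * m * 1) ≤ m * (301 * (2 ^ 0 * (300 * m))) := by
            refine Nat.mul_le_mul_left m ?_
            omega
          exact Nat.mul_le_mul_left _ this)
        rw [card_ball_one] at h1
        have h2 : 300 * q ≤ 300 * m * #D' := by
          calc 300 * q ≤ 300 * (m * #D') := Nat.mul_le_mul_left _ hDc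
            _ = _ := by ring
        rw [pow_zero, pow_zero, one_mul, one_mul]
        rw [one_mul] at h1
        omega
      | succ j ih =>
        intro hj
        have h1 := ih (by omega)
        have h2 := hex j (by omega)
        set a := 2 ^ j * (300 * m) with ha
        have ha2 : 2 ^ (j + 1) * (300 * m) = a + a := by rw [ha, pow_succ]; ring
        have h3j : 1 ≤ 3 ^ j := Nat.one_le_pow _ _ (by norm_num)
        have hsub : X a + X a ⊆ X (a + a) := by
          intro v hv
          obtain ⟨v₁, hv₁, v₂, hv₂, rfl⟩ := Finset.mem_add.1 hv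
          rw [hXmem, map_add]
          exact ball_add ((hXmem _ _).1 hv₁) ((hXmem _ _).1 hv₂)
        have h3 : 3 * #(X a) ≤ #(X a + X a) := by
          refine doubling ?_ ?_ ?_
          · rw [hXc]
            refine le_trans ?_ h1
            exact Nat.le_mul_of_pos_left _ h3j
          · rw [hXc]
            exact h2
          · intro l hl z
            by_contra hcon
            push Not at hcon
            -- the line is in the ball
            have h4 : ∀ c : ℕ, embQ hn H (c • l) ∈ ball D' ((a + a) + (a + a)) := by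
              intro c
              have h5 := (hXmem _ _).1 (hsub (hcon (c : ZMod q)))
              have h6 := (hXmem _ _).1 (hsub (hcon (0 : ZMod q)))
              have h7 := ball_sub hneg' h5 h6
              have h8 : embQ hn H (z + (c : ZMod q) • l) - embQ hn H (z + (0 : ZMod q) • l) =
                  embQ hn H (c • l) := by
                rw [← map_sub, zero_smul, add_zero, add_sub_cancel_left,
                  Nat.cast_smul_eq_nsmul]
              rwa [h8] at h7
            have hbot := no_subgroup hfill hcl hbox hwb hcard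
              (k := m * ((a + a) + (a + a))) (by
                refine le_trans ?_ (hrange j (by omega))
                refine Nat.mul_le_mul_left _ (Nat.mul_le_mul_left m ?_)
                rw [← ha]
                omega) (AddSubgroup.zmultiples (embQ hn H l)) (by
                intro x hx
                obtain ⟨i, rfl⟩ := AddSubgroup.mem_zmultiples_iff.1 hx
                apply hball
                have h9 : i • embQ hn H l = embQ hn H ((i : ZMod q).val • l) := by
                  rw [← map_zsmul, ← Int.cast_smul_eq_zsmul (ZMod q),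
                    ← Nat.cast_smul_eq_nsmul (ZMod q), ZMod.natCast_zmod_val]
                rw [h9]
                exact h4 _)
            rw [AddSubgroup.zmultiples_eq_bot] at hbot
            exact hl (hinj (hbot.trans (map_zero _).symm))
        have h4 := card_le_card hsub
        rw [hXc] at h3 h4
        rw [ha2, pow_succ]
        calc 3 ^ j * 3 * (100 * q) = 3 * (3 ^ j * (100 * q)) := by ring
          _ ≤ 3 * #(ball D' a) := Nat.mul_le_mul_left 3 h1
          _ ≤ #(ball D' (a + a)) := h3.trans h4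
    have h1 := hind i₀ le_rfl
    have h2 := hex i₀ le_rfl
    have h3 : 3 ^ i₀ * (100 * q) * 100 ≤ q * q := by
      rw [sq] at h2
      calc 3 ^ i₀ * (100 * q) * 100 ≤ #(ball D' (2 ^ i₀ * (300 * m))) * 100 :=
            Nat.mul_le_mul_right _ h1
        _ ≤ q * q := by rw [mul_comm]; exact h2
    have h4 : q * (10000 * 3 ^ i₀) ≤ q * q := by
      calc q * (10000 * 3 ^ i₀) = 3 ^ i₀ * (100 * q) * 100 := by ring
        _ ≤ q * q := h3
    have h5 := Nat.le_of_mul_le_mul_left h4 (by omega)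
    rw [pow_succ] at hlog2
    omega

/-- linear growth for `n = m q` -/
theorem linear_prime {n m q : ℕ} [NeZero n] (hn : n = m * q) (hq : q.Prime)
    {H : AddSubgroup (ZMod n × ZMod n)} {A R S : Finset (ZMod n × ZMod n)}
    {V : ℕ → Finset (ZMod n × ZMod n)} {w b c ℓ : ℕ} (hfill : Fills H R)
    (hcl : Closed' H R (A \ R) c) (hbox : Boxes H (A \ R) w b V S) (hwb : w * b ≤ c)
    (hℓ : n ≤ 2 ^ ℓ) (hS : n ≤ #S) (hw : w ≤ n)
    (hbig : (14 * ℓ * 301 * 600 * m ^ 3) ^ 3 * (27 * q ^ 2) ≤ w ^ 3) :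
    ∀ k, 1 ≤ k → 14 * ℓ * k ≤ w → w * #(ball (Dif H S) k) ≤ 84 * ℓ * m ^ 2 * q * k := by
  classical
  intro k hk hkw
  have hdvd := q_dvd_card hn hq hfill hcl hbox hwb hℓ hS hw hbig
  have hn0 : 0 < n := Nat.pos_of_ne_zero (NeZero.ne n)
  have hm : 1 ≤ m := by
    rcases Nat.eq_zero_or_pos m with h | h
    · rw [h, zero_mul] at hn
      omega
    · exact h
  have hq2 := hq.two_le
  have hℓ1 : 1 ≤ ℓ := by
    by_contra h
    have h0 : ℓ = 0 := by omega
    rw [h0, pow_zero] at hℓ
    have : 1 * q ≤ m * q := Nat.mul_le_mul_right q hm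
    omega
  have hcard := card_G_le hℓ
  have hSne : S.Nonempty := card_pos.1 (by omega)
  have h0 : (0 : (ZMod n × ZMod n) ⧸ H) ∈ Dif H S := zero_mem_Dif hSne
  have hneg := neg_mem_Dif (H := H) (S := S)
  -- the order of the quotient
  have hQ : Nat.card ((ZMod n × ZMod n) ⧸ H) ≤ m ^ 2 * q := by
    have h1 := AddSubgroup.card_eq_card_quotient_mul_card_addSubgroup H
    rw [Nat.card_prod, Nat.card_zmod] at h1
    have h2 : q ≤ Nat.card H := Nat.le_of_dvd Nat.card_pos hdvd
    have h3 : Nat.card ((ZMod n × ZMod n) ⧸ H) * q ≤ m ^ 2 * q * q := by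
      calc Nat.card ((ZMod n × ZMod n) ⧸ H) * q ≤
            Nat.card ((ZMod n × ZMod n) ⧸ H) * Nat.card H := Nat.mul_le_mul_left _ h2
        _ = n * n := h1.symm
        _ = m ^ 2 * q * q := by rw [hn]; ring
    exact Nat.le_of_mul_le_mul_right h3 (by omega)
  by_cases hD1 : #(Dif H S) ≤ 1
  · -- trivial differences
    have h1 : ∀ i, ball (Dif H S) i ⊆ {0} := by
      intro i
      induction i with
      | zero =>
        intro x hx
        rw [mem_ball_zero] at hx
        rw [mem_singleton]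
        exact hx
      | succ i ih =>
        intro x hx
        obtain ⟨y, hy, d, hd, rfl⟩ := mem_ball_succ.1 hx
        have h2 := mem_singleton.1 (ih hy)
        have h3 := card_le_one.1 hD1 d hd 0 h0
        rw [mem_singleton, h2, h3, add_zero]
    have h2 := card_le_card (h1 k)
    rw [card_singleton] at h2
    calc w * #(ball (Dif H S) k) ≤ w * 1 := Nat.mul_le_mul_left w h2
      _ ≤ m * q := by rw [mul_one, ← hn]; exact hw
      _ = 1 * (m * 1 * q * 1) := by ring
      _ ≤ 84 * ℓ * (m * m * q * k) := by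
        refine Nat.mul_le_mul (by omega) ?_
        exact Nat.mul_le_mul (Nat.mul_le_mul_right q (Nat.mul_le_mul_left m hm)) hk
      _ = 84 * ℓ * m ^ 2 * q * k := by ring
  · have hns : ∀ i < w / (14 * ℓ), ball (Dif H S) (i + 1) ≠ ball (Dif H S) i := by
      intro i hi h
      obtain ⟨L, hL, hLd⟩ := stable_subgroup h0 hneg h
      have hiw : 14 * ℓ * i ≤ w := by
        have h1 : i * (14 * ℓ) ≤ w :=
          (Nat.mul_le_mul_right _ hi.le).trans (Nat.div_mul_le_self _ _)
        calc 14 * ℓ * i = i * (14 * ℓ) := by ring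
          _ ≤ w := h1
      have hbot := no_subgroup hfill hcl hbox hwb hcard hiw L (fun x hx => (hL x).1 hx)
      have h1 : Dif H S ⊆ {0} := by
        intro d hd
        have := hLd d hd
        rw [hbot, AddSubgroup.mem_bot] at this
        rw [mem_singleton]
        exact this
      have := card_le_card h1
      rw [card_singleton] at this
      omega
    set j := w / (14 * ℓ * k) with hj
    have hjpos : 1 ≤ j := (Nat.le_div_iff_mul_le (by positivity)).2 (by omega)
    have hjw : j * (14 * ℓ * k) ≤ w := Nat.div_mul_le_self _ _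
    have hjw' : w < (j + 1) * (14 * ℓ * k) := by
      rw [mul_comm]
      exact Nat.lt_mul_div_succ w (by positivity)
    have h1 := growth h0 hneg hns (a := k) (k := j) hk (by
      rw [Nat.le_div_iff_mul_le (by positivity)]
      calc k * j * (14 * ℓ) = j * (14 * ℓ * k) := by ring
        _ ≤ w := hjw)
    have h2 : #(ball (Dif H S) (k * j)) ≤ m ^ 2 * q := by
      have : Fintype ((ZMod n × ZMod n) ⧸ H) := Fintype.ofFinite _
      refine (card_le_univ _).trans ?_
      rw [← Nat.card_eq_fintype_card]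
      exact hQ
    calc w * #(ball (Dif H S) k) ≤ (j + 1) * (14 * ℓ * k) * #(ball (Dif H S) k) :=
          Nat.mul_le_mul_right _ hjw'.le
      _ ≤ (j + j) * (14 * ℓ * k) * #(ball (Dif H S) k) := by
        refine Nat.mul_le_mul_right _ (Nat.mul_le_mul_right _ (by omega))
      _ = 28 * ℓ * k * (j * #(ball (Dif H S) k)) := by ring
      _ ≤ 28 * ℓ * k * (3 * (m ^ 2 * q)) :=
        Nat.mul_le_mul_left _ (h1.trans (Nat.mul_le_mul_left 3 h2))
      _ = 84 * ℓ * m ^ 2 * q * k := by ring

end Pool.Agent.Lib.MPa7239a.GC
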