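import Pool.Agent.Lib.MP_a7239a_co.GC.MainD
import Pool.Agent.Lib.MP_a7239a_co.GC.PR2
import Pool.Agent.Lib.MP_a7239a_co.GC.EV2

/-!
# `n = m q` with `q` prime and `m` small; all large `n`
-/

open Finset

namespace Pool.Agent.Lib.MPa7239a.GC

/-- the case `n = m q`, from the parameters -/
theorem hit_prime {n m q ℓ w Λ₀ Λ κ : ℕ} (hn : n = m * q) (hq : q.Prime) (hℓ : n < 2 ^ ℓ)
    (hb : (3 * ℓ + 1) * n ^ 2 < 2 ^ (3 * ℓ)) (hw₁ : 36000 * ℓ ^ 3 * w ≤ n) (hw₂ : n ≤ Λ₀ * w)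
    (hΛ₀ : 1000 ≤ Λ₀) (hΛ : Λ₀ ≤ Λ) (hΛm : 84 * ℓ * m * Λ₀ ≤ Λ) (hκ : 7 * Λ ^ 2 ≤ 2 ^ κ)
    (hbig : (4 * Λ ^ 2) ^ (4 * κ + 13) ≤ n) (hR₀ : 14 * ℓ * (2 * (4 * Λ ^ 2) ^ (κ + 1)) ≤ w)
    (hbig' : (14 * ℓ * 301 * 600 * m ^ 3) ^ 3 * (27 * q ^ 2) ≤ w ^ 3)
    {A : Finset (ZMod n × ZMod n)}
    (hA : (Odd n ∧ #A + 1 = 2 * n) ∨ #A = 2 * n + 1) : Hit A n 0 := by
  have hΛ1 : 1 ≤ Λ := by omega
  have hn0 : n ≠ 0 := by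
    have : 0 < (4 * Λ ^ 2) ^ (4 * κ + 13) := Nat.pow_pos (by positivity)
    omega
  have : NeZero n := ⟨hn0⟩
  have hℓ0 : 1 ≤ ℓ := by
    rcases Nat.eq_zero_or_pos ℓ with h | h
    · rw [h] at hℓ
      norm_num at hℓ
      omega
    · exact h
  have hw0 : 0 < w := by
    rcases Nat.eq_zero_or_pos w with h | h
    · rw [h, mul_zero] at hw₂
      omega
    · exact h
  have hwn : w ≤ n := by
    refine le_trans ?_ hw₁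
    have h1 : 1 ≤ 36000 * ℓ ^ 3 := by
      have := Nat.one_le_pow 3 ℓ hℓ0
      omega
    calc w = 1 * w := (one_mul w).symm
      _ ≤ 36000 * ℓ ^ 3 * w := Nat.mul_le_mul_right _ h1
  refine upper_of hℓ hb hw₁ hw₂ hΛ₀ hΛ hκ hbig ?_ hA
  intro A' H R S V _ hfill _ hcl hbox hS k hk1 hk2
  have h1 := linear_prime hn hq hfill hcl hbox le_rfl hℓ.le hS hwn hbig' k hk1
    ((Nat.mul_le_mul_left _ hk2).trans hR₀)
  have h2 : 84 * ℓ * m ^ 2 * q * k ≤ w * (Λ * k) := by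
    calc 84 * ℓ * m ^ 2 * q * k = 84 * ℓ * m * k * (m * q) := by ring
      _ = 84 * ℓ * m * k * n := by rw [← hn]
      _ ≤ 84 * ℓ * m * k * (Λ₀ * w) := Nat.mul_le_mul_left _ hw₂
      _ = (84 * ℓ * m * Λ₀) * (w * k) := by ring
      _ ≤ Λ * (w * k) := Nat.mul_le_mul_right _ hΛm
      _ = w * (Λ * k) := by ring
  exact Nat.le_of_mul_le_mul_left (h1.trans h2) hw0

theorem exact_prime : ∃ n₀ : ℕ, ∀ n ≥ n₀, ∀ m q : ℕ, q.Prime → n = m * q → 1 ≤ m →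
    m < (Nat.log 2 n) ^ 4 → Value n := by
  obtain ⟨n₀, h⟩ := parameters2
  refine ⟨max n₀ 2, fun n hn m q hq hmq _ hm => ?_⟩
  obtain ⟨ℓ, w, Λ₀, Λ, κ, hℓ, -, hb, hw₁, hw₂, hΛ₀, hΛ, hΛm, hκ, hbig, hR₀, hbig'⟩ :=
    h n ((le_max_left _ _).trans hn) m q hmq hm
  exact val_of_upper ((le_max_right _ _).trans hn) fun A hA =>
    hit_prime hmq hq hℓ hb hw₁ hw₂ hΛ₀ hΛ hΛm hκ hbig hR₀ hbig' hA

/-- THE GAO-THANGADURAI CONJECTURE FOR ALL LARGE `n` -/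
theorem all_large_n : ∃ n₀ : ℕ, ∀ n ≥ n₀, Value n := all_n exact_divisor exact_prime

end Pool.Agent.Lib.MPa7239a.GC
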