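import Mathlib

/-!
# Sumsets in `F_q ^ 2` which contain no full line
-/

open Finset

namespace Pool.Agent.Lib.MPa7239a.GC

/-! ### Level sets -/

private theorem layer {ι : Type*} [Fintype ι] (F : ι → ℕ) {M : ℕ} (hF : ∀ z, F z ≤ M) :
    ∑ z, F z = ∑ h ∈ range M, #(univ.filter (fun z => h < F z)) := by
  classical
  simp_rw [card_filter]
  rw [sum_comm]
  refine sum_congr rfl (fun z _ => ?_)
  rw [← card_filter]
  have h1 : (range M).filter (fun h => h < F z) = range (F z) := by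
    ext h
    rw [mem_filter, mem_range, mem_range]
    have := hF z
    omega
  rw [h1, card_range]

private theorem layer_char {ι : Type*} [Fintype ι] (F : ι → ℕ) {M : ℕ} (hF : ∀ z, F z ≤ M)
    (e : ι → ℂ) :
    ∑ z, (F z : ℂ) * e z = ∑ h ∈ range M, ∑ z ∈ univ.filter (fun z => h < F z), e z := by
  classical
  simp_rw [sum_filter]
  rw [sum_comm]
  refine sum_congr rfl (fun z _ => ?_)
  rw [← sum_filter, sum_const]
  have h1 : (range M).filter (fun h => h < F z) = range (F z) := by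
    ext h
    rw [mem_filter, mem_range, mem_range]
    have := hF z
    omega
  rw [h1, card_range, nsmul_eq_mul]

private theorem odd_even (N : ℕ → ℕ) (hN : ∀ j, N (j + 1) ≤ N j) (k : ℕ) :
    2 * ∑ h ∈ range k, N (2 * h) + N (2 * k) ≤ ∑ j ∈ range (2 * k), N j + N 0 := by
  induction k with
  | zero => simp
  | succ k ih =>
    rw [sum_range_succ, show 2 * (k + 1) = 2 * k + 1 + 1 by ring, sum_range_succ, sum_range_succ]
    have h1 := hN (2 * k + 1)
    omega

open scoped Pointwise in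
private theorem level_bound {q m : ℕ} [Fact q.Prime] (hqm : q = 2 * m + 1) (f g : ZMod q → ℕ)
    (hg : ∀ z, g z ≤ 2 * m)
    (hfg : ∀ z₁ z₂, 0 < f z₁ → 0 < f z₂ → f z₁ + f z₂ ≤ g (z₁ + z₂) + 1)
    (e : ZMod q → ℂ) (he : ∑ z, e z = 0) (hnorm : ∀ z, ‖e z‖ ≤ 1) :
    2 * ‖∑ z, (f z : ℂ) * e z‖ + 2 * ((∑ z, f z : ℕ) : ℝ) ≤
      ((∑ z, g z : ℕ) : ℝ) + 2 * (q : ℝ) := by
  classical
  have hfm : ∀ z, f z ≤ m := by
    intro z
    by_contra hc
    push Not at hc
    have h1 := hfg z z (by omega) (by omega)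
    have h2 := hg (z + z)
    omega
  have hcardq : Fintype.card (ZMod q) = q := ZMod.card q
  rw [layer f hfm, layer g hg, layer_char f hfm e]
  set Y : ℕ → Finset (ZMod q) := fun h => univ.filter (fun z => h < f z) with hY
  set N : ℕ → ℕ := fun j => #(univ.filter (fun z => j < g z)) with hN
  have hNanti : ∀ j, N (j + 1) ≤ N j := by
    intro j
    refine card_le_card (fun z hz => ?_)
    rw [mem_filter] at hz ⊢
    exact ⟨hz.1, by omega⟩
  have hN0 : N 0 ≤ q := by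
    have := card_le_univ (univ.filter (fun z => 0 < g z))
    rwa [hcardq] at this
  have hoe := odd_even N hNanti m
  have hkey : ∀ h ∈ range m, ‖∑ z ∈ Y h, e z‖ + (#(Y h) : ℝ) ≤ (N (2 * h) : ℝ) + 1 := by
    intro h _
    have hYq : #(Y h) ≤ q := by
      have := card_le_univ (Y h)
      rwa [hcardq] at this
    have a1 : ‖∑ z ∈ Y h, e z‖ ≤ (#(Y h) : ℝ) := by
      refine (norm_sum_le _ _).trans ?_
      refine (sum_le_card_nsmul _ _ 1 (fun z _ => hnorm z)).trans ?_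
      rw [nsmul_eq_mul, mul_one]
    have a2 : ‖∑ z ∈ Y h, e z‖ ≤ (q : ℝ) - (#(Y h) : ℝ) := by
      have b1 : ∑ z ∈ Y h, e z = -∑ z ∈ (Y h)ᶜ, e z := by
        rw [eq_neg_iff_add_eq_zero, sum_add_sum_compl, he]
      rw [b1, norm_neg]
      have b2 : ((#(Y h)ᶜ : ℕ) : ℝ) = (q : ℝ) - (#(Y h) : ℝ) := by
        rw [card_compl, hcardq, Nat.cast_sub hYq]
      rw [← b2]
      refine (norm_sum_le _ _).trans ?_
      refine (sum_le_card_nsmul _ _ 1 (fun z _ => hnorm z)).trans ?_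
      rw [nsmul_eq_mul, mul_one]
    rcases (Y h).eq_empty_or_nonempty with hemp | hne
    · rw [hemp]
      simp only [sum_empty, norm_zero, card_empty, Nat.cast_zero, add_zero]
      positivity
    · have c1 := ZMod.cauchy_davenport (Fact.out : q.Prime) hne hne
      have c2 : #(Y h + Y h) ≤ N (2 * h) := by
        refine card_le_card (fun z hz => ?_)
        obtain ⟨x, hx, y, hy, rfl⟩ := mem_add.1 hz
        rw [hY, mem_filter] at hx hy
        rw [mem_filter]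
        refine ⟨mem_univ _, ?_⟩
        have := hfg x y (by omega) (by omega)
        omega
      have c3 : 1 ≤ #(Y h) := hne.card_pos
      have c4 : min q (2 * #(Y h)) ≤ N (2 * h) + 1 := by
        have := c1.trans c2
        omega
      rcases le_total q (2 * #(Y h)) with h5 | h5
      · rw [min_eq_left h5] at c4
        have c5 : (q : ℝ) ≤ (N (2 * h) : ℝ) + 1 := by exact_mod_cast c4
        linarith
      · rw [min_eq_right h5] at c4
        have c5 : 2 * (#(Y h) : ℝ) ≤ (N (2 * h) : ℝ) + 1 := by exact_mod_cast c4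
        linarith
  have hsum : ‖∑ h ∈ range m, ∑ z ∈ Y h, e z‖ + ((∑ h ∈ range m, #(Y h) : ℕ) : ℝ) ≤
      ((∑ h ∈ range m, N (2 * h) : ℕ) : ℝ) + m := by
    calc ‖∑ h ∈ range m, ∑ z ∈ Y h, e z‖ + ((∑ h ∈ range m, #(Y h) : ℕ) : ℝ)
        ≤ ∑ h ∈ range m, ‖∑ z ∈ Y h, e z‖ + ∑ h ∈ range m, (#(Y h) : ℝ) := by
          rw [Nat.cast_sum]
          gcongr
          exact norm_sum_le _ _
      _ = ∑ h ∈ range m, (‖∑ z ∈ Y h, e z‖ + (#(Y h) : ℝ)) := by rw [sum_add_distrib]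
      _ ≤ ∑ h ∈ range m, ((N (2 * h) : ℝ) + 1) := sum_le_sum hkey
      _ = ((∑ h ∈ range m, N (2 * h) : ℕ) : ℝ) + m := by
          rw [sum_add_distrib, Nat.cast_sum, sum_const, card_range, nsmul_eq_mul, mul_one]
  have hoe2 : 2 * ((∑ h ∈ range m, N (2 * h) : ℕ) : ℝ) ≤
      ((∑ j ∈ range (2 * m), N j : ℕ) : ℝ) + q := by
    have : 2 * ∑ h ∈ range m, N (2 * h) ≤ ∑ j ∈ range (2 * m), N j + q := by omega
    exact_mod_cast this
  have hqr : (q : ℝ) = 2 * m + 1 := by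
    rw [hqm]
    push_cast
    ring
  linarith

/-! ### Characters -/

private theorem char_eq {q : ℕ} [Fact q.Prime] {V : Type*} [AddCommGroup V]
    (hq : ∀ x : V, q • x = 0) (ψ : AddChar V ℂ) (hψ : ψ ≠ 0) :
    ∃ φ : V →+ ZMod q, Function.Surjective φ ∧ ∀ x, ψ x = ZMod.stdAddChar (φ x) := by
  have hp : q.Prime := Fact.out
  have : NeZero q := ⟨hp.ne_zero⟩
  have hprim : IsPrimitiveRoot (ZMod.stdAddChar (1 : ZMod q)) q := by
    have h1 := Complex.isPrimitiveRoot_exp q hp.ne_zero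
    have h2 := ZMod.stdAddChar_coe (N := q) 1
    rw [Int.cast_one] at h2
    rw [h2]
    simpa using h1
  have hex : ∀ x : V, ∃ j : ZMod q, ψ x = ZMod.stdAddChar j := by
    intro x
    have h1 : (ψ x) ^ q = 1 := by
      rw [← AddChar.map_nsmul_eq_pow, hq x, AddChar.map_zero_eq_one]
    obtain ⟨i, -, hi⟩ := hprim.eq_pow_of_pow_eq_one h1
    refine ⟨(i : ZMod q), ?_⟩
    rw [← hi, ← AddChar.map_nsmul_eq_pow, nsmul_one]
  choose φ hφ using hex
  have hinj := ZMod.injective_stdAddChar (N := q)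
  have hadd : ∀ x y, φ (x + y) = φ x + φ y := by
    intro x y
    apply hinj
    rw [← hφ, AddChar.map_add_eq_mul, AddChar.map_add_eq_mul, hφ, hφ]
  let Φ : V →+ ZMod q := AddMonoidHom.mk' φ hadd
  have hΦ : ∀ x, Φ x = φ x := fun x => rfl
  refine ⟨Φ, ?_, fun x => by rw [hΦ]; exact hφ x⟩
  obtain ⟨x₀, hx₀⟩ : ∃ x₀, φ x₀ ≠ 0 := by
    by_contra hc
    push Not at hc
    apply hψ
    ext x
    rw [hφ x, hc x, AddChar.map_zero_eq_one]
    rfl
  intro z
  refine ⟨(z * (φ x₀)⁻¹).val • x₀, ?_⟩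
  rw [map_nsmul, hΦ, nsmul_eq_mul, ZMod.natCast_zmod_val, mul_assoc, inv_mul_cancel₀ hx₀, mul_one]

private theorem card_fibre {q : ℕ} [Fact q.Prime] {V : Type*} [AddCommGroup V] [Fintype V]
    [DecidableEq V] (hV : Fintype.card V = q ^ 2) (φ : V →+ ZMod q)
    (hφ : Function.Surjective φ) (z : ZMod q) : #(univ.filter (fun x => φ x = z)) = q := by
  classical
  have hp : q.Prime := Fact.out
  have h1 : ∀ z, #(univ.filter (fun x => φ x = z)) = #(univ.filter (fun x => φ x = 0)) := by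
    intro z
    obtain ⟨x₀, hx₀⟩ := hφ z
    refine card_bij (fun x _ => x - x₀) ?_ ?_ ?_
    · intro x hx
      rw [mem_filter] at hx ⊢
      exact ⟨mem_univ _, by rw [map_sub, hx.2, hx₀, sub_self]⟩
    · intro x _ y _ hxy
      exact sub_left_inj.1 hxy
    · intro y hy
      rw [mem_filter] at hy
      refine ⟨y + x₀, ?_, add_sub_cancel_right _ _⟩
      rw [mem_filter]
      exact ⟨mem_univ _, by rw [map_add, hy.2, hx₀, zero_add]⟩
  have h2 : ∑ z : ZMod q, #(univ.filter (fun x => φ x = z)) = Fintype.card V := by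
    rw [← card_univ, ← card_eq_sum_card_fiberwise]
    intro x _
    exact mem_univ _
  rw [sum_congr rfl (fun z _ => h1 z), sum_const, card_univ, ZMod.card, hV, smul_eq_mul, sq] at h2
  rw [h1 z]
  exact Nat.eq_of_mul_eq_mul_left hp.pos h2

/-! ### Fourier analysis -/

private noncomputable def FT {V : Type*} [AddCommGroup V] (X : Finset V) (ψ : AddChar V ℂ) : ℂ :=
  ∑ x ∈ X, ψ x

private theorem ft_sq {V : Type*} [AddCommGroup V] [Finite V] (X : Finset V) (ψ : AddChar V ℂ) :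
    ((‖FT X ψ‖ ^ 2 : ℝ) : ℂ) = ∑ p ∈ X ×ˢ X, ψ (p.1 - p.2) := by
  rw [Complex.ofReal_pow, ← Complex.mul_conj', FT, map_sum, sum_mul_sum, sum_product]
  refine sum_congr rfl (fun a _ => sum_congr rfl (fun b _ => ?_))
  rw [← AddChar.map_neg_eq_conj, ← AddChar.map_add_eq_mul, sub_eq_add_neg]

private theorem parseval {V : Type*} [AddCommGroup V] [Fintype V] [DecidableEq V] (X : Finset V) :
    ∑ ψ : AddChar V ℂ, ‖FT X ψ‖ ^ 2 = (Fintype.card V : ℝ) * #X := by
  have h : ((∑ ψ : AddChar V ℂ, ‖FT X ψ‖ ^ 2 : ℝ) : ℂ) = ((Fintype.card V : ℝ) * #X : ℝ) := by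
    rw [Complex.ofReal_sum]
    simp_rw [ft_sq]
    rw [sum_comm]
    simp_rw [AddChar.sum_apply_eq_ite, sub_eq_zero]
    rw [← sum_filter, sum_const, nsmul_eq_mul]
    have h1 : #((X ×ˢ X).filter (fun p => p.1 = p.2)) = #X := by
      have h2 : (X ×ˢ X).filter (fun p => p.1 = p.2) = X.image (fun x => (x, x)) := by
        ext ⟨a, b⟩
        rw [mem_filter, mem_product, mem_image]
        constructor
        · rintro ⟨⟨ha, _⟩, h⟩
          refine ⟨a, ha, ?_⟩
          simp only at h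
          rw [h]
        · rintro ⟨x, hx, h⟩
          obtain ⟨rfl, rfl⟩ := Prod.mk.inj h
          exact ⟨⟨hx, hx⟩, rfl⟩
      rw [h2, card_image_of_injective]
      intro x y hxy
      exact congrArg Prod.fst hxy
    rw [h1]
    push_cast
    ring
  exact_mod_cast h

open scoped Combinatorics.Additive in
private theorem energy {V : Type*} [AddCommGroup V] [Fintype V] [DecidableEq V] (X : Finset V) :
    ∑ ψ : AddChar V ℂ, ‖FT X ψ‖ ^ 4 = (Fintype.card V : ℝ) * (E[X, X] : ℝ) := by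
  have h : ((∑ ψ : AddChar V ℂ, ‖FT X ψ‖ ^ 4 : ℝ) : ℂ) =
      ((Fintype.card V : ℝ) * (E[X, X] : ℝ) : ℝ) := by
    rw [Complex.ofReal_sum]
    have h1 : ∀ ψ : AddChar V ℂ, ((‖FT X ψ‖ ^ 4 : ℝ) : ℂ) =
        ∑ x ∈ (X ×ˢ X) ×ˢ X ×ˢ X, ψ (x.1.1 - x.1.2 + (x.2.1 - x.2.2)) := by
      intro ψ
      have h2 : ((‖FT X ψ‖ ^ 4 : ℝ) : ℂ) = ((‖FT X ψ‖ ^ 2 : ℝ) : ℂ) * ((‖FT X ψ‖ ^ 2 : ℝ) : ℂ) := by
        rw [← Complex.ofReal_mul]
        congr 1
        ring
      rw [h2, ft_sq, sum_mul_sum, ← sum_product']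
      refine sum_congr rfl (fun a _ => ?_)
      rw [← AddChar.map_add_eq_mul]
    simp_rw [h1]
    rw [sum_comm]
    simp_rw [AddChar.sum_apply_eq_ite]
    rw [← sum_filter, sum_const, nsmul_eq_mul, addEnergy]
    have h3 : ((X ×ˢ X) ×ˢ X ×ˢ X).filter (fun x => x.1.1 - x.1.2 + (x.2.1 - x.2.2) = 0) =
        ((X ×ˢ X) ×ˢ X ×ˢ X).filter (fun x => x.1.1 + x.2.1 = x.1.2 + x.2.2) := by
      refine filter_congr (fun x _ => ?_)
      rw [← add_sub_add_comm, sub_eq_zero]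
    rw [h3]
    push_cast
    ring
  exact_mod_cast h

open scoped Pointwise in
theorem three_growth {q : ℕ} [Fact q.Prime] {V : Type*} [AddCommGroup V] [Finite V]
    [DecidableEq V] (hV : Nat.card V = q ^ 2) (hq : ∀ x : V, q • x = 0) (X : Finset V)
    (h1 : 100 * q ≤ #X) (h2 : 100 * #X ≤ q ^ 2)
    (hL : ∀ L : AddSubgroup V, L ≠ ⊥ → ∀ x : V, ∃ y ∈ L, x + y ∉ X + X) :
    3 * #X ≤ #(X + X) := by
  classical
  have : Fintype V := Fintype.ofFinite V
  have hp : q.Prime := Fact.out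
  have : NeZero q := ⟨hp.ne_zero⟩
  have hV' : Fintype.card V = q ^ 2 := by rw [← hV, Nat.card_eq_fintype_card]
  -- `q` is odd
  have hq4 : 10000 ≤ q := by
    have a1 : 100 * (100 * q) ≤ q ^ 2 := (Nat.mul_le_mul_left _ h1).trans h2
    have a2 : 10000 * q ≤ q * q := by
      rw [← sq]
      omega
    exact Nat.le_of_mul_le_mul_right a2 hp.pos
  obtain ⟨m, hqm⟩ : ∃ m, q = 2 * m + 1 := by
    rcases hp.eq_two_or_odd' with h | h
    · omega
    · exact h
  by_contra hcon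
  push Not at hcon
  -- the bound for the nontrivial characters
  have hbound : ∀ ψ : AddChar V ℂ, ψ ≠ 0 → 2 * ‖FT X ψ‖ ≤ (#X : ℝ) + 2 * q := by
    intro ψ hψ
    obtain ⟨φ, hsurj, hφ⟩ := char_eq hq ψ hψ
    set f : ZMod q → ℕ := fun z => #(X.filter (fun x => φ x = z)) with hf
    set g : ZMod q → ℕ := fun z => #((X + X).filter (fun x => φ x = z)) with hg
    have hker : φ.ker ≠ ⊥ := by
      intro hc
      have a1 := card_fibre hV' φ hsurj 0
      have a2 : univ.filter (fun x => φ x = 0) ⊆ {0} := by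
        intro x hx
        rw [mem_filter] at hx
        have : x ∈ φ.ker := hx.2
        rw [hc, AddSubgroup.mem_bot] at this
        rw [this]
        exact mem_singleton_self 0
      have a3 := card_le_card a2
      rw [a1, card_singleton] at a3
      omega
    have hgle : ∀ z, g z ≤ 2 * m := by
      intro z
      obtain ⟨x₀, hx₀⟩ := hsurj z
      obtain ⟨y, hy, hxy⟩ := hL φ.ker hker x₀
      have a1 : (X + X).filter (fun x => φ x = z) ⊂ univ.filter (fun x => φ x = z) := by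
        refine ⟨filter_subset_filter _ (subset_univ _), fun hc => ?_⟩
        have a2 : x₀ + y ∈ univ.filter (fun x => φ x = z) := by
          rw [mem_filter]
          refine ⟨mem_univ _, ?_⟩
          rw [map_add, hx₀, (AddMonoidHom.mem_ker).1 hy, add_zero]
        have a3 := hc a2
        rw [mem_filter] at a3
        exact hxy a3.1
      have a4 := card_lt_card a1
      rw [card_fibre hV' φ hsurj z] at a4
      change #((X + X).filter (fun x => φ x = z)) ≤ 2 * m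
      omega
    have hord : (q : ℕ∞) ≤ AddMonoid.minOrder V := by
      rw [AddMonoid.le_minOrder]
      intro a ha _
      have a1 : addOrderOf a = q := addOrderOf_eq_prime (hq a) ha
      rw [a1]
    have hfg : ∀ z₁ z₂, 0 < f z₁ → 0 < f z₂ → f z₁ + f z₂ ≤ g (z₁ + z₂) + 1 := by
      intro z₁ z₂ hz₁ hz₂
      have a0 := cauchy_davenport_minOrder_add (card_pos.1 hz₁) (card_pos.1 hz₂)
      have a1 : (X.filter (fun x => φ x = z₁)) + (X.filter (fun x => φ x = z₂)) ⊆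
          (X + X).filter (fun x => φ x = z₁ + z₂) := by
        intro x hx
        obtain ⟨u, hu, v, hv, rfl⟩ := mem_add.1 hx
        rw [mem_filter] at hu hv
        rw [mem_filter]
        exact ⟨add_mem_add hu.1 hv.1, by rw [map_add, hu.2, hv.2]⟩
      have a2 := card_le_card a1
      have a3 := hgle (z₁ + z₂)
      change #((X + X).filter (fun x => φ x = z₁ + z₂)) ≤ 2 * m at a3
      change #(X.filter (fun x => φ x = z₁)) + #(X.filter (fun x => φ x = z₂)) ≤
        #((X + X).filter (fun x => φ x = z₁ + z₂)) + 1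
      rcases min_le_iff.1 a0 with a4 | a4
      · have a5 := hord.trans a4
        rw [Nat.cast_le] at a5
        omega
      · rw [Nat.cast_le] at a4
        omega
    have hnorm : ∀ z : ZMod q, ‖(ZMod.stdAddChar z : ℂ)‖ ≤ 1 := by
      intro z
      rw [ZMod.stdAddChar_apply, Circle.norm_coe]
    have hsum0 : ∑ z : ZMod q, (ZMod.stdAddChar z : ℂ) = 0 := by
      refine AddChar.sum_eq_zero_of_ne_one ?_
      intro hc
      have a1 : (ZMod.stdAddChar (1 : ZMod q) : ℂ) = 1 := by rw [hc]; rfl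
      have a2 : (ZMod.stdAddChar (0 : ZMod q) : ℂ) = 1 := AddChar.map_zero_eq_one _
      have a3 : (1 : ZMod q) = 0 := ZMod.injective_stdAddChar (a1.trans a2.symm)
      have : Fact (1 < q) := ⟨hp.one_lt⟩
      exact one_ne_zero a3
    have hlb := level_bound hqm f g hgle hfg (fun z => ZMod.stdAddChar z) hsum0 hnorm
    have hF : FT X ψ = ∑ z, (f z : ℂ) * ZMod.stdAddChar z := by
      rw [FT, ← sum_fiberwise X φ]
      refine sum_congr rfl (fun z _ => ?_)
      have a1 : ∀ x ∈ X.filter (fun x => φ x = z), ψ x = ZMod.stdAddChar z := by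
        intro x hx
        rw [mem_filter] at hx
        rw [hφ x, hx.2]
      rw [sum_congr rfl a1, sum_const, nsmul_eq_mul]
    have hfsum : ∑ z, f z = #X := by
      rw [hf]
      exact (card_eq_sum_card_fiberwise (fun x _ => mem_univ _)).symm
    have hgsum : ∑ z, g z = #(X + X) := by
      rw [hg]
      exact (card_eq_sum_card_fiberwise (fun x _ => mem_univ _)).symm
    rw [← hF, hfsum, hgsum] at hlb
    have hcon' : (#(X + X) : ℝ) < 3 * #X := by exact_mod_cast hcon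
    linarith
  -- the energy
  have hE := energy X
  have hP := parseval X
  rw [hV'] at hE hP
  set n : ℝ := (#X : ℝ) with hn
  set Q : ℝ := (q : ℝ) with hQ
  have hQpos : 0 < Q := by
    rw [hQ]
    exact_mod_cast hp.pos
  have hn1 : 100 * Q ≤ n := by
    rw [hQ, hn]
    exact_mod_cast h1
  have hn2 : 100 * n ≤ Q ^ 2 := by
    rw [hQ, hn]
    exact_mod_cast h2
  have hnpos : 0 < n := by linarith
  have hFT0 : ‖FT X (0 : AddChar V ℂ)‖ = n := by
    rw [FT]
    have : ∀ x ∈ X, (0 : AddChar V ℂ) x = 1 := fun x _ => rfl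
    rw [sum_congr rfl this, sum_const, nsmul_eq_mul, mul_one, Complex.norm_natCast]
  have hsum4 : ∑ ψ : AddChar V ℂ, ‖FT X ψ‖ ^ 4 ≤
      n ^ 4 + (n / 2 + Q) ^ 2 * ∑ ψ : AddChar V ℂ, ‖FT X ψ‖ ^ 2 := by
    rw [← add_sum_erase _ _ (mem_univ (0 : AddChar V ℂ)), hFT0, mul_sum]
    have b1 : ∑ ψ ∈ univ.erase (0 : AddChar V ℂ), ‖FT X ψ‖ ^ 4 ≤
        ∑ ψ ∈ univ.erase (0 : AddChar V ℂ), (n / 2 + Q) ^ 2 * ‖FT X ψ‖ ^ 2 := by
      refine sum_le_sum (fun ψ hψ => ?_)
      have b2 := hbound ψ (ne_of_mem_erase hψ)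
      have b3 : ‖FT X ψ‖ ≤ n / 2 + Q := by linarith
      have b4 : ‖FT X ψ‖ ^ 2 ≤ (n / 2 + Q) ^ 2 := pow_le_pow_left₀ (norm_nonneg _) b3 2
      calc ‖FT X ψ‖ ^ 4 = ‖FT X ψ‖ ^ 2 * ‖FT X ψ‖ ^ 2 := by ring
        _ ≤ (n / 2 + Q) ^ 2 * ‖FT X ψ‖ ^ 2 := mul_le_mul_of_nonneg_right b4 (by positivity)
    have b5 : ∑ ψ ∈ univ.erase (0 : AddChar V ℂ), (n / 2 + Q) ^ 2 * ‖FT X ψ‖ ^ 2 ≤
        ∑ ψ : AddChar V ℂ, (n / 2 + Q) ^ 2 * ‖FT X ψ‖ ^ 2 :=
      sum_le_sum_of_subset_of_nonneg (erase_subset _ _) (fun ψ _ _ => by positivity)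
    linarith
  rw [hE, hP] at hsum4
  have hCS := le_card_add_mul_addEnergy X X
  have hCS' : n ^ 4 ≤ (#(X + X) : ℝ) * (X.addEnergy X : ℝ) := by
    have : #X ^ 2 * #X ^ 2 ≤ #(X + X) * X.addEnergy X := hCS
    have h3 : ((#X ^ 2 * #X ^ 2 : ℕ) : ℝ) ≤ ((#(X + X) * X.addEnergy X : ℕ) : ℝ) := by
      exact_mod_cast this
    rw [hn]
    push_cast at h3
    nlinarith [h3]
  have hcon' : (#(X + X) : ℝ) < 3 * n := by
    rw [hn]
    exact_mod_cast hcon
  set En : ℝ := (X.addEnergy X : ℝ) with hEn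
  have hEn0 : 0 ≤ En := by
    rw [hEn]
    positivity
  push_cast at hsum4
  -- `n ^ 4 ≤ 3 n En`, `Q ^ 2 En ≤ n ^ 4 + (n / 2 + Q) ^ 2 Q ^ 2 n`
  have c1 : n ^ 4 ≤ 3 * n * En := hCS'.trans (mul_le_mul_of_nonneg_right hcon'.le hEn0)
  have c2 : n ^ 3 ≤ 3 * En := by
    have : n * n ^ 3 ≤ n * (3 * En) := by nlinarith [c1]
    exact le_of_mul_le_mul_left this hnpos
  have c3 : Q ^ 2 * En ≤ n ^ 4 + (n / 2 + Q) ^ 2 * (Q ^ 2 * n) := hsum4
  have c4 : n ^ 4 ≤ Q ^ 2 * (n ^ 3 / 100) := by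
    have : n ^ 3 * (100 * n) ≤ n ^ 3 * Q ^ 2 := mul_le_mul_of_nonneg_left hn2 (by positivity)
    nlinarith [this]
  have c5 : (n / 2 + Q) ^ 2 ≤ (51 / 100 * n) ^ 2 := by
    refine pow_le_pow_left₀ (by positivity) ?_ 2
    linarith
  have c6 : (n / 2 + Q) ^ 2 * (Q ^ 2 * n) ≤ (51 / 100 * n) ^ 2 * (Q ^ 2 * n) :=
    mul_le_mul_of_nonneg_right c5 (by positivity)
  have c7 : Q ^ 2 * En ≤ Q ^ 2 * (n ^ 3 / 100 + (51 / 100) ^ 2 * n ^ 3) := by
    have : (51 / 100 * n) ^ 2 * (Q ^ 2 * n) = Q ^ 2 * ((51 / 100) ^ 2 * n ^ 3) := by ring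
    rw [mul_add]
    linarith
  have c8 : En ≤ n ^ 3 / 100 + (51 / 100) ^ 2 * n ^ 3 := le_of_mul_le_mul_left c7 (by positivity)
  have c9 : 0 < n ^ 3 := by positivity
  nlinarith [c8, c2, c9]

end Pool.Agent.Lib.MPa7239a.GC
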