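import Mathlib

/-!
# Character sums on `F_q ^ 2`: Parseval and the energy inequality
-/

open Finset
open scoped Pointwise

namespace Pool.Agent.Lib.MPa7239a.GC

/-- the character sum of `X` -/
noncomputable def cs {q : ℕ} [NeZero q] (X : Finset (ZMod q × ZMod q)) (ξ : ZMod q × ZMod q) : ℂ :=
  ∑ x ∈ X, ZMod.stdAddChar (ξ.1 * x.1 + ξ.2 * x.2)

namespace R2BM

variable {q : ℕ} [NeZero q]

/-- orthogonality -/
theorem orth (z : ZMod q × ZMod q) :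
    ∑ ξ : ZMod q × ZMod q, (ZMod.stdAddChar (ξ.1 * z.1 + ξ.2 * z.2) : ℂ) =
      if z = 0 then (q : ℂ) ^ 2 else 0 := by
  have h1 : ∀ b : ZMod q, ∑ x : ZMod q, (ZMod.stdAddChar (x * b) : ℂ) =
      if b = 0 then (q : ℂ) else 0 := by
    intro b
    have h := AddChar.sum_mulShift (R' := ℂ) b (ZMod.isPrimitive_stdAddChar q)
    rw [h, ZMod.card]
    split_ifs <;> simp
  rw [Fintype.sum_prod_type]
  simp only [AddChar.map_add_eq_mul]
  have h2 : ∀ x : ZMod q, ∑ y : ZMod q, (ZMod.stdAddChar (x * z.1) : ℂ) *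
      ZMod.stdAddChar (y * z.2) = ZMod.stdAddChar (x * z.1) * if z.2 = 0 then (q : ℂ) else 0 := by
    intro x
    rw [← Finset.mul_sum, h1]
  rw [Finset.sum_congr rfl fun x _ => h2 x, ← Finset.sum_mul, h1]
  by_cases hz1 : z.1 = 0
  · by_cases hz2 : z.2 = 0
    · have hz : z = 0 := Prod.ext hz1 hz2
      rw [if_pos hz1, if_pos hz2, if_pos hz, sq]
    · have hz : z ≠ 0 := fun h => hz2 (by rw [h]; rfl)
      rw [if_neg hz2, if_neg hz, mul_zero]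
  · have hz : z ≠ 0 := fun h => hz1 (by rw [h]; rfl)
    rw [if_neg hz1, if_neg hz, zero_mul]

/-- Parseval -/
theorem parseval (Z : Finset (ZMod q × ZMod q)) (c : ZMod q × ZMod q → ℝ) :
    ∑ ξ : ZMod q × ZMod q, ‖∑ z ∈ Z, (c z : ℂ) * ZMod.stdAddChar (ξ.1 * z.1 + ξ.2 * z.2)‖ ^ 2 =
      (q : ℝ) ^ 2 * ∑ z ∈ Z, c z ^ 2 := by
  have key : ∀ ξ : ZMod q × ZMod q,
      ((‖∑ z ∈ Z, (c z : ℂ) * ZMod.stdAddChar (ξ.1 * z.1 + ξ.2 * z.2)‖ ^ 2 : ℝ) : ℂ) =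
        ∑ z ∈ Z, ∑ w ∈ Z, (c z : ℂ) * c w *
          ZMod.stdAddChar (ξ.1 * (z - w).1 + ξ.2 * (z - w).2) := by
    intro ξ
    rw [Complex.ofReal_pow, ← Complex.mul_conj', map_sum, Finset.sum_mul_sum]
    refine Finset.sum_congr rfl fun z _ => Finset.sum_congr rfl fun w _ => ?_
    rw [map_mul, Complex.conj_ofReal, ← AddChar.map_neg_eq_conj]
    have h3 : ξ.1 * (z - w).1 + ξ.2 * (z - w).2 =
        (ξ.1 * z.1 + ξ.2 * z.2) + -(ξ.1 * w.1 + ξ.2 * w.2) := by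
      rw [Prod.fst_sub, Prod.snd_sub]; ring
    rw [h3, AddChar.map_add_eq_mul (ZMod.stdAddChar (N := q)) (ξ.1 * z.1 + ξ.2 * z.2)
      (-(ξ.1 * w.1 + ξ.2 * w.2))]
    exact mul_mul_mul_comm _ _ _ _
  have h : ((∑ ξ : ZMod q × ZMod q,
      ‖∑ z ∈ Z, (c z : ℂ) * ZMod.stdAddChar (ξ.1 * z.1 + ξ.2 * z.2)‖ ^ 2 : ℝ) : ℂ) =
      (((q : ℝ) ^ 2 * ∑ z ∈ Z, c z ^ 2 : ℝ) : ℂ) := by
    rw [Complex.ofReal_sum, Finset.sum_congr rfl fun ξ _ => key ξ, Finset.sum_comm]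
    push_cast
    rw [Finset.mul_sum]
    refine Finset.sum_congr rfl fun z hz => ?_
    rw [Finset.sum_comm]
    have h4 : ∀ w ∈ Z, ∑ ξ : ZMod q × ZMod q, (c z : ℂ) * c w *
        ZMod.stdAddChar (ξ.1 * (z - w).1 + ξ.2 * (z - w).2) =
        if w = z then (q : ℂ) ^ 2 * (c z : ℂ) ^ 2 else 0 := by
      intro w _
      rw [← Finset.mul_sum, orth]
      by_cases hw : w = z
      · rw [if_pos hw, if_pos (by rw [hw, sub_self]), hw]; ring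
      · rw [if_neg hw, if_neg (fun h => hw (sub_eq_zero.mp h).symm), mul_zero]
    rw [Finset.sum_congr rfl h4, Finset.sum_ite_eq' Z z, if_pos hz]
  exact_mod_cast h

/-- the number of representations -/
noncomputable def rep (X : Finset (ZMod q × ZMod q)) (z : ZMod q × ZMod q) : ℝ :=
  #{p ∈ X ×ˢ X | p.1 + p.2 = z}

theorem sq_cs (X : Finset (ZMod q × ZMod q)) (ξ : ZMod q × ZMod q) :
    cs X ξ ^ 2 = ∑ z ∈ X + X, (rep X z : ℂ) * ZMod.stdAddChar (ξ.1 * z.1 + ξ.2 * z.2) := by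
  rw [sq, cs, Finset.sum_mul_sum, ← Finset.sum_product']
  have hmap : ∀ p ∈ X ×ˢ X, p.1 + p.2 ∈ X + X := by
    intro p hp
    rw [Finset.mem_product] at hp
    exact Finset.add_mem_add hp.1 hp.2
  rw [← Finset.sum_fiberwise_of_maps_to hmap]
  refine Finset.sum_congr rfl fun z _ => ?_
  have h5 : ∀ p ∈ (X ×ˢ X).filter (fun p => p.1 + p.2 = z),
      (ZMod.stdAddChar (ξ.1 * p.1.1 + ξ.2 * p.1.2) : ℂ) *
        ZMod.stdAddChar (ξ.1 * p.2.1 + ξ.2 * p.2.2) =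
      ZMod.stdAddChar (ξ.1 * z.1 + ξ.2 * z.2) := by
    intro p hp
    rw [Finset.mem_filter] at hp
    rw [← AddChar.map_add_eq_mul, ← hp.2, Prod.fst_add, Prod.snd_add]
    congr 1
    ring
  rw [Finset.sum_congr rfl h5, Finset.sum_const, nsmul_eq_mul, rep]
  push_cast
  rfl

omit [NeZero q] in
theorem sum_rep (X : Finset (ZMod q × ZMod q)) :
    ∑ z ∈ X + X, rep X z = (#X : ℝ) ^ 2 := by
  have hmap : ∀ p ∈ X ×ˢ X, p.1 + p.2 ∈ X + X := by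
    intro p hp
    rw [Finset.mem_product] at hp
    exact Finset.add_mem_add hp.1 hp.2
  have h := Finset.card_eq_sum_card_fiberwise hmap
  rw [Finset.card_product] at h
  unfold rep
  rw [← Nat.cast_sum, ← h]
  push_cast
  ring

end R2BM

open R2BM in
/-- small character sums give a large sumset -/
theorem energy {q : ℕ} [Fact q.Prime] {X : Finset (ZMod q × ZMod q)} {M : ℝ}
    (hM : ∀ ξ : ZMod q × ZMod q, ξ ≠ 0 → ‖cs X ξ‖ ≤ M) :
    (#X : ℝ) ^ 3 * q ^ 2 ≤ #(X + X) * ((#X : ℝ) ^ 3 + q ^ 2 * M ^ 2) := by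
  classical
  rcases X.eq_empty_or_nonempty with hX | hX
  · rw [hX]; simp
  have hXpos : (0 : ℝ) < #X := by exact_mod_cast hX.card_pos
  -- Parseval for `X`
  have hp1 : ∑ ξ : ZMod q × ZMod q, ‖cs X ξ‖ ^ 2 = (q : ℝ) ^ 2 * #X := by
    have h := parseval X (fun _ => (1 : ℝ))
    simp only [Complex.ofReal_one, one_mul, one_pow, Finset.sum_const, nsmul_eq_mul, mul_one] at h
    exact h
  -- Parseval for the representation function
  have hp2 : ∑ ξ : ZMod q × ZMod q, ‖cs X ξ‖ ^ 4 = (q : ℝ) ^ 2 * ∑ z ∈ X + X, rep X z ^ 2 := by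
    rw [← parseval (X + X) (rep X)]
    refine Finset.sum_congr rfl fun ξ _ => ?_
    rw [← sq_cs, norm_pow]
    ring
  -- the trivial character
  have h0 : ‖cs X 0‖ = #X := by
    have : cs X 0 = (#X : ℂ) := by
      unfold cs
      simp
    rw [this, Complex.norm_natCast]
  have h4 : ∑ ξ : ZMod q × ZMod q, ‖cs X ξ‖ ^ 4 ≤ (#X : ℝ) ^ 4 + M ^ 2 * ((q : ℝ) ^ 2 * #X) := by
    rw [← Finset.add_sum_erase Finset.univ (fun ξ => ‖cs X ξ‖ ^ 4) (Finset.mem_univ 0), h0, ← hp1]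
    refine add_le_add le_rfl ?_
    calc ∑ ξ ∈ Finset.univ.erase (0 : ZMod q × ZMod q), ‖cs X ξ‖ ^ 4
        ≤ ∑ ξ ∈ Finset.univ.erase (0 : ZMod q × ZMod q), M ^ 2 * ‖cs X ξ‖ ^ 2 := by
          refine Finset.sum_le_sum fun ξ hξ => ?_
          have hne := (Finset.mem_erase.mp hξ).1
          have h6 := hM ξ hne
          have h7 : ‖cs X ξ‖ ^ 2 ≤ M ^ 2 := pow_le_pow_left₀ (norm_nonneg _) h6 2
          calc ‖cs X ξ‖ ^ 4 = ‖cs X ξ‖ ^ 2 * ‖cs X ξ‖ ^ 2 := by ring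
            _ ≤ M ^ 2 * ‖cs X ξ‖ ^ 2 := mul_le_mul_of_nonneg_right h7 (by positivity)
      _ = M ^ 2 * ∑ ξ ∈ Finset.univ.erase (0 : ZMod q × ZMod q), ‖cs X ξ‖ ^ 2 := by
          rw [Finset.mul_sum]
      _ ≤ M ^ 2 * ∑ ξ : ZMod q × ZMod q, ‖cs X ξ‖ ^ 2 := by
          refine mul_le_mul_of_nonneg_left ?_ (sq_nonneg M)
          exact Finset.sum_le_sum_of_subset_of_nonneg (Finset.erase_subset _ _)
            fun _ _ _ => by positivity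
  -- Cauchy
  have hcs : ((#X : ℝ) ^ 2) ^ 2 ≤ #(X + X) * ∑ z ∈ X + X, rep X z ^ 2 := by
    rw [← sum_rep X]
    exact sq_sum_le_card_mul_sum_sq
  have h8 : (#X : ℝ) * ((#X : ℝ) ^ 3 * q ^ 2) ≤
      #X * (#(X + X) * ((#X : ℝ) ^ 3 + q ^ 2 * M ^ 2)) := by
    calc (#X : ℝ) * ((#X : ℝ) ^ 3 * q ^ 2) = ((#X : ℝ) ^ 2) ^ 2 * q ^ 2 := by ring
      _ ≤ (#(X + X) * ∑ z ∈ X + X, rep X z ^ 2) * q ^ 2 :=
          mul_le_mul_of_nonneg_right hcs (by positivity)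
      _ = #(X + X) * ((q : ℝ) ^ 2 * ∑ z ∈ X + X, rep X z ^ 2) := by ring
      _ ≤ #(X + X) * ((#X : ℝ) ^ 4 + M ^ 2 * ((q : ℝ) ^ 2 * #X)) := by
          rw [← hp2]
          exact mul_le_mul_of_nonneg_left h4 (by positivity)
      _ = #X * (#(X + X) * ((#X : ℝ) ^ 3 + q ^ 2 * M ^ 2)) := by ring
  exact le_of_mul_le_mul_left h8 hXpos

end Pool.Agent.Lib.MPa7239a.GC
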